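import Mathlib
import Pool.Agent.N176.GP.Up

/-!
# Integers of an arbitrary interval with prime rough part and small smooth part
-/

set_option autoImplicit false

namespace Pool.Agent.J6H29.PL

open Finset Filter Topology
open Pool.Agent.H305R2 (roughPart roughPart_prime roughPart_mul SM SM_pos SMz mem_SMz VV VV_nonneg
  sum_le_VV sum_rough_eq count_inner)
open Pool.Agent.W66 (VV_le_log)

/-- upper bound for the integers of an interval with prime rough part and small smooth part -/
theorem small_part : ∃ C : ℝ, 0 < C ∧ ∃ P : ℕ, ∀ p ≥ P, ∀ (A H : ℕ) (S : ℝ), 1 < S → S * S ≤ H →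
    (((Ioc A (A + H)).filter (fun n => (roughPart p n).Prime ∧
      ((n / roughPart p n : ℕ) : ℝ) < S)).card : ℝ) ≤ C * H / Real.log S * Real.log p := by
  classical
  obtain ⟨C0, hC01, hBT⟩ := Pool.Agent.Helper601.brun_titchmarsh
  obtain ⟨C1, hC1, hV⟩ := VV_le_log
  obtain ⟨P, hP⟩ := hV.exists_forall_of_atTop
  refine ⟨2 * C0 * C1, by positivity, P, fun p hp A H S hS1 hSS => ?_⟩
  have hVp := hP p hp
  have hS0 : 0 < S := by linarith
  have hlogS : 0 < Real.log S := Real.log_pos hS1
  have hH0 : (0 : ℝ) < H := lt_of_lt_of_le (by positivity) hSS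
  set B := A + H with hB
  have hdiv : ∀ s q : ℕ, s ∈ SM p → q.Prime → p < q → s * q / roughPart p (s * q) = s := by
    intro s q hs hq hpq
    rw [roughPart_mul hs hq hpq, Nat.mul_div_cancel _ hq.pos]
  have h2 : (((Ioc A B).filter (fun n => (roughPart p n).Prime ∧
      ((n / roughPart p n : ℕ) : ℝ) < S)).card : ℝ) =
        ∑ m ∈ (Ioc A B).filter (fun m => (roughPart p m).Prime),
          (if ((m / roughPart p m : ℕ) : ℝ) < S then (1 : ℝ) else 0) := by
    rw [← Finset.sum_filter, Finset.filter_filter, Finset.sum_const, nsmul_eq_mul, mul_one]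
  rw [h2, sum_rough_eq]
  calc _ ≤ ∑ s ∈ (SMz p (B : ℝ)).filter (fun s : ℕ => (s : ℝ) < S), 2 * C0 * H / Real.log S * (s : ℝ)⁻¹ := by
        rw [Finset.sum_filter]
        refine Finset.sum_le_sum fun s hs => ?_
        have hs' := (mem_SMz (Nat.cast_nonneg _)).1 hs
        have hsn := SM_pos hs'.1
        have hs0 : (0 : ℝ) < s := by exact_mod_cast hsn
        have h3 : ∀ q ∈ (Ioc (A / s) (B / s)).filter (fun q => q.Prime ∧ p < q),
            (if ((s * q / roughPart p (s * q) : ℕ) : ℝ) < S then (1 : ℝ) else 0) =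
            if (s : ℝ) < S then (1 : ℝ) else 0 := by
          intro q hq
          rw [mem_filter] at hq
          rw [hdiv s q hs'.1 hq.2.1 hq.2.2]
        rw [Finset.sum_congr rfl h3]
        split_ifs with hsS
        · rw [Finset.sum_const, nsmul_eq_mul, mul_one]
          have hD : B - A = H := by omega
          obtain ⟨_, hc2⟩ := count_inner hBT p A B s hsn (by omega)
          rw [hD] at hc2
          have hHs : S ≤ (H : ℝ) / s := by
            rw [le_div_iff₀ hs0]
            exact (mul_le_mul_of_nonneg_left hsS.le hS0.le).trans hSS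
          have hHs1 : 1 ≤ H / s := by
            rw [Nat.one_le_div_iff hsn]
            have : (1 : ℝ) ≤ (H : ℝ) / s := hS1.le.trans hHs
            rw [le_div_iff₀ hs0, one_mul] at this
            exact_mod_cast this
          refine (hc2 (by omega)).trans ?_
          have hup : ((H / s + 1 : ℕ) : ℝ) ≤ 2 * (H / s) := by
            push_cast
            have := @Nat.cast_div_le ℝ _ _ _ H s
            have : (1 : ℝ) ≤ (H : ℝ) / s := hS1.le.trans hHs
            linarith
          have hlow : S ≤ ((H / s + 1 : ℕ) : ℝ) := by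
            have h5 : (H : ℝ) / s < ((H / s : ℕ) : ℝ) + 1 := by
              rw [div_lt_iff₀ hs0]
              have := Nat.lt_mul_div_succ H hsn
              have h6 : (H : ℝ) < ((s * (H / s + 1) : ℕ) : ℝ) := by exact_mod_cast this
              push_cast at h6
              linarith
            push_cast
            linarith
          have hlog : Real.log S ≤ Real.log ((H / s + 1 : ℕ) : ℝ) := Real.log_le_log hS0 hlow
          calc C0 * ((H / s + 1 : ℕ) : ℝ) / Real.log ((H / s + 1 : ℕ) : ℝ) ≤
              C0 * (2 * (H / s)) / Real.log S := by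
                gcongr
            _ = _ := by field_simp
        · simp
    _ = 2 * C0 * H / Real.log S * ∑ s ∈ (SMz p (B : ℝ)).filter (fun s : ℕ => (s : ℝ) < S), (s : ℝ)⁻¹ := by
        rw [Finset.mul_sum]
    _ ≤ 2 * C0 * H / Real.log S * VV p := by
        refine mul_le_mul_of_nonneg_left ?_ (by positivity)
        refine sum_le_VV p _ fun s hs => ?_
        rw [mem_filter, mem_SMz (Nat.cast_nonneg _)] at hs
        exact hs.1.1
    _ ≤ 2 * C0 * H / Real.log S * (C1 * Real.log p) := by gcongr
    _ = _ := by ring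

/-- the same after a shift -/
theorem small_shift : ∃ C : ℝ, 0 < C ∧ ∃ P : ℕ, ∀ p ≥ P, ∀ (u H : ℕ) (c : ℤ) (S : ℝ), 1 < S → S * S ≤ H →
    (((Ico u (u + H)).filter (fun n : ℕ => (roughPart p ((n : ℤ) + c).toNat).Prime ∧
      ((((n : ℤ) + c).toNat / roughPart p ((n : ℤ) + c).toNat : ℕ) : ℝ) < S)).card : ℝ) ≤
      C * H / Real.log S * Real.log p := by
  classical
  obtain ⟨C, hC, P, h⟩ := small_part
  refine ⟨C, hC, P, fun p hp u H c S hS hSS => le_trans ?_ (h p hp (((u : ℤ) + c).toNat - 1) H S hS hSS)⟩
  have hz : ¬ (roughPart p 0).Prime := by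
    unfold roughPart
    simp [Nat.not_prime_one]
  have key : ((Ico u (u + H)).filter (fun n : ℕ => (roughPart p ((n : ℤ) + c).toNat).Prime ∧
      ((((n : ℤ) + c).toNat / roughPart p ((n : ℤ) + c).toNat : ℕ) : ℝ) < S)).card ≤
      ((Ioc (((u : ℤ) + c).toNat - 1) (((u : ℤ) + c).toNat - 1 + H)).filter (fun n => (roughPart p n).Prime ∧
      ((n / roughPart p n : ℕ) : ℝ) < S)).card := by
    apply Finset.card_le_card_of_injOn (fun n : ℕ => ((n : ℤ) + c).toNat)
    · intro n hn
      rw [Finset.mem_coe, mem_filter, mem_Ico] at hn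
      rw [Finset.mem_coe, mem_filter, mem_Ioc]
      have h0 : ((n : ℤ) + c).toNat ≠ 0 := by
        intro h0
        rw [h0] at hn
        exact hz hn.2.1
      refine ⟨?_, hn.2⟩
      show ((u : ℤ) + c).toNat - 1 < ((n : ℤ) + c).toNat ∧ ((n : ℤ) + c).toNat ≤ ((u : ℤ) + c).toNat - 1 + H
      omega
    · intro n hn n' hn' hnn
      rw [Finset.mem_coe, mem_filter, mem_Ico] at hn hn'
      have h0 : ((n : ℤ) + c).toNat ≠ 0 := by
        intro h0
        rw [h0] at hn
        exact hz hn.2.1
      simp only at hnn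
      omega
  exact_mod_cast key

end Pool.Agent.J6H29.PL
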