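import Mathlib
import Pool.Agent.N176.SH.Stm
import Pool.Agent.N176.OW.M1

/-!
# Mean values over windows of amplitudes

`W b m I₁ I₂ t` is the set of the integers of level `t` of the amplitudes in `(I₁ / b^m, I₂ / b^m]`.
-/

set_option autoImplicit false

namespace Pool.Agent.J6H29.PL

open Finset Filter Topology
open Pool.Agent.H305R2 (roughPart)
open Pool.Agent.N176.OW (cell)
open Pool.Agent.N176.SH (sh hits)

/-- the integers of level `t` in the window -/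
def W (b m I₁ I₂ t : ℕ) : Finset ℕ := Ico (I₁ * b ^ (t - m)) (I₂ * b ^ (t - m))

/-- the data of a window -/
structure Win (b m I₁ I₂ : ℕ) : Prop where
  hb : 2 ≤ b
  h1 : 1 ≤ I₁
  h12 : I₁ ≤ I₂

/-- real mean over the window -/
noncomputable def Ev (b m I₁ I₂ t : ℕ) (f : ℕ → ℝ) : ℝ := (∑ n ∈ W b m I₁ I₂ t, f n) / (b : ℝ) ^ t

/-- complex mean over the window -/
noncomputable def Ec (b m I₁ I₂ t : ℕ) (f : ℕ → ℂ) : ℂ := (∑ n ∈ W b m I₁ I₂ t, f n) / (b : ℂ) ^ t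

/-- the measure of the window -/
noncomputable def mu (b m I₁ I₂ : ℕ) : ℝ := ((I₂ : ℝ) - I₁) / (b : ℝ) ^ m

/-- indicator of an exponent; `n` has the level `t` -/
noncomputable def X (c : ℕ → ℤ) (b t p n : ℕ) : ℝ :=
  if (roughPart p (sh c p (n / b ^ (t - p)))).Prime then 1 else 0

lemma X_nonneg (c : ℕ → ℤ) (b t p n : ℕ) : 0 ≤ X c b t p n := by unfold X; split_ifs <;> norm_num

lemma X_le_one (c : ℕ → ℤ) (b t p n : ℕ) : X c b t p n ≤ 1 := by unfold X; split_ifs <;> norm_num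

theorem sum_blocks {M : Type*} [AddCommMonoid M] (B a c : ℕ) (hac : a ≤ c) (g : ℕ → M) :
    ∑ n ∈ Ico (a * B) (c * B), g n = ∑ m ∈ Ico a c, ∑ n ∈ Ico (m * B) ((m + 1) * B), g n := by
  induction c, hac using Nat.le_induction with
  | base => simp
  | succ c hac ih =>
    rw [Finset.sum_Ico_succ_top hac, ← ih,
      Finset.sum_Ico_consecutive _ (Nat.mul_le_mul_right B hac) (Nat.mul_le_mul_right B (Nat.le_succ c))]

variable {b m I₁ I₂ : ℕ}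

/-- decomposition of the window in cells -/
theorem sum_W {M : Type*} [AddCommMonoid M] (hW : Win b m I₁ I₂) {z t : ℕ} (hmz : m ≤ z) (hzt : z ≤ t)
    (g : ℕ → M) : ∑ n ∈ W b m I₁ I₂ t, g n = ∑ j ∈ W b m I₁ I₂ z, ∑ n ∈ cell b z t j, g n := by
  unfold W cell
  have e : b ^ (t - m) = b ^ (z - m) * b ^ (t - z) := by rw [← pow_add]; congr 1; omega
  rw [e, ← mul_assoc, ← mul_assoc, sum_blocks _ _ _ (Nat.mul_le_mul_right _ hW.h12)]

lemma card_W (hW : Win b m I₁ I₂) {t : ℕ} (hmt : m ≤ t) :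
    ((W b m I₁ I₂ t).card : ℝ) = mu b m I₁ I₂ * (b : ℝ) ^ t := by
  have hb0 : (0 : ℝ) < b := by have := hW.hb; positivity
  unfold W mu
  rw [Nat.card_Ico, ← Nat.sub_mul, Nat.cast_mul, Nat.cast_sub hW.h12, Nat.cast_pow]
  have e : (b : ℝ) ^ t = (b : ℝ) ^ m * (b : ℝ) ^ (t - m) := by rw [← pow_add]; congr 1; omega
  rw [e]
  field_simp

lemma mu_nonneg (hW : Win b m I₁ I₂) : 0 ≤ mu b m I₁ I₂ := by
  have := hW.h12
  have h : (I₁ : ℝ) ≤ I₂ := by exact_mod_cast this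
  unfold mu
  have : 0 ≤ (I₂ : ℝ) - I₁ := by linarith
  positivity

/-- the cells of the window satisfy the conditions of the library -/
lemma mem_W_cond (hW : Win b m I₁ I₂) {z j : ℕ} (hmz : m + I₂ ≤ z) (hj : j ∈ W b m I₁ I₂ z) :
    1 ≤ j ∧ j ≤ b ^ (2 * z) := by
  have hb := hW.hb
  unfold W at hj
  rw [mem_Ico] at hj
  constructor
  · have h1 : 0 < b ^ (z - m) := by positivity
    have h2 : 0 < I₁ * b ^ (z - m) := Nat.mul_pos hW.h1 h1
    omega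
  · have h1 : I₂ ≤ b ^ I₂ := by
      have : I₂ < 2 ^ I₂ := Nat.lt_two_pow_self
      have h2 : 2 ^ I₂ ≤ b ^ I₂ := Nat.pow_le_pow_left hb _
      omega
    calc j ≤ I₂ * b ^ (z - m) := hj.2.le
      _ ≤ b ^ I₂ * b ^ (z - m) := Nat.mul_le_mul_right _ h1
      _ = b ^ (I₂ + (z - m)) := (pow_add _ _ _).symm
      _ ≤ b ^ (2 * z) := Nat.pow_le_pow_right (by omega) (by omega)

lemma Ev_nonneg {t : ℕ} {f : ℕ → ℝ} (hf : ∀ n, 0 ≤ f n) : 0 ≤ Ev b m I₁ I₂ t f := by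
  unfold Ev
  exact div_nonneg (sum_nonneg fun n _ => hf n) (by positivity)

lemma Ev_mono {t : ℕ} {f g : ℕ → ℝ} (h : ∀ n ∈ W b m I₁ I₂ t, f n ≤ g n) :
    Ev b m I₁ I₂ t f ≤ Ev b m I₁ I₂ t g := by
  unfold Ev
  exact div_le_div_of_nonneg_right (sum_le_sum h) (by positivity)

lemma Ev_add {t : ℕ} (f g : ℕ → ℝ) :
    Ev b m I₁ I₂ t (fun n => f n + g n) = Ev b m I₁ I₂ t f + Ev b m I₁ I₂ t g := by
  unfold Ev
  rw [sum_add_distrib, add_div]

lemma Ev_sum {t : ℕ} {ι : Type*} (s : Finset ι) (f : ι → ℕ → ℝ) :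
    Ev b m I₁ I₂ t (fun n => ∑ i ∈ s, f i n) = ∑ i ∈ s, Ev b m I₁ I₂ t (f i) := by
  unfold Ev
  rw [sum_comm, sum_div]

lemma Ev_mul {t : ℕ} (a : ℝ) (f : ℕ → ℝ) :
    Ev b m I₁ I₂ t (fun n => a * f n) = a * Ev b m I₁ I₂ t f := by
  unfold Ev
  rw [← mul_sum, mul_div_assoc]

lemma norm_Ec_le {t : ℕ} (f : ℕ → ℂ) (g : ℕ → ℝ) (h : ∀ n ∈ W b m I₁ I₂ t, ‖f n‖ ≤ g n) :
    ‖Ec b m I₁ I₂ t f‖ ≤ Ev b m I₁ I₂ t g := by
  unfold Ec Ev
  rw [norm_div, norm_pow, Complex.norm_natCast]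
  exact div_le_div_of_nonneg_right ((norm_sum_le _ _).trans (sum_le_sum h)) (by positivity)

lemma Ec_sub {t : ℕ} (f g : ℕ → ℂ) :
    Ec b m I₁ I₂ t (fun n => f n - g n) = Ec b m I₁ I₂ t f - Ec b m I₁ I₂ t g := by
  unfold Ec
  rw [sum_sub_distrib, sub_div]

lemma Ec_mul {t : ℕ} (a : ℂ) (f : ℕ → ℂ) :
    Ec b m I₁ I₂ t (fun n => a * f n) = a * Ec b m I₁ I₂ t f := by
  unfold Ec
  rw [← mul_sum, mul_div_assoc]

/-- cellwise bound gives a bound of the mean -/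
lemma Ev_le_of_cell (hW : Win b m I₁ I₂) {z t : ℕ} (hmz : m ≤ z) (hzt : z ≤ t) {f : ℕ → ℝ} {Q : ℝ}
    (h : ∀ j ∈ W b m I₁ I₂ z, ∑ n ∈ cell b z t j, f n ≤ Q * (b : ℝ) ^ (t - z)) :
    Ev b m I₁ I₂ t f ≤ mu b m I₁ I₂ * Q := by
  have hb0 : (0 : ℝ) < b := by have := hW.hb; positivity
  unfold Ev
  rw [sum_W hW hmz hzt, div_le_iff₀ (by positivity)]
  refine (sum_le_sum h).trans ?_
  rw [sum_const, nsmul_eq_mul, card_W hW hmz]
  have e : (b : ℝ) ^ t = (b : ℝ) ^ z * (b : ℝ) ^ (t - z) := by rw [← pow_add]; congr 1; omega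
  rw [e]
  exact le_of_eq (by ring)

/-- the mean of one -/
lemma Ec_one (hW : Win b m I₁ I₂) {t : ℕ} (hmt : m ≤ t) :
    Ec b m I₁ I₂ t (fun _ => 1) = (mu b m I₁ I₂ : ℂ) := by
  have hb0 : (b : ℂ) ≠ 0 := by
    have := hW.hb
    exact_mod_cast (by omega : b ≠ 0)
  unfold Ec
  rw [sum_const, nsmul_eq_mul, mul_one]
  have h := card_W hW hmt
  have h' : ((W b m I₁ I₂ t).card : ℂ) = (mu b m I₁ I₂ : ℂ) * (b : ℂ) ^ t := by exact_mod_cast h
  rw [h', mul_div_assoc, div_self (pow_ne_zero _ hb0), mul_one]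

lemma Ev_one (hW : Win b m I₁ I₂) {t : ℕ} (hmt : m ≤ t) :
    Ev b m I₁ I₂ t (fun _ => 1) = mu b m I₁ I₂ := by
  have hb0 : (0 : ℝ) < b := by have := hW.hb; positivity
  unfold Ev
  rw [sum_const, nsmul_eq_mul, mul_one, card_W hW hmt, mul_div_assoc, div_self (by positivity), mul_one]

/-- the mean of a function of the first digits -/
lemma sum_cell_div (hb : 2 ≤ b) {p t j : ℕ} (g : ℕ → ℝ) :
    ∑ n ∈ cell b p t j, g (n / b ^ (t - p)) = (b : ℝ) ^ (t - p) * g j := by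
  have h : ∀ n ∈ cell b p t j, g (n / b ^ (t - p)) = g j := by
    intro n hn
    rw [Pool.Agent.N176.OW.div_of_mem_cell hb hn]
  rw [sum_congr rfl h, sum_const, nsmul_eq_mul, Pool.Agent.N176.OW.cell_card]
  push_cast
  rfl

end Pool.Agent.J6H29.PL
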