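import Mathlib
import Pool.Agent.N176.SH.All
import Pool.Agent.J6H29.PL.Up
import Pool.Agent.J6H29.PL.Win

/-!
# Means of one and of two exponents
-/

set_option autoImplicit false

namespace Pool.Agent.J6H29.PL

open Finset Filter Topology
open Pool.Agent.H305R2 (roughPart)
open Pool.Agent.N176.OW (cell sum_cell div_of_mem_cell cell_card)
open Pool.Agent.N176.SH (sh hits mhits run Big Deg Ok S_E4 S_RB)

/-- the weight of an exponent -/
noncomputable def wt (p : ℕ) : ℝ := Real.log p / p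

lemma wt_nonneg (p : ℕ) : 0 ≤ wt p := by
  unfold wt
  have := Real.log_natCast_nonneg p
  positivity

lemma log_le_wt {x q : ℕ} (hx : 1 ≤ x) (h1 : x ≤ q) (h2 : q ≤ 2 * x) : Real.log x / x ≤ 2 * wt q := by
  have hx0 : (0 : ℝ) < x := by exact_mod_cast hx
  have hq0 : (0 : ℝ) < q := by exact_mod_cast (by omega : 0 < q)
  have h1' : (x : ℝ) ≤ q := by exact_mod_cast h1
  have h2' : (q : ℝ) ≤ 2 * x := by exact_mod_cast h2
  have hl : Real.log x ≤ Real.log q := Real.log_le_log hx0 h1'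
  have hl0 : 0 ≤ Real.log x := Real.log_natCast_nonneg x
  unfold wt
  rw [← mul_div_assoc, div_le_div_iff₀ hx0 hq0]
  nlinarith

open Classical in
theorem e4c (h4 : S_E4) {b A : ℕ} {c : ℕ → ℤ} (hOk : Ok b A c) : ∃ C : ℝ, 1 ≤ C ∧ ∃ P : ℕ, ∀ x ≥ P,
    ∀ T : Finset ℕ, (∀ p ∈ T, x < p ∧ p ≤ 2 * x) → ∀ z : ℕ, A * z ≤ x → ∀ t : ℕ, 2 * x ≤ t →
    ∀ j : ℕ, 1 ≤ j → ∀ F : Finset ℕ, F ⊆ T → F.Nonempty → (F.card : ℝ) ^ 2 ≤ Real.log x →
    (((cell b z t j).filter (fun n => ¬ Big c T b t x n ∧ F ⊆ mhits c T b t n)).card : ℝ) ≤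
      (C * F.card * (Real.log x / x)) ^ F.card * (b : ℝ) ^ (t - z) := by
  obtain ⟨C, hC, P, h⟩ := h4 b A c hOk
  refine ⟨C, hC, P, fun x hx T hT z hz t ht j hj F hF hF0 hFc => ?_⟩
  have h1 := h x hx T hT z hz t ht j hj (1 / 2) (by norm_num) le_rfl F hF hF0 hFc
  have h2 : (((cell b z t j).filter (fun n => ¬ Big c T b t x n ∧ F ⊆ mhits c T b t n)).card : ℝ) *
      (1 / 2) ^ F.card ≤
      ∑ n ∈ (cell b z t j).filter (fun n => ¬ Big c T b t x n ∧ F ⊆ mhits c T b t n),
        ∏ p ∈ F, ((1 + 1 / 2 : ℝ) ^ (1 + run c b t p n) - 1) := by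
    rw [← nsmul_eq_mul]
    refine card_nsmul_le_sum _ _ _ fun n _ => ?_
    rw [← prod_const]
    refine prod_le_prod (fun _ _ => by norm_num) fun p _ => ?_
    have h3 : (1 + 1 / 2 : ℝ) ^ 1 ≤ (1 + 1 / 2 : ℝ) ^ (1 + run c b t p n) :=
      pow_le_pow_right₀ (by norm_num) (by omega)
    linarith
  have h3 := h2.trans h1
  have h4 : (0 : ℝ) < (1 / 2 : ℝ) ^ F.card := by positivity
  have e : (C * (1 / 2) * F.card * (Real.log x / x)) ^ F.card =
      (1 / 2 : ℝ) ^ F.card * (C * F.card * (Real.log x / x)) ^ F.card := by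
    rw [← mul_pow]
    congr 1
    ring
  rw [e, mul_comm _ ((1 / 2 : ℝ) ^ F.card), mul_assoc] at h3
  exact le_of_mul_le_mul_left h3 h4

variable {b m I₁ I₂ : ℕ}

/-- functions of the digits after the level `p`, on the exponents `p` -/
lemma Ev_X_mul (hW : Win b m I₁ I₂) (c : ℕ → ℤ) {p t : ℕ} (hmp : m ≤ p) (hpt : p ≤ t) {g : ℕ → ℝ} {R : ℝ}
    (h : ∀ j ∈ W b m I₁ I₂ p, ∑ n ∈ cell b p t j, g n ≤ R * (b : ℝ) ^ (t - p)) :
    Ev b m I₁ I₂ t (fun n => X c b t p n * g n) ≤ R * Ev b m I₁ I₂ t (X c b t p) := by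
  have hb0 : (0 : ℝ) < b := by have := hW.hb; positivity
  set Y : ℕ → ℝ := fun j => if (roughPart p (sh c p j)).Prime then (1 : ℝ) else 0 with hY
  have hY0 : ∀ j, 0 ≤ Y j := fun j => by simp only [hY]; split_ifs <;> norm_num
  have hX : ∀ j, ∀ n ∈ cell b p t j, X c b t p n = Y j := by
    intro j n hn
    unfold X
    rw [div_of_mem_cell hW.hb hn]
  unfold Ev
  rw [← mul_div_assoc]
  refine div_le_div_of_nonneg_right ?_ (by positivity)
  rw [sum_W hW hmp hpt, sum_W hW hmp hpt, mul_sum]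
  refine sum_le_sum fun j hj => ?_
  rw [sum_congr rfl fun n hn => by rw [hX j n hn], ← mul_sum,
    sum_congr rfl fun n hn => hX j n hn, sum_const, nsmul_eq_mul, cell_card]
  have h1 := mul_le_mul_of_nonneg_left (h j hj) (hY0 j)
  refine h1.trans (le_of_eq ?_)
  push_cast
  ring

open Classical in
/-- the degenerate pairs -/
lemma Ev_deg (hW : Win b m I₁ I₂) (c : ℕ → ℤ) {p q t : ℕ} (hmp : m ≤ p) (hpq : p ≤ q) (hqt : q ≤ t) :
    Ev b m I₁ I₂ t (fun n => X c b t p n * (if Deg c b t p q n then (1 : ℝ) else 0)) ≤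
      ((b : ℝ) ^ (q - p))⁻¹ * Ev b m I₁ I₂ t (X c b t p) := by
  have hb := hW.hb
  have hb0 : (0 : ℝ) < b := by positivity
  refine Ev_X_mul hW c hmp (hpq.trans hqt) fun j _ => ?_
  rw [← sum_filter, sum_const, nsmul_eq_mul, mul_one]
  have hB : 0 < b ^ (t - q) := by positivity
  have h1 : ((cell b p t j).filter (fun n => Deg c b t p q n)).card ≤ b ^ (t - q) := by
    set v : ℤ := (b : ℤ) ^ (q - p) * ((j : ℤ) + c p) - c q with hv
    have h2 : (cell b p t j).filter (fun n => Deg c b t p q n) ⊆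
        Ico (v.toNat * b ^ (t - q)) ((v.toNat + 1) * b ^ (t - q)) := by
      intro n hn
      rw [mem_filter] at hn
      have h3 := div_of_mem_cell hb hn.1
      have h4 : ((n / b ^ (t - q) : ℕ) : ℤ) = v := by
        have h5 : ((n / b ^ (t - q) : ℕ) : ℤ) + c q = (b : ℤ) ^ (q - p) * (((n / b ^ (t - p) : ℕ) : ℤ) + c p) :=
          hn.2
        rw [h3] at h5
        rw [hv]
        linarith
      have h5 : n / b ^ (t - q) = v.toNat := by rw [← h4, Int.toNat_natCast]
      rw [mem_Ico, ← h5]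
      constructor
      · exact Nat.div_mul_le_self _ _
      · rw [mul_comm]
        exact Nat.lt_mul_div_succ n hB
    refine (card_le_card h2).trans (le_of_eq ?_)
    rw [Nat.card_Ico, add_mul, one_mul]
    omega
  have h2 : (((cell b p t j).filter (fun n => Deg c b t p q n)).card : ℝ) ≤ (b : ℝ) ^ (t - q) := by
    exact_mod_cast h1
  refine h2.trans (le_of_eq ?_)
  have e : (b : ℝ) ^ (t - p) = (b : ℝ) ^ (q - p) * (b : ℝ) ^ (t - q) := by
    rw [← pow_add]; congr 1; omega
  rw [e]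
  field_simp

/-- `dg = 1` in general; `dg = 0` is allowed if there are no degenerate pairs -/
def DG (b A : ℕ) (c : ℕ → ℤ) (dg : ℝ) : Prop := dg = 1 ∨ (dg = 0 ∧ ∀ p ≥ A, ∀ q > p, ∀ r : ℤ, 0 ≤ r →
  r < (b : ℤ) ^ (q - p) → r + c q ≠ (b : ℤ) ^ (q - p) * c p)

lemma DG.nonneg {A : ℕ} {c : ℕ → ℤ} {dg : ℝ} (h : DG b A c dg) : 0 ≤ dg := by
  rcases h with h | h
  · rw [h]; norm_num
  · rw [h.1]

open Classical in
/-- the degenerate pairs -/
lemma Ev_deg' (hW : Win b m I₁ I₂) {A : ℕ} {c : ℕ → ℤ} {dg : ℝ} (hdg : DG b A c dg) {p q t : ℕ}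
    (hmp : m ≤ p) (hAp : A ≤ p) (hpq : p < q) (hqt : q ≤ t) :
    Ev b m I₁ I₂ t (fun n => X c b t p n * (if Deg c b t p q n then (1 : ℝ) else 0)) ≤
      dg * (((b : ℝ) ^ (q - p))⁻¹ * Ev b m I₁ I₂ t (X c b t p)) := by
  rcases hdg with h | ⟨h, h2⟩
  · rw [h, one_mul]
    exact Ev_deg hW c hmp hpq.le hqt
  · rw [h, zero_mul]
    have hb := hW.hb
    have e : (fun n => X c b t p n * (if Deg c b t p q n then (1 : ℝ) else 0)) = fun _ => 0 := by
      funext n
      rw [if_neg, mul_zero]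
      intro hd
      have hB : (0 : ℤ) < (b : ℤ) ^ (q - p) := by positivity
      set v : ℕ := n / b ^ (t - q) with hv
      have e1 : n / b ^ (t - p) = v / b ^ (q - p) := by
        rw [hv, Nat.div_div_eq_div_mul, ← pow_add]
        congr 2
        omega
      have hd' : (v : ℤ) + c q = (b : ℤ) ^ (q - p) * (((n / b ^ (t - p) : ℕ) : ℤ) + c p) := hd
      rw [e1] at hd'
      have e2 : (v : ℤ) = (b : ℤ) ^ (q - p) * ((v / b ^ (q - p) : ℕ) : ℤ) + ((v % b ^ (q - p) : ℕ) : ℤ) := by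
        have := Nat.div_add_mod v (b ^ (q - p))
        exact_mod_cast this.symm
      refine h2 p hAp q hpq ((v % b ^ (q - p) : ℕ) : ℤ) (by positivity) ?_ ?_
      · have : v % b ^ (q - p) < b ^ (q - p) := Nat.mod_lt _ (by positivity)
        exact_mod_cast this
      · rw [mul_add] at hd'
        linarith
    rw [e]
    unfold Ev
    simp

open Classical in
/-- large smooth parts -/
lemma Ev_big (hRB : S_RB) (hW : Win b m I₁ I₂) {A : ℕ} {c : ℕ → ℤ} (hOk : Ok b A c) :
    ∃ d : ℝ, 0 < d ∧ ∃ P : ℕ, ∀ x ≥ P, ∀ T : Finset ℕ, (∀ p ∈ T, x < p ∧ p ≤ 2 * x) →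
    ∀ t : ℕ, 2 * x ≤ t → Ev b m I₁ I₂ t (fun n => if Big c T b t x n then (1 : ℝ) else 0) ≤
      mu b m I₁ I₂ * Real.exp (-(d * x)) := by
  obtain ⟨d, hd, P, h⟩ := hRB b A c hOk
  refine ⟨d, hd, P + A * (m + I₂) + m + I₂, fun x hx T hT t ht => ?_⟩
  refine Ev_le_of_cell hW (z := m + I₂) (by omega) (by omega) fun j hj => ?_
  obtain ⟨h1, h2⟩ := mem_W_cond hW le_rfl hj
  rw [← sum_filter, sum_const, nsmul_eq_mul, mul_one]
  exact h x (by omega) T hT (m + I₂) (by omega) t ht j h1 h2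

lemma ev_exp_le (d : ℝ) (hd : 0 < d) : ∀ᶠ x : ℕ in atTop, Real.exp (-(d * x)) ≤ (1 / (2 * (x : ℝ) + 2)) ^ 2 := by
  have h1 := (Real.tendsto_pow_mul_exp_neg_atTop_nhds_zero 2).comp
    ((tendsto_natCast_atTop_atTop (R := ℝ)).const_mul_atTop hd)
  have h2 := h1.const_mul (16 / d ^ 2)
  rw [mul_zero] at h2
  filter_upwards [h2.eventually_lt_const one_pos, eventually_ge_atTop 1] with x hx hx1
  simp only [Function.comp] at hx
  have e : 16 / d ^ 2 * ((d * x) ^ 2 * Real.exp (-(d * x))) = 16 * (x : ℝ) ^ 2 * Real.exp (-(d * x)) := by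
    field_simp
  rw [e] at hx
  have hxr : (1 : ℝ) ≤ x := by exact_mod_cast hx1
  have h3 : (2 * (x : ℝ) + 2) ^ 2 ≤ 16 * (x : ℝ) ^ 2 := by nlinarith
  rw [one_div, inv_pow, ← one_div, le_div_iff₀ (by positivity)]
  have h4 : 0 < Real.exp (-(d * x)) := Real.exp_pos _
  nlinarith

/-- the mean of one exponent -/
theorem one_bound (h4 : S_E4) (hRB : S_RB) (hW : Win b m I₁ I₂) {A : ℕ} {c : ℕ → ℤ} (hOk : Ok b A c) :
    ∃ C : ℝ, 0 < C ∧ ∃ P : ℕ, ∀ p ≥ P, ∀ t ≥ 2 * p, Ev b m I₁ I₂ t (X c b t p) ≤ C * wt p := by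
  classical
  obtain ⟨C4, hC4, P4, h4'⟩ := e4c h4 hOk
  obtain ⟨d, hd, Pb, hb'⟩ := Ev_big hRB hW hOk
  obtain ⟨Pe, hPe⟩ := (ev_exp_le d hd).exists_forall_of_atTop
  have hmu := mu_nonneg hW
  refine ⟨mu b m I₁ I₂ * (2 * C4) + mu b m I₁ I₂ + 1, by positivity, P4 + Pb + Pe + A * (m + I₂) + m + I₂ + 5,
    fun p hp t ht => ?_⟩
  obtain ⟨x, rfl⟩ : ∃ x, p = x + 1 := ⟨p - 1, by omega⟩
  have hx : P4 + Pb + Pe + A * (m + I₂) + m + I₂ + 4 ≤ x := by omega
  have hT : ∀ p ∈ ({x + 1} : Finset ℕ), x < p ∧ p ≤ 2 * x := by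
    intro p hp
    rw [mem_singleton] at hp
    omega
  have hxr : (4 : ℝ) ≤ x := by exact_mod_cast (by omega : 4 ≤ x)
  have hlog : 1 ≤ Real.log x := by
    rw [Real.le_log_iff_exp_le (by linarith)]
    have := Real.exp_one_lt_d9
    linarith
  have hwt := log_le_wt (x := x) (q := x + 1) (by omega) (by omega) (by omega)
  have hsplit : Ev b m I₁ I₂ t (X c b t (x + 1)) ≤
      Ev b m I₁ I₂ t (fun n => if ¬ Big c {x + 1} b t x n ∧ ({x + 1} : Finset ℕ) ⊆ mhits c {x + 1} b t n
        then (1 : ℝ) else 0) + Ev b m I₁ I₂ t (fun n => if Big c {x + 1} b t x n then (1 : ℝ) else 0) := by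
    rw [← Ev_add]
    refine Ev_mono fun n _ => ?_
    unfold X
    split_ifs with h1 h2 h3 h3
    · norm_num
    · norm_num
    · norm_num
    · exfalso
      apply h2
      refine ⟨h3, ?_⟩
      intro p hp
      rw [mem_singleton] at hp
      subst hp
      unfold mhits hits
      rw [mem_filter, mem_filter]
      refine ⟨⟨mem_singleton_self _, h1⟩, ?_⟩
      intro p' hp' hlt
      rw [mem_filter, mem_singleton] at hp'
      omega
    all_goals norm_num
  have h1 : Ev b m I₁ I₂ t (fun n => if ¬ Big c {x + 1} b t x n ∧ ({x + 1} : Finset ℕ) ⊆ mhits c {x + 1} b t n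
        then (1 : ℝ) else 0) ≤ mu b m I₁ I₂ * (C4 * (Real.log x / x)) := by
    refine Ev_le_of_cell hW (z := m + I₂) (by omega) (by omega) fun j hj => ?_
    obtain ⟨hj1, hj2⟩ := mem_W_cond hW le_rfl hj
    rw [← sum_filter, sum_const, nsmul_eq_mul, mul_one]
    have h := h4' x (by omega) {x + 1} hT (m + I₂) (by omega) t (by omega) j hj1 {x + 1} (Finset.Subset.refl _)
      (singleton_nonempty _) (by rw [card_singleton]; norm_num; exact hlog)
    rw [card_singleton, pow_one, Nat.cast_one, mul_one] at h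
    exact h
  have h2 := hb' x (by omega) {x + 1} hT t (by omega)
  have h3 : Real.exp (-(d * x)) ≤ wt (x + 1) := by
    refine (hPe x (by omega)).trans ?_
    have h5 : 1 / (2 * (x : ℝ) + 2) ≤ 1 := by
      rw [div_le_one (by linarith)]
      linarith
    have h6 : 0 ≤ 1 / (2 * (x : ℝ) + 2) := by positivity
    have h7 : 1 / (2 * (x : ℝ) + 2) ≤ wt (x + 1) := by
      unfold wt
      push_cast
      have hl1 : 1 ≤ Real.log ((x : ℝ) + 1) := hlog.trans (Real.log_le_log (by linarith) (by linarith))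
      rw [div_le_div_iff₀ (by linarith) (by linarith)]
      nlinarith
    nlinarith
  have hw0 := wt_nonneg (x + 1)
  have h5 : mu b m I₁ I₂ * (C4 * (Real.log x / x)) ≤ mu b m I₁ I₂ * (2 * C4) * wt (x + 1) := by
    have := mul_le_mul_of_nonneg_left hwt (show 0 ≤ mu b m I₁ I₂ * C4 by positivity)
    linarith
  have h6 := mul_le_mul_of_nonneg_left h3 hmu
  linarith

/-- the mean of a pair of exponents -/
theorem two_bound (h4 : S_E4) (hRB : S_RB) (hW : Win b m I₁ I₂) {A : ℕ} {c : ℕ → ℤ} (hOk : Ok b A c)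
    {dg : ℝ} (hdg : DG b A c dg) :
    ∃ C : ℝ, 0 < C ∧ ∃ P : ℕ, ∀ p ≥ P, ∀ q > p, ∀ t ≥ 2 * q,
      Ev b m I₁ I₂ t (fun n => X c b t p n * X c b t q n) ≤
        C * (wt p * wt q + dg * (wt p * ((b : ℝ) ^ (q - p))⁻¹)) := by
  classical
  have hb := hW.hb
  have hb0 : (0 : ℝ) < b := by positivity
  have hL0 : 0 < Real.log b := Real.log_pos (by exact_mod_cast hb)
  obtain ⟨C4, hC4, P4, h4'⟩ := e4c h4 hOk
  obtain ⟨C1, hC1, P1, h1⟩ := one_bound h4 hRB hW hOk
  obtain ⟨d, hd, Pb, hb'⟩ := Ev_big hRB hW hOk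
  obtain ⟨Pe, hPe⟩ := (ev_exp_le d hd).exists_forall_of_atTop
  obtain ⟨Cs, hCs, Ps, hs⟩ := small_shift
  have hmu := mu_nonneg hW
  have hdg0 := hdg.nonneg
  obtain ⟨P5, hP5⟩ := exists_nat_ge (32 / Real.log b)
  refine ⟨mu b m I₁ I₂ * (16 * C4 ^ 2) + mu b m I₁ I₂ + C1 + 16 * Cs / Real.log b * C1, by positivity,
    P4 + Pb + Pe + P1 + Ps + P5 + A * (m + I₂) + A + m + I₂ + 60, fun p hp q hq t ht => ?_⟩
  have hwp := wt_nonneg p
  have hwq := wt_nonneg q
  have hlogp : ∀ n : ℕ, 60 ≤ n → 4 ≤ Real.log n := by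
    intro n hn
    have hnr : (60 : ℝ) ≤ n := by exact_mod_cast hn
    rw [Real.le_log_iff_exp_le (by linarith)]
    have h6 := Real.exp_one_lt_d9
    have h7 : Real.exp 4 = Real.exp 1 ^ 4 := by rw [← Real.exp_nat_mul]; norm_num
    rw [h7]
    have h8 : 0 < Real.exp 1 := Real.exp_pos 1
    calc Real.exp 1 ^ 4 ≤ 2.7182818286 ^ 4 := pow_le_pow_left₀ h8.le h6.le 4
      _ ≤ 60 := by norm_num
      _ ≤ n := hnr
  have hwlow : ∀ n : ℕ, 60 ≤ n → ∀ y : ℕ, n ≤ 2 * y + 2 → 1 / (2 * (y : ℝ) + 2) ≤ wt n := by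
    intro n hn y hy
    have hnr : (60 : ℝ) ≤ n := by exact_mod_cast hn
    have hyr : (n : ℝ) ≤ 2 * y + 2 := by exact_mod_cast hy
    have h6 := hlogp n hn
    unfold wt
    rw [div_le_div_iff₀ (by linarith) (by linarith)]
    nlinarith
  have hE1 := h1 p (by omega) t (by omega)
  have hE0 : 0 ≤ Ev b m I₁ I₂ t (X c b t p) := Ev_nonneg fun n => X_nonneg _ _ _ _ _
  have hbq : 0 ≤ ((b : ℝ) ^ (q - p))⁻¹ := by positivity
  rcases Nat.lt_or_ge (2 * p - 2) q with hcase | hcase
  · -- the digits between the levels are many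
    obtain ⟨x, rfl⟩ : ∃ x, q = x + 1 := ⟨q - 1, by omega⟩
    have hT : ∀ p ∈ ({x + 1} : Finset ℕ), x < p ∧ p ≤ 2 * x := by
      intro p hp
      rw [mem_singleton] at hp
      omega
    have hx60 : 60 ≤ x := by omega
    have hxr : (60 : ℝ) ≤ x := by exact_mod_cast hx60
    set S : ℝ := Real.exp (x * Real.log b / 8) with hS
    set G : ℕ → ℝ := fun v => if (roughPart (x + 1) (sh c (x + 1) v)).Prime ∧
      ((sh c (x + 1) v / roughPart (x + 1) (sh c (x + 1) v) : ℕ) : ℝ) < S then (1 : ℝ) else 0 with hG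
    have hsplit : Ev b m I₁ I₂ t (fun n => X c b t p n * X c b t (x + 1) n) ≤
        Ev b m I₁ I₂ t (fun n => X c b t p n * G (n / b ^ (t - (x + 1)))) +
        Ev b m I₁ I₂ t (fun n => if Big c {x + 1} b t x n then (1 : ℝ) else 0) := by
      rw [← Ev_add]
      refine Ev_mono fun n _ => ?_
      have hX0 := X_nonneg c b t p n
      have hX1 := X_le_one c b t p n
      by_cases h3 : Big c {x + 1} b t x n
      · rw [if_pos h3]
        have h5 : 0 ≤ G (n / b ^ (t - (x + 1))) := by simp only [hG]; split_ifs <;> norm_num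
        have h6 := X_nonneg c b t (x + 1) n
        have h7 := X_le_one c b t (x + 1) n
        nlinarith
      · rw [if_neg h3, add_zero]
        refine mul_le_mul_of_nonneg_left ?_ hX0
        unfold X
        simp only [hG]
        split_ifs with h5 h6
        · exact le_rfl
        · exfalso
          apply h3
          refine ⟨x + 1, mem_singleton_self _, h5, ?_⟩
          by_contra h7
          exact h6 ⟨h5, lt_of_not_ge h7⟩
        · norm_num
        · norm_num
    have h2 : Ev b m I₁ I₂ t (fun n => X c b t p n * G (n / b ^ (t - (x + 1)))) ≤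
        (16 * Cs / Real.log b * wt (x + 1)) * Ev b m I₁ I₂ t (X c b t p) := by
      refine Ev_X_mul hW c (by omega) (by omega) fun j hj => ?_
      rw [sum_cell (show p ≤ x + 1 by omega) (show x + 1 ≤ t by omega)]
      have h5 : ∀ v ∈ cell b p (x + 1) j, ∑ n ∈ cell b (x + 1) t v, G (n / b ^ (t - (x + 1))) =
          (b : ℝ) ^ (t - (x + 1)) * G v := fun v _ => sum_cell_div hb G
      rw [sum_congr rfl h5, ← mul_sum]
      have h6 : ∑ v ∈ cell b p (x + 1) j, G v ≤
          Cs * ((b ^ (x + 1 - p) : ℕ) : ℝ) / Real.log S * Real.log ((x + 1 : ℕ) : ℝ) := by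
        simp only [hG]
        rw [← sum_filter, sum_const, nsmul_eq_mul, mul_one]
        have e : cell b p (x + 1) j = Ico (j * b ^ (x + 1 - p)) (j * b ^ (x + 1 - p) + b ^ (x + 1 - p)) := by
          unfold cell
          congr 1
          ring
        rw [e]
        have hlb32 : 32 ≤ x * Real.log b := by
          have h7 : (P5 : ℝ) ≤ x := by exact_mod_cast (by omega : P5 ≤ x)
          have h8 := hP5.trans h7
          rwa [div_le_iff₀ hL0] at h8
        refine hs (x + 1) (by omega) _ _ (c (x + 1)) S ?_ ?_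
        · rw [hS]
          exact Real.one_lt_exp_iff.2 (by positivity)
        · rw [hS, ← Real.exp_add]
          push_cast
          rw [Pool.Agent.N176.GP.bexp hb]
          rw [Real.exp_le_exp]
          have h7 : (x : ℝ) ≤ 2 * ((x + 1 - p : ℕ) : ℝ) := by
            have : x ≤ 2 * (x + 1 - p) := by omega
            exact_mod_cast this
          nlinarith
      have hlogS : Real.log S = x * Real.log b / 8 := by rw [hS, Real.log_exp]
      calc (b : ℝ) ^ (t - (x + 1)) * ∑ v ∈ cell b p (x + 1) j, G v ≤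
          (b : ℝ) ^ (t - (x + 1)) * (Cs * ((b ^ (x + 1 - p) : ℕ) : ℝ) / Real.log S *
            Real.log ((x + 1 : ℕ) : ℝ)) := by gcongr
        _ = Cs * (8 / (x * Real.log b)) * Real.log ((x + 1 : ℕ) : ℝ) *
            ((b : ℝ) ^ (t - (x + 1)) * (b : ℝ) ^ (x + 1 - p)) := by
            rw [hlogS]; push_cast; field_simp
        _ = Cs * (8 / (x * Real.log b)) * Real.log ((x + 1 : ℕ) : ℝ) * (b : ℝ) ^ (t - p) := by
            rw [← pow_add]; congr 2; omega
        _ ≤ _ := by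
            refine mul_le_mul_of_nonneg_right ?_ (by positivity)
            unfold wt
            have hl : 0 ≤ Real.log ((x + 1 : ℕ) : ℝ) := Real.log_natCast_nonneg _
            have h7 : 8 / ((x : ℝ) * Real.log b) ≤ 16 / Real.log b * (1 / ((x + 1 : ℕ) : ℝ)) := by
              push_cast
              rw [div_mul_div_comm, mul_one, div_le_div_iff₀ (by positivity) (by positivity)]
              nlinarith
            calc Cs * (8 / (x * Real.log b)) * Real.log ((x + 1 : ℕ) : ℝ) ≤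
                Cs * (16 / Real.log b * (1 / ((x + 1 : ℕ) : ℝ))) * Real.log ((x + 1 : ℕ) : ℝ) := by gcongr
              _ = _ := by ring
    have h3 := hb' x (by omega) {x + 1} hT t (by omega)
    have h5 : Real.exp (-(d * x)) ≤ wt p * wt (x + 1) := by
      refine (hPe x (by omega)).trans ?_
      have h6 := hwlow p (by omega) x (by omega)
      have h7 := hwlow (x + 1) (by omega) x (by omega)
      have h8 : 0 ≤ 1 / (2 * (x : ℝ) + 2) := by positivity
      rw [pow_two]
      exact mul_le_mul h6 h7 h8 hwp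
    have h6 : (16 * Cs / Real.log b * wt (x + 1)) * Ev b m I₁ I₂ t (X c b t p) ≤
        (16 * Cs / Real.log b * wt (x + 1)) * (C1 * wt p) := by gcongr
    have h7 := mul_le_mul_of_nonneg_left h5 hmu
    have h8 : 0 ≤ wt p * wt (x + 1) := mul_nonneg hwp hwq
    have h9 : 0 ≤ dg * (wt p * ((b : ℝ) ^ (x + 1 - p))⁻¹) := mul_nonneg hdg0 (mul_nonneg hwp hbq)
    have h10 : 0 ≤ mu b m I₁ I₂ * (16 * C4 ^ 2) + C1 := by positivity
    have h11 : 0 ≤ mu b m I₁ I₂ * (16 * C4 ^ 2) + mu b m I₁ I₂ + C1 + 16 * Cs / Real.log b * C1 := by positivity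
    have h12 := mul_nonneg h10 h8
    have h13 := mul_nonneg h11 h9
    calc _ ≤ _ := hsplit
      _ ≤ (16 * Cs / Real.log b * wt (x + 1)) * (C1 * wt p) + mu b m I₁ I₂ * (wt p * wt (x + 1)) := by
          linarith
      _ ≤ _ := by
          have e : (16 * Cs / Real.log b * wt (x + 1)) * (C1 * wt p) =
            16 * Cs / Real.log b * C1 * (wt p * wt (x + 1)) := by ring
          rw [e]
          linarith
  · -- close exponents
    obtain ⟨x, rfl⟩ : ∃ x, p = x + 1 := ⟨p - 1, by omega⟩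
    have hx60 : 59 ≤ x := by omega
    have hT : ∀ p ∈ ({x + 1, q} : Finset ℕ), x < p ∧ p ≤ 2 * x := by
      intro p hp
      rw [mem_insert, mem_singleton] at hp
      omega
    have hcard : ({x + 1, q} : Finset ℕ).card = 2 := card_pair (by omega)
    have hxr : (59 : ℝ) ≤ x := by exact_mod_cast hx60
    have hlog : 4 ≤ Real.log x := by
      rcases Nat.lt_or_ge x 60 with h | h
      · have : x = 59 := by omega
        subst this
        rw [Real.le_log_iff_exp_le (by norm_num)]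
        have h6 := Real.exp_one_lt_d9
        have h7 : Real.exp 4 = Real.exp 1 ^ 4 := by rw [← Real.exp_nat_mul]; norm_num
        rw [h7]
        have h8 : 0 < Real.exp 1 := Real.exp_pos 1
        calc Real.exp 1 ^ 4 ≤ 2.7182818286 ^ 4 := pow_le_pow_left₀ h8.le h6.le 4
          _ ≤ ((59 : ℕ) : ℝ) := by norm_num
      · exact hlogp x h
    have hsplit : Ev b m I₁ I₂ t (fun n => X c b t (x + 1) n * X c b t q n) ≤
        Ev b m I₁ I₂ t (fun n => if ¬ Big c {x + 1, q} b t x n ∧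
          ({x + 1, q} : Finset ℕ) ⊆ mhits c {x + 1, q} b t n then (1 : ℝ) else 0) +
        Ev b m I₁ I₂ t (fun n => if Big c {x + 1, q} b t x n then (1 : ℝ) else 0) +
        Ev b m I₁ I₂ t (fun n => X c b t (x + 1) n * (if Deg c b t (x + 1) q n then (1 : ℝ) else 0)) := by
      rw [← Ev_add, ← Ev_add]
      refine Ev_mono fun n _ => ?_
      have i0 : ∀ Q : Prop, [Decidable Q] → (0 : ℝ) ≤ if Q then (1 : ℝ) else 0 := by
        intro Q _; split_ifs <;> norm_num
      have k1 := i0 (¬ Big c {x + 1, q} b t x n ∧ ({x + 1, q} : Finset ℕ) ⊆ mhits c {x + 1, q} b t n)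
      have k2 := i0 (Big c {x + 1, q} b t x n)
      have k3 : 0 ≤ X c b t (x + 1) n * (if Deg c b t (x + 1) q n then (1 : ℝ) else 0) :=
        mul_nonneg (X_nonneg _ _ _ _ _) (i0 _)
      by_cases h5 : (roughPart (x + 1) (sh c (x + 1) (n / b ^ (t - (x + 1))))).Prime
      swap
      · have : X c b t (x + 1) n = 0 := by unfold X; rw [if_neg h5]
        rw [this, zero_mul, zero_mul, add_zero]
        linarith
      by_cases h6 : (roughPart q (sh c q (n / b ^ (t - q)))).Prime
      swap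
      · have : X c b t q n = 0 := by unfold X; rw [if_neg h6]
        rw [this, mul_zero]
        linarith
      have e1 : X c b t (x + 1) n = 1 := by unfold X; rw [if_pos h5]
      have e2 : X c b t q n = 1 := by unfold X; rw [if_pos h6]
      rw [e1, e2, one_mul, one_mul]
      by_cases h7 : Deg c b t (x + 1) q n
      · rw [if_pos h7]
        linarith
      by_cases h8 : Big c {x + 1, q} b t x n
      · rw [if_pos h8]
        have := i0 (Deg c b t (x + 1) q n)
        linarith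
      have h9 : ({x + 1, q} : Finset ℕ) ⊆ mhits c {x + 1, q} b t n := by
        intro r hr
        unfold mhits hits
        rw [mem_filter, mem_filter]
        refine ⟨⟨hr, ?_⟩, ?_⟩
        · rw [mem_insert, mem_singleton] at hr
          rcases hr with rfl | rfl
          · exact h5
          · exact h6
        · intro r' hr' hlt
          rw [mem_filter, mem_insert, mem_singleton] at hr'
          rw [mem_insert, mem_singleton] at hr
          rcases hr with rfl | rfl
          · omega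
          · have : r' = x + 1 := by omega
            subst this
            exact h7
      rw [if_pos ⟨h8, h9⟩]
      have := i0 (Deg c b t (x + 1) q n)
      linarith
    have h2 : Ev b m I₁ I₂ t (fun n => if ¬ Big c {x + 1, q} b t x n ∧
          ({x + 1, q} : Finset ℕ) ⊆ mhits c {x + 1, q} b t n then (1 : ℝ) else 0) ≤
        mu b m I₁ I₂ * (C4 * 2 * (Real.log x / x)) ^ 2 := by
      refine Ev_le_of_cell hW (z := m + I₂) (by omega) (by omega) fun j hj => ?_
      obtain ⟨hj1, hj2⟩ := mem_W_cond hW le_rfl hj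
      rw [← sum_filter, sum_const, nsmul_eq_mul, mul_one]
      have h := h4' x (by omega) {x + 1, q} hT (m + I₂) (by omega) t (by omega) j hj1 {x + 1, q}
        (Finset.Subset.refl _) ⟨x + 1, by simp⟩ (by rw [hcard]; norm_num; exact hlog)
      rw [hcard] at h
      push_cast at h
      exact h
    have h3 := hb' x (by omega) {x + 1, q} hT t (by omega)
    have h5 := Ev_deg' hW hdg (p := x + 1) (q := q) (t := t) (by omega) (by omega) (by omega) (by omega)
    have hw1 := log_le_wt (x := x) (q := x + 1) (by omega) (by omega) (by omega)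
    have hw2 := log_le_wt (x := x) (q := q) (by omega) (by omega) (by omega)
    have hlx : 0 ≤ Real.log x / x := by positivity
    have h6 : (Real.log x / x) ^ 2 ≤ 4 * (wt (x + 1) * wt q) := by
      rw [pow_two]
      calc Real.log x / x * (Real.log x / x) ≤ (2 * wt (x + 1)) * (2 * wt q) :=
            mul_le_mul hw1 hw2 hlx (by linarith)
        _ = _ := by ring
    have h7 : Real.exp (-(d * x)) ≤ wt (x + 1) * wt q := by
      refine (hPe x (by omega)).trans ?_
      have h6 := hwlow (x + 1) (by omega) x (by omega)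
      have h7 := hwlow q (by omega) x (by omega)
      have h8 : 0 ≤ 1 / (2 * (x : ℝ) + 2) := by positivity
      rw [pow_two]
      exact mul_le_mul h6 h7 h8 hwp
    have h8 : 0 ≤ wt (x + 1) * wt q := mul_nonneg hwp hwq
    have h9 : 0 ≤ dg * (wt (x + 1) * ((b : ℝ) ^ (q - (x + 1)))⁻¹) := mul_nonneg hdg0 (mul_nonneg hwp hbq)
    have h10 : dg * (((b : ℝ) ^ (q - (x + 1)))⁻¹ * Ev b m I₁ I₂ t (X c b t (x + 1))) ≤
        dg * (((b : ℝ) ^ (q - (x + 1)))⁻¹ * (C1 * wt (x + 1))) :=
      mul_le_mul_of_nonneg_left (mul_le_mul_of_nonneg_left hE1 hbq) hdg0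
    have h11 : mu b m I₁ I₂ * (C4 * 2 * (Real.log x / x)) ^ 2 ≤
        mu b m I₁ I₂ * (16 * C4 ^ 2) * (wt (x + 1) * wt q) := by
      have : (C4 * 2 * (Real.log x / x)) ^ 2 = 4 * C4 ^ 2 * (Real.log x / x) ^ 2 := by ring
      rw [this]
      have h12 : 4 * C4 ^ 2 * (Real.log x / x) ^ 2 ≤ 4 * C4 ^ 2 * (4 * (wt (x + 1) * wt q)) := by gcongr
      have := mul_le_mul_of_nonneg_left h12 hmu
      linarith
    have h12 := mul_le_mul_of_nonneg_left h7 hmu
    have k1 : 0 ≤ (C1 + 16 * Cs / Real.log b * C1) * (wt (x + 1) * wt q) := by positivity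
    have k2 : 0 ≤ (mu b m I₁ I₂ * (16 * C4 ^ 2) + mu b m I₁ I₂ + 16 * Cs / Real.log b * C1) *
        (dg * (wt (x + 1) * ((b : ℝ) ^ (q - (x + 1)))⁻¹)) := mul_nonneg (by positivity) h9
    linarith

end Pool.Agent.J6H29.PL
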