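import Mathlib
import Pool.Agent.N607.SH.GC
import Pool.Agent.J6H29.PL.Pair

/-!
# The mean of one exponent, given the first digits
-/

set_option autoImplicit false

namespace Pool.Agent.J6H29.PL

open Finset Filter Topology
open Pool.Agent.H305R2 (roughPart)
open Pool.Agent.N176.OW (cell sum_cell div_of_mem_cell cell_card kap S_FM)
open Pool.Agent.N176.SH (sh hits mhits run Big Deg Ok S_E4 S_RB)

variable {b m I₁ I₂ : ℕ}

lemma log_sq_le (q : ℕ) (hq : 1 ≤ q) : (Real.log q) ^ 2 / (q : ℝ) ^ 2 ≤ 4 / q := by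
  have hq0 : (0 : ℝ) < q := by exact_mod_cast hq
  have h1 : Real.log q = 2 * Real.log (√q) := by
    rw [Real.log_sqrt hq0.le]; ring
  have h2 : Real.log (√q) ≤ √q := by
    have := Real.log_le_sub_one_of_pos (Real.sqrt_pos.2 hq0)
    linarith
  have h3 : 0 ≤ Real.log q := Real.log_natCast_nonneg q
  have h4 : Real.log q ≤ 2 * √q := by linarith
  have h5 : (Real.log q) ^ 2 ≤ 4 * q := by
    calc (Real.log q) ^ 2 ≤ (2 * √q) ^ 2 := pow_le_pow_left₀ h3 h4 2
      _ = 4 * q := by rw [mul_pow, Real.sq_sqrt hq0.le]; norm_num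
  rw [div_le_div_iff₀ (by positivity) hq0]
  nlinarith

lemma wt_sq_le (q : ℕ) (hq : 1 ≤ q) : wt q ^ 2 ≤ 4 / q := by
  have := log_sq_le q hq
  unfold wt
  rwa [div_pow]

lemma kap_pos {b : ℕ} (hb : 2 ≤ b) : 0 < kap b := by
  unfold kap
  have : 0 < Real.log b := Real.log_pos (by exact_mod_cast hb)
  positivity

/-- the mean of an exponent over the cells of a low level -/
theorem mean_bound (hFM : S_FM) (hW : Win b m I₁ I₂) {A : ℕ} {c : ℕ → ℤ} (hOk : Ok b A c) :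
    ∃ K : ℕ, 2 ≤ K ∧ ∃ C : ℝ, 0 < C ∧ ∃ P : ℕ, ∀ q ≥ P, ∀ t ≥ q, ∀ f : ℕ → ℂ, (∀ n, ‖f n‖ ≤ 1) →
      ‖Ec b m I₁ I₂ t (fun n => f (n / b ^ (t - q / K)) * (X c b t q n : ℂ)) -
        (kap b * wt q : ℝ) * Ec b m I₁ I₂ t (fun n => f (n / b ^ (t - q / K)))‖ ≤ C / q := by
  classical
  have hb := hW.hb
  have hb0 : (0 : ℝ) < b := by positivity
  have hbC : (b : ℂ) ≠ 0 := by exact_mod_cast (by omega : b ≠ 0)
  have hmu := mu_nonneg hW
  obtain ⟨κ0, K0, hκ0, hK0, hfm⟩ := hFM b hb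
  obtain ⟨P0, hP0⟩ := hfm (m + I₂)
  obtain ⟨K1, hK1⟩ := exists_nat_ge (1 / κ0)
  set K := K1 + A + 2 with hK
  have hA := hOk.hA
  refine ⟨K, by omega, mu b m I₁ I₂ * (K + K0) + 4, by positivity, P0 + K * (m + I₂) + A + 1,
    fun q hq t ht f hf => ?_⟩
  have hq0 : (0 : ℝ) < q := by exact_mod_cast (by omega : 0 < q)
  set z := q / K with hz
  have hzq : z * K ≤ q := Nat.div_mul_le_self q K
  have hzm : m + I₂ ≤ z := by
    rw [hz, Nat.le_div_iff_mul_le (by omega), mul_comm]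
    omega
  have hzle : z ≤ q := Nat.div_le_self q K
  have hAz : A * z ≤ q := by
    calc A * z ≤ K * z := Nat.mul_le_mul_right _ (by omega)
      _ ≤ q := by rw [mul_comm]; exact hzq
  have hzκ : (z : ℝ) ≤ κ0 * q := by
    have h1 : (K : ℝ) * z ≤ q := by
      have : ((z * K : ℕ) : ℝ) ≤ q := by exact_mod_cast hzq
      push_cast at this
      linarith
    have h2 : 1 ≤ κ0 * K := by
      have : 1 / κ0 ≤ (K : ℝ) := hK1.trans (by rw [hK]; push_cast; linarith [(Nat.cast_nonneg A : (0 : ℝ) ≤ A)])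
      rwa [div_le_iff₀ hκ0, mul_comm] at this
    have hz0 : (0 : ℝ) ≤ z := Nat.cast_nonneg z
    calc (z : ℝ) = 1 * z := (one_mul _).symm
      _ ≤ κ0 * K * z := mul_le_mul_of_nonneg_right h2 hz0
      _ = κ0 * (K * z) := by ring
      _ ≤ κ0 * q := mul_le_mul_of_nonneg_left h1 hκ0.le
  have hbz : 1 / (b : ℝ) ^ z ≤ K / q := by
    have h1 : q < (z + 1) * K := by
      have := Nat.lt_div_mul_add (a := q) (show 0 < K by omega)
      rw [← hz] at this
      nlinarith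
    have h2 : z + 1 ≤ b ^ z := by
      have h3 : z < 2 ^ z := Nat.lt_two_pow_self
      have h4 : 2 ^ z ≤ b ^ z := Nat.pow_le_pow_left hb z
      omega
    have h3 : (q : ℝ) ≤ K * (b : ℝ) ^ z := by
      have : q ≤ K * b ^ z := by nlinarith
      exact_mod_cast this
    rw [div_le_div_iff₀ (by positivity) hq0, one_mul]
    exact h3
  -- one cell
  set cn : ℕ → ℝ := fun j => (Pool.Agent.N176.SH.cnt c b z j q : ℝ) / (b : ℝ) ^ (q - z) with hcn
  have hcell : ∀ j, ∑ n ∈ cell b z t j, X c b t q n = cn j * (b : ℝ) ^ (t - z) := by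
    intro j
    rw [sum_cell hzle ht]
    have h1 : ∀ v ∈ cell b z q j, ∑ n ∈ cell b q t v, X c b t q n =
        (b : ℝ) ^ (t - q) * (if (roughPart q (sh c q v)).Prime then (1 : ℝ) else 0) := by
      intro v _
      exact sum_cell_div hb (fun v => if (roughPart q (sh c q v)).Prime then (1 : ℝ) else 0)
    rw [sum_congr rfl h1, ← mul_sum, ← sum_filter, sum_const, nsmul_eq_mul, mul_one]
    have h2 : ((cell b z q j).filter (fun v => (roughPart q (sh c q v)).Prime)).card =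
        Pool.Agent.N176.SH.cnt c b z j q := rfl
    rw [h2]
    simp only [hcn]
    have e : (b : ℝ) ^ (t - z) = (b : ℝ) ^ (q - z) * (b : ℝ) ^ (t - q) := by
      rw [← pow_add]; congr 1; omega
    rw [e]
    field_simp
  have hdev : ∀ j ∈ W b m I₁ I₂ z, |cn j - kap b * wt q| ≤ K / q + K0 / q +
      max 0 (|(Pool.Agent.N176.GP.cnt b z j q : ℝ) / (b : ℝ) ^ (q - z) -
        Real.exp Real.eulerMascheroniConstant / Real.log b * (Real.log q / q)| - K0 / q) := by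
    intro j hj
    obtain ⟨hj1, hj2⟩ := mem_W_cond hW hzm hj
    have h1 := Pool.Agent.N607.SH.cnt_shift hOk (z := z) (q := q) (m := j) hj1 hAz (by omega)
    have h2 := le_max_right (0 : ℝ) (|(Pool.Agent.N176.GP.cnt b z j q : ℝ) / (b : ℝ) ^ (q - z) -
        Real.exp Real.eulerMascheroniConstant / Real.log b * (Real.log q / q)| - K0 / q)
    have h3 : |cn j - kap b * wt q| ≤ |cn j - (Pool.Agent.N176.GP.cnt b z j q : ℝ) / (b : ℝ) ^ (q - z)| +
        |(Pool.Agent.N176.GP.cnt b z j q : ℝ) / (b : ℝ) ^ (q - z) - kap b * wt q| := abs_sub_le _ _ _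
    have h4 : |cn j - (Pool.Agent.N176.GP.cnt b z j q : ℝ) / (b : ℝ) ^ (q - z)| ≤ 1 / (b : ℝ) ^ z := h1
    have h5 : kap b * wt q = Real.exp Real.eulerMascheroniConstant / Real.log b * (Real.log q / q) := rfl
    rw [← h5] at h2 ⊢
    linarith
  have hsum : ∑ j ∈ W b m I₁ I₂ z, |cn j - kap b * wt q| ≤
      mu b m I₁ I₂ * (b : ℝ) ^ z * (K / q + K0 / q) + (b : ℝ) ^ z * ((Real.log q) ^ 2 / q ^ 2) := by
    refine (sum_le_sum hdev).trans ?_
    rw [sum_add_distrib, sum_const, nsmul_eq_mul, card_W hW (by omega)]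
    refine add_le_add le_rfl (le_trans (sum_le_sum_of_subset_of_nonneg ?_ fun j _ _ => le_max_left _ _)
      (hP0 q (by omega) z hzm hzκ))
    intro j hj
    unfold W at hj
    rw [mem_Ico] at hj ⊢
    constructor
    · calc b ^ (z - (m + I₂)) ≤ b ^ (z - m) := Nat.pow_le_pow_right (by omega) (by omega)
        _ ≤ I₁ * b ^ (z - m) := Nat.le_mul_of_pos_left _ hW.h1
        _ ≤ j := hj.1
    · have h1 : I₂ ≤ b ^ I₂ := by
        have h2 : I₂ < 2 ^ I₂ := Nat.lt_two_pow_self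
        have h3 : 2 ^ I₂ ≤ b ^ I₂ := Nat.pow_le_pow_left hb _
        omega
      calc j < I₂ * b ^ (z - m) := hj.2
        _ ≤ b ^ I₂ * b ^ (z - m) := Nat.mul_le_mul_right _ h1
        _ = b ^ (I₂ + (z - m)) := (pow_add _ _ _).symm
        _ ≤ b ^ (z + (m + I₂)) := Nat.pow_le_pow_right (by omega) (by omega)
  -- the difference
  have hdiff : Ec b m I₁ I₂ t (fun n => f (n / b ^ (t - z)) * (X c b t q n : ℂ)) -
        (kap b * wt q : ℝ) * Ec b m I₁ I₂ t (fun n => f (n / b ^ (t - z))) =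
      (∑ j ∈ W b m I₁ I₂ z, f j * (((cn j - kap b * wt q : ℝ) : ℂ) * (b : ℂ) ^ (t - z))) / (b : ℂ) ^ t := by
    rw [← Ec_mul, ← Ec_sub]
    unfold Ec
    rw [sum_W hW (show m ≤ z by omega) (hzle.trans ht)]
    congr 1
    refine sum_congr rfl fun j _ => ?_
    have h1 : ∀ n ∈ cell b z t j, f (n / b ^ (t - z)) * (X c b t q n : ℂ) -
        ((kap b * wt q : ℝ) : ℂ) * f (n / b ^ (t - z)) = f j * (((X c b t q n : ℝ) : ℂ) -
          ((kap b * wt q : ℝ) : ℂ)) := by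
      intro n hn
      rw [div_of_mem_cell hb hn]
      ring
    rw [sum_congr rfl h1, ← mul_sum, sum_sub_distrib, sum_const, cell_card, nsmul_eq_mul,
      ← Complex.ofReal_sum, hcell]
    push_cast
    ring
  rw [hdiff, norm_div, norm_pow, Complex.norm_natCast, div_le_iff₀ (by positivity)]
  have h1 : ‖∑ j ∈ W b m I₁ I₂ z, f j * (((cn j - kap b * wt q : ℝ) : ℂ) * (b : ℂ) ^ (t - z))‖ ≤
      (∑ j ∈ W b m I₁ I₂ z, |cn j - kap b * wt q|) * (b : ℝ) ^ (t - z) := by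
    rw [sum_mul]
    refine (norm_sum_le _ _).trans (sum_le_sum fun j _ => ?_)
    rw [norm_mul, norm_mul, norm_pow, Complex.norm_natCast, Complex.norm_real, Real.norm_eq_abs]
    have h2 : 0 ≤ |cn j - kap b * wt q| * (b : ℝ) ^ (t - z) := by positivity
    calc ‖f j‖ * (|cn j - kap b * wt q| * (b : ℝ) ^ (t - z)) ≤
        1 * (|cn j - kap b * wt q| * (b : ℝ) ^ (t - z)) := mul_le_mul_of_nonneg_right (hf j) h2
      _ = _ := one_mul _
  refine h1.trans ?_
  have h2 := mul_le_mul_of_nonneg_right hsum (show 0 ≤ (b : ℝ) ^ (t - z) by positivity)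
  refine h2.trans ?_
  have h3 := log_sq_le q (by omega)
  have e : (b : ℝ) ^ t = (b : ℝ) ^ z * (b : ℝ) ^ (t - z) := by rw [← pow_add]; congr 1; omega
  rw [e]
  have h4 : (0 : ℝ) ≤ (b : ℝ) ^ z * (b : ℝ) ^ (t - z) := by positivity
  have h5 : mu b m I₁ I₂ * (K / q + K0 / q) + (Real.log q) ^ 2 / q ^ 2 ≤
      (mu b m I₁ I₂ * (K + K0) + 4) / q := by
    calc mu b m I₁ I₂ * (K / q + K0 / q) + (Real.log q) ^ 2 / q ^ 2 ≤
        mu b m I₁ I₂ * (K / q + K0 / q) + 4 / q := by linarith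
      _ = _ := by field_simp
  calc (mu b m I₁ I₂ * (b : ℝ) ^ z * (K / q + K0 / q) + (b : ℝ) ^ z * ((Real.log q) ^ 2 / q ^ 2)) *
        (b : ℝ) ^ (t - z) = (mu b m I₁ I₂ * (K / q + K0 / q) + (Real.log q) ^ 2 / q ^ 2) *
        ((b : ℝ) ^ z * (b : ℝ) ^ (t - z)) := by ring
    _ ≤ _ := mul_le_mul_of_nonneg_right h5 h4

end Pool.Agent.J6H29.PL
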