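import Mathlib
import Pool.Agent.J6H29.PL.Mean

/-!
# The characteristic functional of the set of exponents
-/

set_option autoImplicit false

namespace Pool.Agent.J6H29.PL

open Finset Filter Topology
open Pool.Agent.H305R2 (roughPart)
open Pool.Agent.N176.OW (cell kap S_FM)
open Pool.Agent.N176.SH (sh Ok S_E4 S_RB)

/-- the random product -/
noncomputable def F (θ : ℕ → ℂ) (c : ℕ → ℤ) (b t : ℕ) (U : Finset ℕ) (n : ℕ) : ℂ :=
  ∏ p ∈ U, (1 - (1 - θ p) * (X c b t p n : ℂ))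

/-- the contribution of a pair of exponents -/
noncomputable def pr (b : ℕ) (dg : ℝ) (θ : ℕ → ℂ) (p q : ℕ) : ℝ :=
  ‖1 - θ p‖ * ‖1 - θ q‖ * (wt p * wt q + dg * (wt p * ((b : ℝ) ^ (q - p))⁻¹))

lemma pr_nonneg (b : ℕ) {dg : ℝ} (hdg : 0 ≤ dg) (θ : ℕ → ℂ) (p q : ℕ) : 0 ≤ pr b dg θ p q := by
  unfold pr
  have := wt_nonneg p
  have := wt_nonneg q
  positivity

/-- the sum over the pairs of exponents with a bounded ratio -/
noncomputable def D (b K : ℕ) (dg : ℝ) (θ : ℕ → ℂ) (T : Finset ℕ) : ℝ :=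
  ∑ q ∈ T, ∑ p ∈ T.filter (fun p => q / K < p ∧ p < q), pr b dg θ p q

/-- the weighted sum of the reciprocals -/
noncomputable def R (θ : ℕ → ℂ) (T : Finset ℕ) : ℝ := ∑ q ∈ T, ‖1 - θ q‖ / (q : ℝ)

lemma norm_prod_le_one {ι : Type*} (U : Finset ι) (a : ι → ℂ) (h : ∀ p ∈ U, ‖a p‖ ≤ 1) :
    ‖∏ p ∈ U, a p‖ ≤ 1 := by
  rw [norm_prod]
  exact prod_le_one (fun _ _ => norm_nonneg _) h

lemma norm_prod_sub_prod {ι : Type*} [DecidableEq ι] (U : Finset ι) (a e : ι → ℂ) (ha : ∀ p ∈ U, ‖a p‖ ≤ 1)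
    (he : ∀ p ∈ U, ‖e p‖ ≤ 1) : ‖∏ p ∈ U, a p - ∏ p ∈ U, e p‖ ≤ ∑ p ∈ U, ‖a p - e p‖ := by
  induction U using Finset.induction_on with
  | empty => simp
  | insert q U hq ih =>
    rw [prod_insert hq, prod_insert hq, sum_insert hq]
    have h1 : a q * ∏ p ∈ U, a p - e q * ∏ p ∈ U, e p =
        (a q - e q) * ∏ p ∈ U, a p + e q * (∏ p ∈ U, a p - ∏ p ∈ U, e p) := by ring
    rw [h1]
    have h2 := ih (fun p hp => ha p (mem_insert_of_mem hp)) (fun p hp => he p (mem_insert_of_mem hp))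
    have h3 := norm_prod_le_one U a (fun p hp => ha p (mem_insert_of_mem hp))
    have h4 := he q (mem_insert_self _ _)
    refine (norm_add_le _ _).trans ?_
    rw [norm_mul, norm_mul]
    have h5 := norm_nonneg (a q - e q)
    have h6 := norm_nonneg (∏ p ∈ U, a p - ∏ p ∈ U, e p)
    have h7 := norm_nonneg (e q)
    nlinarith

lemma norm_prod_sub_sub {ι : Type*} [DecidableEq ι] {U V : Finset ι} (hVU : V ⊆ U) (a : ι → ℂ)
    (ha : ∀ p ∈ U, ‖a p‖ ≤ 1) :
    ‖∏ p ∈ U, a p - ∏ p ∈ V, a p‖ ≤ ∑ p ∈ U \ V, ‖1 - a p‖ := by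
  have h1 := norm_prod_sub_prod (U \ V) a (fun _ => 1) (fun p hp => ha p (mem_sdiff.1 hp).1)
    (fun p _ => by simp)
  rw [prod_const_one] at h1
  rw [← prod_sdiff hVU]
  have h2 : (∏ p ∈ U \ V, a p) * ∏ p ∈ V, a p - ∏ p ∈ V, a p = (∏ p ∈ U \ V, a p - 1) * ∏ p ∈ V, a p := by ring
  rw [h2, norm_mul]
  have h3 := norm_prod_le_one V a fun p hp => ha p (hVU hp)
  have h4 : ∑ p ∈ U \ V, ‖a p - 1‖ = ∑ p ∈ U \ V, ‖1 - a p‖ := sum_congr rfl fun p _ => norm_sub_rev _ _
  rw [h4] at h1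
  have h5 := norm_nonneg (∏ p ∈ U \ V, a p - 1)
  nlinarith

lemma norm_factor {θ : ℕ → ℂ} (hθ : ∀ p, ‖θ p‖ ≤ 1) (c : ℕ → ℤ) (b t n p : ℕ) :
    ‖1 - (1 - θ p) * (X c b t p n : ℂ)‖ ≤ 1 := by
  unfold X
  split_ifs
  · simpa using hθ p
  · simp

variable {b m I₁ I₂ : ℕ}

/-- one step -/
theorem step (h4 : S_E4) (hRB : S_RB) (hFM : S_FM) (hW : Win b m I₁ I₂) {A : ℕ} {c : ℕ → ℤ}
    (hOk : Ok b A c) {dg : ℝ} (hdg : DG b A c dg) : ∃ K : ℕ, 2 ≤ K ∧ ∃ C : ℝ, 0 < C ∧ ∃ P : ℕ, ∀ q ≥ P,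
    ∀ T : Finset ℕ, (∀ p ∈ T, P ≤ p ∧ p < q) → ∀ t ≥ 2 * q, ∀ θ : ℕ → ℂ, (∀ p, ‖θ p‖ ≤ 1) →
    ‖Ec b m I₁ I₂ t (F θ c b t (insert q T)) -
      (1 - (kap b * wt q : ℝ) * (1 - θ q)) * Ec b m I₁ I₂ t (F θ c b t T)‖ ≤
      C * (∑ p ∈ T.filter (fun p => q / K < p ∧ p < q), pr b dg θ p q + ‖1 - θ q‖ / (q : ℝ)) := by
  classical
  have hb := hW.hb
  have hk := kap_pos hb
  have hdg0 := hdg.nonneg
  obtain ⟨C1, hC1, P1, h1⟩ := one_bound h4 hRB hW hOk
  obtain ⟨C2, hC2, P2, h2⟩ := two_bound h4 hRB hW hOk hdg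
  obtain ⟨K, hK, C3, hC3, P3, h3⟩ := mean_bound hFM hW hOk
  refine ⟨K, hK, C2 + kap b * C1 + C3, by positivity, P1 + P2 + P3, fun q hq T hT t ht θ hθ => ?_⟩
  have hqT : q ∉ T := fun h => absurd (hT q h).2 (lt_irrefl _)
  have hwq := wt_nonneg q
  set η : ℕ → ℝ := fun p => ‖1 - θ p‖ with hηd
  have hη : ∀ p, 0 ≤ η p := fun p => norm_nonneg _
  set z := q / K with hz
  set V := T.filter (fun p => p ≤ z) with hV
  have hsd : T \ V = T.filter (fun p => z < p ∧ p < q) := by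
    ext p
    rw [hV, Finset.mem_sdiff, mem_filter, mem_filter]
    constructor
    · rintro ⟨h5, h6⟩
      exact ⟨h5, by
        by_contra h7
        apply h6
        refine ⟨h5, ?_⟩
        have := (hT p h5).2
        omega⟩
    · rintro ⟨h5, h6⟩
      exact ⟨h5, fun h7 => by omega⟩
  set S : ℝ := ∑ p ∈ T.filter (fun p => z < p ∧ p < q),
    η p * (wt p * wt q + dg * (wt p * ((b : ℝ) ^ (q - p))⁻¹)) with hS
  -- the difference of the products
  have hFF : ∀ n, ‖F θ c b t T n - F θ c b t V n‖ ≤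
      ∑ p ∈ T.filter (fun p => z < p ∧ p < q), η p * X c b t p n := by
    intro n
    unfold F
    refine (norm_prod_sub_sub (filter_subset _ _) _ fun p _ => norm_factor hθ c b t n p).trans ?_
    rw [hsd]
    refine sum_le_sum fun p hp => ?_
    have h5 : (1 : ℂ) - (1 - (1 - θ p) * (X c b t p n : ℂ)) = (1 - θ p) * (X c b t p n : ℂ) := by ring
    rw [h5, norm_mul, Complex.norm_real, Real.norm_eq_abs, abs_of_nonneg (X_nonneg _ _ _ _ _)]
  -- first error
  have herr1 : ‖Ec b m I₁ I₂ t (fun n => F θ c b t T n * (X c b t q n : ℂ)) -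
      Ec b m I₁ I₂ t (fun n => F θ c b t V n * (X c b t q n : ℂ))‖ ≤ C2 * S := by
    rw [← Ec_sub]
    refine (norm_Ec_le _ (fun n => ∑ p ∈ T.filter (fun p => z < p ∧ p < q), η p * (X c b t p n * X c b t q n))
      fun n _ => ?_).trans ?_
    · have h5 : F θ c b t T n * (X c b t q n : ℂ) - F θ c b t V n * (X c b t q n : ℂ) =
          (F θ c b t T n - F θ c b t V n) * (X c b t q n : ℂ) := by ring
      rw [h5, norm_mul, Complex.norm_real, Real.norm_eq_abs, abs_of_nonneg (X_nonneg _ _ _ _ _)]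
      refine (mul_le_mul_of_nonneg_right (hFF n) (X_nonneg _ _ _ _ _)).trans (le_of_eq ?_)
      rw [sum_mul]
      exact sum_congr rfl fun p _ => by ring
    · rw [Ev_sum]
      have h5 : ∀ p ∈ T.filter (fun p => z < p ∧ p < q),
          Ev b m I₁ I₂ t (fun n => η p * (X c b t p n * X c b t q n)) ≤
            C2 * (η p * (wt p * wt q + dg * (wt p * ((b : ℝ) ^ (q - p))⁻¹))) := by
        intro p hp
        have hp' := hT p (mem_filter.1 hp).1
        rw [Ev_mul]
        refine (mul_le_mul_of_nonneg_left (h2 p (by omega) q hp'.2 t ht) (hη p)).trans (le_of_eq ?_)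
        ring
      refine (sum_le_sum h5).trans (le_of_eq ?_)
      rw [hS, ← mul_sum]
  -- second error
  have herr2 : ‖Ec b m I₁ I₂ t (fun n => F θ c b t V n * (X c b t q n : ℂ)) -
      (kap b * wt q : ℝ) * Ec b m I₁ I₂ t (F θ c b t V)‖ ≤ C3 / q := by
    set f : ℕ → ℂ := fun v => ∏ p ∈ V, (1 - (1 - θ p) *
      (((if (roughPart p (sh c p (v / b ^ (z - p)))).Prime then (1 : ℝ) else 0) : ℝ) : ℂ)) with hf
    have hfV : ∀ n, F θ c b t V n = f (n / b ^ (t - z)) := by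
      intro n
      unfold F
      simp only [hf]
      refine prod_congr rfl fun p hp => ?_
      have hpz : p ≤ z := (mem_filter.1 hp).2
      have hzq : z ≤ q := Nat.div_le_self q K
      unfold X
      have h5 : n / b ^ (t - p) = n / b ^ (t - z) / b ^ (z - p) := by
        rw [Nat.div_div_eq_div_mul, ← pow_add]
        congr 2
        omega
      rw [h5]
    have hf1 : ∀ v, ‖f v‖ ≤ 1 := by
      intro v
      refine norm_prod_le_one _ _ fun p _ => ?_
      split_ifs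
      · simpa using hθ p
      · simp
    have h5 := h3 q (by omega) t (by omega) f hf1
    have e1 : (fun n => F θ c b t V n * (X c b t q n : ℂ)) =
        fun n => f (n / b ^ (t - z)) * (X c b t q n : ℂ) := by
      funext n
      rw [hfV]
    have e2 : F θ c b t V = fun n => f (n / b ^ (t - z)) := funext hfV
    rw [e1, e2]
    exact h5
  -- third error
  have herr3 : ‖Ec b m I₁ I₂ t (F θ c b t V) - Ec b m I₁ I₂ t (F θ c b t T)‖ ≤
      C1 * ∑ p ∈ T.filter (fun p => z < p ∧ p < q), η p * wt p := by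
    rw [← Ec_sub]
    refine (norm_Ec_le _ (fun n => ∑ p ∈ T.filter (fun p => z < p ∧ p < q), η p * X c b t p n)
      fun n _ => ?_).trans ?_
    · rw [norm_sub_rev]
      exact hFF n
    · rw [Ev_sum]
      have h5 : ∀ p ∈ T.filter (fun p => z < p ∧ p < q),
          Ev b m I₁ I₂ t (fun n => η p * X c b t p n) ≤ C1 * (η p * wt p) := by
        intro p hp
        have hp' := hT p (mem_filter.1 hp).1
        rw [Ev_mul]
        refine (mul_le_mul_of_nonneg_left (h1 p (by omega) t (by omega)) (hη p)).trans (le_of_eq ?_)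
        ring
      refine (sum_le_sum h5).trans (le_of_eq ?_)
      rw [← mul_sum]
  -- assembly
  have hins : Ec b m I₁ I₂ t (F θ c b t (insert q T)) = Ec b m I₁ I₂ t (F θ c b t T) -
      (1 - θ q) * Ec b m I₁ I₂ t (fun n => F θ c b t T n * (X c b t q n : ℂ)) := by
    rw [← Ec_mul, ← Ec_sub]
    congr 1
    funext n
    unfold F
    rw [prod_insert hqT]
    ring
  have hdec : Ec b m I₁ I₂ t (F θ c b t (insert q T)) -
      (1 - (kap b * wt q : ℝ) * (1 - θ q)) * Ec b m I₁ I₂ t (F θ c b t T) =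
      -(1 - θ q) * ((Ec b m I₁ I₂ t (fun n => F θ c b t T n * (X c b t q n : ℂ)) -
          Ec b m I₁ I₂ t (fun n => F θ c b t V n * (X c b t q n : ℂ))) +
        (Ec b m I₁ I₂ t (fun n => F θ c b t V n * (X c b t q n : ℂ)) -
          (kap b * wt q : ℝ) * Ec b m I₁ I₂ t (F θ c b t V)) +
        (kap b * wt q : ℝ) * (Ec b m I₁ I₂ t (F θ c b t V) - Ec b m I₁ I₂ t (F θ c b t T))) := by
    rw [hins]
    ring
  rw [hdec, norm_mul, norm_neg]
  have hq0 : (0 : ℝ) ≤ 1 / (q : ℝ) := by positivity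
  have hkw : 0 ≤ kap b * wt q := mul_nonneg hk.le hwq
  have hS0 : (∑ p ∈ T.filter (fun p => z < p ∧ p < q), η p * wt p) * wt q ≤ S := by
    rw [hS, sum_mul]
    refine sum_le_sum fun p _ => ?_
    have h5 := wt_nonneg p
    have h6 := hη p
    have h7 : 0 ≤ η p * (dg * (wt p * ((b : ℝ) ^ (q - p))⁻¹)) := by positivity
    nlinarith
  have hSn : 0 ≤ S := by
    rw [hS]
    refine sum_nonneg fun p _ => ?_
    have := wt_nonneg p
    have := hη p
    positivity
  have hnorm3 : ‖((kap b * wt q : ℝ) : ℂ) * (Ec b m I₁ I₂ t (F θ c b t V) - Ec b m I₁ I₂ t (F θ c b t T))‖ ≤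
      kap b * C1 * S := by
    rw [norm_mul, Complex.norm_real, Real.norm_eq_abs, abs_of_nonneg hkw]
    calc kap b * wt q * ‖Ec b m I₁ I₂ t (F θ c b t V) - Ec b m I₁ I₂ t (F θ c b t T)‖ ≤
        kap b * wt q * (C1 * ∑ p ∈ T.filter (fun p => z < p ∧ p < q), η p * wt p) :=
          mul_le_mul_of_nonneg_left herr3 hkw
      _ = kap b * C1 * ((∑ p ∈ T.filter (fun p => z < p ∧ p < q), η p * wt p) * wt q) := by ring
      _ ≤ _ := by gcongr
  have hsum : ‖(Ec b m I₁ I₂ t (fun n => F θ c b t T n * (X c b t q n : ℂ)) -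
          Ec b m I₁ I₂ t (fun n => F θ c b t V n * (X c b t q n : ℂ))) +
        (Ec b m I₁ I₂ t (fun n => F θ c b t V n * (X c b t q n : ℂ)) -
          (kap b * wt q : ℝ) * Ec b m I₁ I₂ t (F θ c b t V)) +
        (kap b * wt q : ℝ) * (Ec b m I₁ I₂ t (F θ c b t V) - Ec b m I₁ I₂ t (F θ c b t T))‖ ≤
      (C2 + kap b * C1) * S + C3 / q := by
    refine (norm_add₃_le).trans ?_
    linarith
  have hSpr : ∑ p ∈ T.filter (fun p => z < p ∧ p < q), pr b dg θ p q = η q * S := by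
    rw [hS, mul_sum]
    refine sum_congr rfl fun p _ => ?_
    unfold pr
    simp only [hηd]
    ring
  rw [hSpr]
  have hηq := hη q
  calc ‖1 - θ q‖ * _ ≤ η q * ((C2 + kap b * C1) * S + C3 / q) :=
        mul_le_mul le_rfl hsum (norm_nonneg _) hηq
    _ = (C2 + kap b * C1) * (η q * S) + C3 * (η q / (q : ℝ)) := by ring
    _ ≤ _ := by
        have k1 : 0 ≤ C3 * (η q * S) := by positivity
        have k2 : 0 ≤ (C2 + kap b * C1) * (η q / (q : ℝ)) := by positivity
        nlinarith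

/-- **The characteristic functional.** -/
theorem gen (h4 : S_E4) (hRB : S_RB) (hFM : S_FM) (hW : Win b m I₁ I₂) {A : ℕ} {c : ℕ → ℤ}
    (hOk : Ok b A c) {dg : ℝ} (hdg : DG b A c dg) : ∃ K : ℕ, 2 ≤ K ∧ ∃ C : ℝ, 0 < C ∧ ∃ P : ℕ,
    ∀ T : Finset ℕ, (∀ p ∈ T, P ≤ p) → ∀ t : ℕ, m ≤ t → (∀ p ∈ T, 2 * p ≤ t) → ∀ θ : ℕ → ℂ,
    (∀ p, ‖θ p‖ ≤ 1) → ‖Ec b m I₁ I₂ t (F θ c b t T) -
      (mu b m I₁ I₂ : ℂ) * Complex.exp (-((kap b : ℝ) * ∑ p ∈ T, (1 - θ p) * (wt p : ℝ)))‖ ≤
      C * (D b K dg θ T + R θ T) := by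
  classical
  have hb := hW.hb
  have hk := kap_pos hb
  have hmu := mu_nonneg hW
  have hdg0 := hdg.nonneg
  obtain ⟨K, hK, C, hC, P, hstep⟩ := step h4 hRB hFM hW hOk hdg
  -- the weights are small
  have hw0 : Tendsto (fun q : ℕ => wt q) atTop (𝓝 0) := by
    have h := (Real.isLittleO_log_id_atTop.tendsto_div_nhds_zero).comp tendsto_natCast_atTop_atTop
    exact h
  obtain ⟨P1, hP1⟩ := eventually_atTop.1 (hw0.eventually_lt_const (show (0 : ℝ) < 1 / (2 * kap b) by positivity))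
  refine ⟨K, hK, C + 8 * mu b m I₁ I₂ * kap b ^ 2 + 1, by positivity, P + P1 + 1,
    fun T hT t hmt ht θ hθ => ?_⟩
  have hη0 : ∀ q, 0 ≤ ‖1 - θ q‖ := fun q => norm_nonneg _
  have hη2 : ∀ q, ‖1 - θ q‖ ≤ 2 := by
    intro q
    refine (norm_sub_le _ _).trans ?_
    rw [norm_one]
    have := hθ q
    linarith
  set a : ℕ → ℂ := fun q => 1 - (kap b * wt q : ℝ) * (1 - θ q) with ha
  have hkw : ∀ q, P1 ≤ q → kap b * wt q ≤ 1 / 2 := by
    intro q hq
    have h1 := (hP1 q hq).le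
    calc kap b * wt q ≤ kap b * (1 / (2 * kap b)) := mul_le_mul_of_nonneg_left h1 hk.le
      _ = 1 / 2 := by field_simp
  have hkw0 : ∀ q, 0 ≤ kap b * wt q := fun q => mul_nonneg hk.le (wt_nonneg q)
  have han : ∀ q, P1 ≤ q → ‖a q‖ ≤ 1 := by
    intro q hq
    have h1 := hkw q hq
    have h2 := hkw0 q
    have e : a q = ((1 - kap b * wt q : ℝ) : ℂ) + ((kap b * wt q : ℝ) : ℂ) * θ q := by
      simp only [ha]; push_cast; ring
    rw [e]
    refine (norm_add_le _ _).trans ?_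
    rw [norm_mul, Complex.norm_real, Complex.norm_real, Real.norm_eq_abs, Real.norm_eq_abs,
      abs_of_nonneg (show 0 ≤ 1 - kap b * wt q by linarith), abs_of_nonneg h2]
    have := mul_le_mul_of_nonneg_left (hθ q) h2
    linarith
  -- the product
  have hprod : ∀ U : Finset ℕ, U ⊆ T → ‖Ec b m I₁ I₂ t (F θ c b t U) - (mu b m I₁ I₂ : ℂ) * ∏ q ∈ U, a q‖ ≤
      C * (D b K dg θ U + R θ U) := by
    intro U
    induction U using Finset.induction_on_max with
    | empty =>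
      intro _
      have e : F θ c b t ∅ = fun _ => 1 := by funext n; unfold F; rw [prod_empty]
      rw [e, Ec_one hW hmt, prod_empty, mul_one, sub_self, norm_zero]
      unfold D R
      simp
    | insert q U hmax ih =>
      intro hsub
      have hqU : q ∉ U := fun h => absurd (hmax q h) (lt_irrefl _)
      have hqT : q ∈ T := hsub (mem_insert_self _ _)
      have hU : U ⊆ T := fun p hp => hsub (mem_insert_of_mem hp)
      have h1 := ih hU
      have hPq : P + P1 + 1 ≤ q := hT q hqT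
      have h2 := hstep q (by omega) U (fun p hp => ⟨by have := hT p (hU hp); omega, hmax p hp⟩) t (ht q hqT)
        θ hθ
      have hD : D b K dg θ (insert q U) = D b K dg θ U + ∑ p ∈ U.filter (fun p => q / K < p ∧ p < q),
          pr b dg θ p q := by
        unfold D
        rw [sum_insert hqU, add_comm]
        congr 1
        · refine sum_congr rfl fun r hr => ?_
          congr 1
          ext p
          rw [mem_filter, mem_filter, mem_insert]
          constructor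
          · rintro ⟨h3 | h3, h5⟩
            · have := hmax r hr
              omega
            · exact ⟨h3, h5⟩
          · rintro ⟨h3, h5⟩
            exact ⟨Or.inr h3, h5⟩
        · congr 1
          ext p
          rw [mem_filter, mem_filter, mem_insert]
          constructor
          · rintro ⟨h3 | h3, h5⟩
            · omega
            · exact ⟨h3, h5⟩
          · rintro ⟨h3, h5⟩
            exact ⟨Or.inr h3, h5⟩
      have hR : R θ (insert q U) = R θ U + ‖1 - θ q‖ / (q : ℝ) := by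
        unfold R
        rw [sum_insert hqU, add_comm]
      have e : Ec b m I₁ I₂ t (F θ c b t (insert q U)) - (mu b m I₁ I₂ : ℂ) * ∏ r ∈ insert q U, a r =
          (Ec b m I₁ I₂ t (F θ c b t (insert q U)) -
            (1 - (kap b * wt q : ℝ) * (1 - θ q)) * Ec b m I₁ I₂ t (F θ c b t U)) +
          a q * (Ec b m I₁ I₂ t (F θ c b t U) - (mu b m I₁ I₂ : ℂ) * ∏ r ∈ U, a r) := by
        rw [prod_insert hqU]
        simp only [ha]
        ring
      rw [e, hD, hR]
      refine (norm_add_le _ _).trans ?_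
      rw [norm_mul]
      have h3 := han q (by omega)
      have h5 := norm_nonneg (Ec b m I₁ I₂ t (F θ c b t U) - (mu b m I₁ I₂ : ℂ) * ∏ r ∈ U, a r)
      nlinarith
  -- the exponentials
  set x : ℕ → ℂ := fun q => -((kap b * wt q : ℝ) * (1 - θ q)) with hx
  have hxn : ∀ q ∈ T, ‖x q‖ = kap b * wt q * ‖1 - θ q‖ := by
    intro q hq
    simp only [hx]
    rw [norm_neg, norm_mul, Complex.norm_real, Real.norm_eq_abs, abs_of_nonneg (hkw0 q)]
  have hxe : ∀ q ∈ T, ‖Complex.exp (x q)‖ ≤ 1 := by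
    intro q _
    rw [Complex.norm_exp, Real.exp_le_one_iff]
    simp only [hx]
    rw [Complex.neg_re, Complex.re_ofReal_mul, Complex.sub_re, Complex.one_re, neg_nonpos]
    have h1 : (θ q).re ≤ 1 := (Complex.re_le_norm _).trans (hθ q)
    exact mul_nonneg (hkw0 q) (by linarith)
  have hexp : ‖∏ q ∈ T, a q - ∏ q ∈ T, Complex.exp (x q)‖ ≤ 8 * kap b ^ 2 * R θ T := by
    refine (norm_prod_sub_prod T _ _ (fun q hq => han q (by have := hT q hq; omega)) hxe).trans ?_
    unfold R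
    rw [mul_sum]
    refine sum_le_sum fun q hq => ?_
    have hq1 : 1 ≤ q := by have := hT q hq; omega
    have h1 := hkw q (by have := hT q hq; omega)
    have h2 := hkw0 q
    have h3 := hxn q hq
    have hq2 := hη2 q
    have hq0 := hη0 q
    have h5 : ‖x q‖ ≤ 1 := by rw [h3]; nlinarith
    have h6 := Complex.norm_exp_sub_one_sub_id_le h5
    have e : a q - Complex.exp (x q) = -(Complex.exp (x q) - 1 - x q) := by
      simp only [ha, hx]; ring
    rw [e, norm_neg]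
    refine h6.trans ?_
    have h8 := wt_sq_le q hq1
    calc ‖x q‖ ^ 2 = (kap b * wt q * ‖1 - θ q‖) ^ 2 := by rw [h3]
      _ = kap b ^ 2 * (‖1 - θ q‖ * ‖1 - θ q‖) * wt q ^ 2 := by ring
      _ ≤ kap b ^ 2 * (‖1 - θ q‖ * 2) * (4 / q) := by gcongr
      _ = 8 * kap b ^ 2 * (‖1 - θ q‖ / (q : ℝ)) := by ring
  have hfin : ∏ q ∈ T, Complex.exp (x q) =
      Complex.exp (-((kap b : ℝ) * ∑ p ∈ T, (1 - θ p) * (wt p : ℝ))) := by
    rw [← Complex.exp_sum]
    congr 1
    simp only [hx]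
    rw [sum_neg_distrib, mul_sum]
    congr 1
    refine sum_congr rfl fun p _ => ?_
    push_cast
    ring
  rw [← hfin]
  have e : Ec b m I₁ I₂ t (F θ c b t T) - (mu b m I₁ I₂ : ℂ) * ∏ q ∈ T, Complex.exp (x q) =
      (Ec b m I₁ I₂ t (F θ c b t T) - (mu b m I₁ I₂ : ℂ) * ∏ q ∈ T, a q) +
      (mu b m I₁ I₂ : ℂ) * (∏ q ∈ T, a q - ∏ q ∈ T, Complex.exp (x q)) := by ring
  rw [e]
  refine (norm_add_le _ _).trans ?_
  rw [norm_mul, Complex.norm_real, Real.norm_eq_abs, abs_of_nonneg hmu]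
  have h1 := hprod T (Finset.Subset.refl _)
  have h2 := mul_le_mul_of_nonneg_left hexp hmu
  have hD0 : 0 ≤ D b K dg θ T := by
    unfold D
    exact sum_nonneg fun q _ => sum_nonneg fun p _ => pr_nonneg b hdg0 θ p q
  have hR0 : 0 ≤ R θ T := by
    unfold R
    exact sum_nonneg fun q _ => by positivity
  have k1 : 0 ≤ (8 * mu b m I₁ I₂ * kap b ^ 2 + 1) * D b K dg θ T := by positivity
  nlinarith

end Pool.Agent.J6H29.PL
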