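import Mathlib
import Pool.Agent.N176.GP.Meas
import Pool.Agent.N176.SH.Pairs
import Pool.Agent.N176.SH.All
import Pool.Agent.N372.SH.OKP
import Pool.Agent.J6H29.PL.Gen

/-!
# The characteristic functional for real amplitudes
-/

set_option autoImplicit false

namespace Pool.Agent.J6H29.PL

open Finset Filter Topology MeasureTheory
open Pool.Agent.H305R2 (roughPart)
open Pool.Agent.N176.GP (NB NB_spec NB_div)
open Pool.Agent.N176.OW (kap S_FM)
open Pool.Agent.N176.SH (sh Ok S_E4 S_RB cc WW WW_eq)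

/-- the first digits are constant on the cells -/
lemma NB_eq {b : ℕ} (hb : 2 ≤ b) {t k : ℕ} {x : ℝ} (h1 : (k : ℝ) / (b : ℝ) ^ t < x)
    (h2 : x ≤ ((k : ℝ) + 1) / (b : ℝ) ^ t) : NB b x t = k := by
  have hb0 : (0 : ℝ) < (b : ℝ) ^ t := by positivity
  have hx : 0 < x := lt_of_le_of_lt (by positivity) h1
  obtain ⟨h3, h4⟩ := NB_spec hb hx t
  rw [div_lt_iff₀ hb0] at h1
  rw [le_div_iff₀ hb0] at h2
  have h5 : (k : ℝ) < NB b x t + 1 := h1.trans_le h4
  have h6 : (NB b x t : ℝ) < k + 1 := h3.trans_le h2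
  have h7 : k < NB b x t + 1 := by exact_mod_cast h5
  have h8 : NB b x t < k + 1 := by exact_mod_cast h6
  omega

lemma NB_meas (b t : ℕ) : Measurable (fun x : ℝ => NB b x t) := by
  unfold NB
  have h1 : Measurable (fun x : ℝ => ⌈x * (b : ℝ) ^ t⌉₊) := (Nat.measurable_ceil).comp (measurable_id.mul_const _)
  exact (measurable_from_nat (f := fun n : ℕ => n - 1)).comp h1

variable {b m I₁ I₂ : ℕ}

/-- Lebesgue measure on a window of amplitudes -/
theorem integral_NB (hW : Win b m I₁ I₂) {t : ℕ} (hmt : m ≤ t) (g : ℕ → ℂ) :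
    ∫ x in ((I₁ : ℝ) / (b : ℝ) ^ m)..((I₂ : ℝ) / (b : ℝ) ^ m), g (NB b x t) = Ec b m I₁ I₂ t g := by
  have hb := hW.hb
  have hb0 : (0 : ℝ) < b := by positivity
  set a : ℕ → ℝ := fun k => (k : ℝ) / (b : ℝ) ^ t with ha
  have hle : ∀ k, a k ≤ a (k + 1) := by
    intro k
    simp only [ha]
    gcongr
    omega
  have hEq : ∀ k, Set.EqOn (fun x => g (NB b x t)) (fun _ => g k) (Set.Ioc (a k) (a (k + 1))) := by
    intro k x hx
    have h2 := hx.2
    simp only [ha] at h2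
    push_cast at h2
    show g (NB b x t) = g k
    rw [NB_eq hb hx.1 h2]
  have hint : ∀ k, ∫ x in a k..a (k + 1), g (NB b x t) = ((1 / (b : ℝ) ^ t : ℝ) : ℂ) * g k := by
    intro k
    rw [intervalIntegral.integral_of_le (hle k), setIntegral_congr_fun measurableSet_Ioc (hEq k),
      setIntegral_const, Real.volume_real_Ioc_of_le (hle k)]
    have e : a (k + 1) - a k = 1 / (b : ℝ) ^ t := by
      simp only [ha]
      push_cast
      ring
    rw [e, Complex.real_smul]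
  have hii : ∀ k, IntervalIntegrable (fun x => g (NB b x t)) volume (a k) (a (k + 1)) := by
    intro k
    rw [intervalIntegrable_iff_integrableOn_Ioc_of_le (hle k)]
    exact (integrableOn_congr_fun (hEq k) measurableSet_Ioc).2 (integrableOn_const (by simp))
  have hsum := intervalIntegral.sum_integral_adjacent_intervals_Ico (μ := volume)
    (f := fun x => g (NB b x t)) (a := a)
    (Nat.mul_le_mul_right (b ^ (t - m)) hW.h12) fun k _ => hii k
  have hend : ∀ I : ℕ, a (I * b ^ (t - m)) = (I : ℝ) / (b : ℝ) ^ m := by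
    intro I
    simp only [ha]
    have e : (b : ℝ) ^ t = (b : ℝ) ^ m * (b : ℝ) ^ (t - m) := by rw [← pow_add]; congr 1; omega
    rw [e]
    push_cast
    field_simp
  rw [hend, hend] at hsum
  rw [← hsum]
  unfold Ec W
  rw [sum_div]
  refine sum_congr rfl fun k _ => ?_
  rw [hint k]
  push_cast
  ring

open Classical in
/-- the random product for real amplitudes -/
noncomputable def Z (a : ℕ) (b : ℤ) (θ : ℕ → ℂ) (T : Finset ℕ) (x : ℝ) : ℂ :=
  ∏ p ∈ T, if (WW a b x p).Prime then θ p else 1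

lemma Z_eq {a : ℕ} (ha : 2 ≤ a) {b : ℤ} (hb : 1 ≤ |b|) {x : ℝ} (hx : 0 < x) {T : Finset ℕ}
    (hT : ∀ p ∈ T, Odd p) {t : ℕ} (ht : ∀ p ∈ T, p ≤ t) (θ : ℕ → ℂ) :
    Z a b θ T x = F θ (cc a b) a t T (NB a x t) := by
  classical
  unfold Z F
  refine prod_congr rfl fun p hp => ?_
  unfold X
  rw [NB_div ha hx (ht p hp), WW_eq ha hb hx (Or.inl (hT p hp))]
  split_ifs <;> simp

lemma norm_Z_le {a : ℕ} {b : ℤ} {θ : ℕ → ℂ} (hθ : ∀ p, ‖θ p‖ ≤ 1) (T : Finset ℕ) (x : ℝ) :
    ‖Z a b θ T x‖ ≤ 1 := by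
  classical
  unfold Z
  refine norm_prod_le_one _ _ fun p _ => ?_
  split_ifs
  · exact hθ p
  · simp

lemma WW_meas (a : ℕ) (b : ℤ) (p : ℕ) : Measurable (fun x : ℝ => WW a b x p) := by
  unfold WW
  have h1 : Measurable (fun x : ℝ => ⌈x * (a : ℝ) ^ p⌉) := Int.measurable_ceil.comp (measurable_id.mul_const _)
  exact (measurable_from_top (f := fun n : ℤ => roughPart p (n - ⌈(b : ℝ) ^ p / ((a : ℝ) - b)⌉).toNat)).comp h1

lemma Z_meas (a : ℕ) (b : ℤ) (θ : ℕ → ℂ) (T : Finset ℕ) : Measurable (Z a b θ T) := by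
  classical
  unfold Z
  refine Finset.measurable_prod _ fun p _ => ?_
  exact (measurable_from_nat (f := fun n : ℕ => if n.Prime then θ p else 1)).comp (WW_meas a b p)

/-- the shifts without degenerate pairs -/
lemma DG_of {a : ℕ} {b : ℤ} (h1 : 2 ≤ |b|) (h2 : |b| < a) {A : ℕ} (hOk : Ok a A (cc a b)) :
    DG a A (cc a b) 0 := by
  refine Or.inr ⟨rfl, ?_⟩
  have hab : 0 < (a : ℝ) - b := by
    have h3 : b < (a : ℤ) := (abs_lt.1 h2).2
    have : (b : ℝ) < a := by exact_mod_cast h3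
    linarith
  -- the shifts are not constant
  have hB : (1 : ℝ) < |(b : ℝ)| := by
    have : (2 : ℝ) ≤ |(b : ℝ)| := by exact_mod_cast h1
    linarith
  obtain ⟨p, hp⟩ := pow_unbounded_of_one_lt (2 * ((a : ℝ) - b)) hB
  have hp' : 2 < |(b : ℝ)| ^ p / ((a : ℝ) - b) := by
    rw [lt_div_iff₀ hab]
    exact hp
  have hc : cc a b p ≠ 0 ∧ cc a b p ≠ 1 := by
    unfold cc
    by_cases hb : 0 < b
    · rw [if_pos hb]
      have hbr : (0 : ℝ) < b := by exact_mod_cast hb
      rw [abs_of_pos hbr] at hp'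
      have h5 := Int.le_ceil ((b : ℝ) ^ p / ((a : ℝ) - b))
      have h6 : (2 : ℝ) < (⌈(b : ℝ) ^ p / ((a : ℝ) - b)⌉ : ℝ) := hp'.trans_le h5
      have h7 : (2 : ℤ) < ⌈(b : ℝ) ^ p / ((a : ℝ) - b)⌉ := by exact_mod_cast h6
      constructor <;> omega
    · rw [if_neg hb]
      have h7 : (2 : ℤ) ≤ ⌊|(b : ℝ)| ^ p / ((a : ℝ) - b)⌋ := by
        rw [Int.le_floor]
        push_cast
        exact hp'.le
      constructor <;> omega
  rcases hOk.deg with h | h | h
  · exact absurd (h p) hc.1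
  · exact absurd (h p) hc.2
  · exact h

end Pool.Agent.J6H29.PL
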