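import Mathlib

/-!
# From intervals to all absolutely continuous laws
-/

set_option autoImplicit false

namespace Pool.Agent.J6H29.PL

open Finset Filter Topology MeasureTheory

/-- bounded functions whose integrals over the adic intervals tend to zero -/
theorem adic_to_real {Y : ℕ → ℝ → ℂ} (hm : ∀ n, Measurable (Y n)) (hY : ∀ n x, ‖Y n x‖ ≤ 2) {b : ℕ}
    (hb : 2 ≤ b) (h : ∀ m i j : ℕ, 1 ≤ i → i ≤ j →
      Tendsto (fun n => ∫ x in ((i : ℝ) / (b : ℝ) ^ m)..((j : ℝ) / (b : ℝ) ^ m), Y n x) atTop (𝓝 0))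
    {u v : ℝ} (hu : 0 ≤ u) (huv : u ≤ v) :
    Tendsto (fun n => ∫ x in u..v, Y n x) atTop (𝓝 0) := by
  have hb1 : (1 : ℝ) < b := by exact_mod_cast hb
  have hint : ∀ n (s t : ℝ), IntervalIntegrable (Y n) volume s t := by
    intro n s t
    rw [intervalIntegrable_iff]
    exact Measure.integrableOn_of_bounded (M := 2) (by simp) (hm n).aestronglyMeasurable
      (Eventually.of_forall fun x => hY n x)
  have hbd : ∀ n (s t : ℝ), ‖∫ x in s..t, Y n x‖ ≤ 2 * |t - s| := fun n s t =>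
    intervalIntegral.norm_integral_le_of_norm_le_const fun x _ => hY n x
  rw [Metric.tendsto_atTop]
  intro ε hε
  obtain ⟨m, hm1⟩ := pow_unbounded_of_one_lt (12 / ε) hb1
  have hbm : (0 : ℝ) < (b : ℝ) ^ m := by positivity
  have hsm : 1 / (b : ℝ) ^ m < ε / 12 := by
    rw [div_lt_iff₀ hε] at hm1
    rw [div_lt_div_iff₀ hbm (by norm_num)]
    linarith
  set i := ⌊u * (b : ℝ) ^ m⌋₊ + 1 with hi
  set j := ⌊v * (b : ℝ) ^ m⌋₊ + 1 with hj
  have hij : i ≤ j := by
    have : ⌊u * (b : ℝ) ^ m⌋₊ ≤ ⌊v * (b : ℝ) ^ m⌋₊ := Nat.floor_le_floor (by gcongr)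
    omega
  have key : ∀ w : ℝ, 0 ≤ w → |((⌊w * (b : ℝ) ^ m⌋₊ + 1 : ℕ) : ℝ) / (b : ℝ) ^ m - w| ≤ 1 / (b : ℝ) ^ m := by
    intro w hw
    have h1 := Nat.floor_le (show 0 ≤ w * (b : ℝ) ^ m by positivity)
    have h2 := Nat.lt_floor_add_one (w * (b : ℝ) ^ m)
    have e : ((⌊w * (b : ℝ) ^ m⌋₊ + 1 : ℕ) : ℝ) / (b : ℝ) ^ m - w =
        (((⌊w * (b : ℝ) ^ m⌋₊ : ℝ) + 1) - w * (b : ℝ) ^ m) / (b : ℝ) ^ m := by
      push_cast
      field_simp
    rw [e, abs_of_nonneg (div_nonneg (by linarith) hbm.le)]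
    gcongr
    linarith
  obtain ⟨N, hN⟩ := Metric.tendsto_atTop.1 (h m i j (by omega) hij) (ε / 2) (by positivity)
  refine ⟨N, fun n hn => ?_⟩
  have h1 := hN n hn
  rw [dist_zero_right] at h1 ⊢
  have h2 := hbd n u ((i : ℝ) / (b : ℝ) ^ m)
  have h3 := hbd n ((j : ℝ) / (b : ℝ) ^ m) v
  have h4 := key u hu
  have h5 := key v (hu.trans huv)
  rw [← hi] at h4
  rw [← hj] at h5
  have e1 := intervalIntegral.integral_add_adjacent_intervals (hint n u ((i : ℝ) / (b : ℝ) ^ m))
    (hint n ((i : ℝ) / (b : ℝ) ^ m) ((j : ℝ) / (b : ℝ) ^ m))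
  have e2 := intervalIntegral.integral_add_adjacent_intervals (hint n u ((j : ℝ) / (b : ℝ) ^ m))
    (hint n ((j : ℝ) / (b : ℝ) ^ m) v)
  rw [← e2, ← e1]
  refine (norm_add₃_le).trans_lt ?_
  rw [abs_sub_comm] at h3
  nlinarith

/-- integrals against continuous functions -/
theorem cont_case {Y : ℕ → ℝ → ℂ} (hm : ∀ n, Measurable (Y n)) (hY : ∀ n x, ‖Y n x‖ ≤ 2)
    (h : ∀ u v : ℝ, 0 ≤ u → u ≤ v → Tendsto (fun n => ∫ x in u..v, Y n x) atTop (𝓝 0))
    {g : ℝ → ℝ} (hg : Continuous g) {N : ℝ} (hN : 0 < N) :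
    Tendsto (fun n => ∫ x in (0 : ℝ)..N, (g x : ℂ) * Y n x) atTop (𝓝 0) := by
  have hint : ∀ n (s t : ℝ), IntervalIntegrable (Y n) volume s t := by
    intro n s t
    rw [intervalIntegrable_iff]
    exact Measure.integrableOn_of_bounded (M := 2) (by simp) (hm n).aestronglyMeasurable
      (Eventually.of_forall fun x => hY n x)
  have hint2 : ∀ n (s t : ℝ), IntervalIntegrable (fun x => (g x : ℂ) * Y n x) volume s t := by
    intro n s t
    have h1 : IntervalIntegrable (fun x => (g x : ℂ)) volume s t :=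
      (Complex.continuous_ofReal.comp hg).intervalIntegrable s t
    rw [intervalIntegrable_iff] at h1 ⊢
    exact Integrable.mul_bdd (c := 2) h1 (hm n).aestronglyMeasurable (Eventually.of_forall fun x => hY n x)
  rw [Metric.tendsto_atTop]
  intro ε hε
  set e : ℝ := ε / (4 * N) with he
  have he0 : 0 < e := by positivity
  have huc := (isCompact_Icc (a := (0 : ℝ)) (b := N)).uniformContinuousOn_of_continuous hg.continuousOn
  rw [Metric.uniformContinuousOn_iff] at huc
  obtain ⟨δ, hδ, huc⟩ := huc e he0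
  obtain ⟨J0, hJ0⟩ := exists_nat_gt (N / δ)
  set J := J0 + 1 with hJ
  have hJr : (0 : ℝ) < J := by positivity
  have hstep : N / J < δ := by
    rw [div_lt_iff₀ hδ] at hJ0
    rw [div_lt_iff₀ hJr, hJ]
    push_cast
    nlinarith
  set a : ℕ → ℝ := fun i => i * (N / J) with ha
  have ha0 : ∀ i, 0 ≤ a i := fun i => by simp only [ha]; positivity
  have hd : ∀ i, a (i + 1) - a i = N / J := by
    intro i
    simp only [ha]
    push_cast
    ring
  have hle : ∀ i, a i ≤ a (i + 1) := by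
    intro i
    have := hd i
    have : 0 < N / J := by positivity
    linarith
  have haN : ∀ i ≤ J, a i ≤ N := by
    intro i hi
    simp only [ha]
    have : (i : ℝ) ≤ J := by exact_mod_cast hi
    calc (i : ℝ) * (N / J) ≤ J * (N / J) := by gcongr
      _ = N := by field_simp
  have haJ : a J = N := by simp only [ha]; field_simp
  have haz : a 0 = 0 := by simp only [ha]; simp
  have hlim : Tendsto (fun n => ∑ i ∈ range J, (g (a i) : ℂ) * ∫ x in a i..a (i + 1), Y n x) atTop (𝓝 0) := by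
    have := tendsto_finsetSum (range J) (fun i _ => (h (a i) (a (i + 1)) (ha0 i) (hle i)).const_mul (g (a i) : ℂ))
    simpa using this
  obtain ⟨M, hM⟩ := Metric.tendsto_atTop.1 hlim (ε / 2) (by positivity)
  refine ⟨M, fun n hn => ?_⟩
  have h1 := hM n hn
  rw [dist_zero_right] at h1 ⊢
  have e1 : ∫ x in (0 : ℝ)..N, (g x : ℂ) * Y n x = ∑ i ∈ range J, ∫ x in a i..a (i + 1), (g x : ℂ) * Y n x := by
    rw [intervalIntegral.sum_integral_adjacent_intervals (fun k _ => hint2 n _ _), haJ, haz]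
  have e2 : ∀ i, ∫ x in a i..a (i + 1), (g x : ℂ) * Y n x = (g (a i) : ℂ) * (∫ x in a i..a (i + 1), Y n x) +
      ∫ x in a i..a (i + 1), ((g x : ℂ) - g (a i)) * Y n x := by
    intro i
    rw [← intervalIntegral.integral_const_mul, ← intervalIntegral.integral_add ((hint n _ _).const_mul _)]
    · refine intervalIntegral.integral_congr fun x _ => ?_
      ring
    · have := (hint2 n (a i) (a (i + 1))).sub ((hint n (a i) (a (i + 1))).const_mul (g (a i) : ℂ))
      refine this.congr fun x _ => ?_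
      show (g x : ℂ) * Y n x - (g (a i) : ℂ) * Y n x = _
      ring
  have e3 : ∀ i ∈ range J, ‖∫ x in a i..a (i + 1), ((g x : ℂ) - g (a i)) * Y n x‖ ≤ (e * 2) * (N / J) := by
    intro i hi
    have hiJ := mem_range.1 hi
    have h2 := intervalIntegral.norm_integral_le_of_norm_le_const (a := a i) (b := a (i + 1)) (C := e * 2)
      (f := fun x => ((g x : ℂ) - g (a i)) * Y n x) (by
        intro x hx
        rw [Set.uIoc_of_le (hle i)] at hx
        rw [norm_mul, ← Complex.ofReal_sub, Complex.norm_real]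
        have h3 : dist (g x) (g (a i)) < e := by
          refine huc x ⟨(ha0 i).trans hx.1.le, hx.2.trans (haN _ (by omega))⟩ (a i) ⟨ha0 i, haN _ (by omega)⟩ ?_
          rw [Real.dist_eq, abs_of_pos (by linarith [hx.1])]
          have := hd i
          linarith [hx.2]
        rw [Real.dist_eq] at h3
        exact mul_le_mul h3.le (hY n x) (norm_nonneg _) he0.le)
    rwa [hd i, abs_of_pos (by positivity)] at h2
  rw [e1, sum_congr rfl fun i _ => e2 i, sum_add_distrib]
  have e4 : ‖∑ i ∈ range J, ∫ x in a i..a (i + 1), ((g x : ℂ) - g (a i)) * Y n x‖ ≤ ε / 2 := by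
    refine (norm_sum_le _ _).trans ((sum_le_sum e3).trans (le_of_eq ?_))
    rw [sum_const, card_range, nsmul_eq_mul, he]
    field_simp
    ring
  calc _ ≤ _ := norm_add_le _ _
    _ < ε / 2 + ε / 2 := add_lt_add_of_lt_of_le h1 e4
    _ = ε := by ring

/-- all absolutely continuous laws -/
theorem mix {Y : ℕ → ℝ → ℂ} (hm : ∀ n, Measurable (Y n)) (hY : ∀ n x, ‖Y n x‖ ≤ 2)
    (h : ∀ u v : ℝ, 0 ≤ u → u ≤ v → Tendsto (fun n => ∫ x in u..v, Y n x) atTop (𝓝 0))
    (ν : Measure ℝ) [IsProbabilityMeasure ν] (hν : ν ≪ volume) (h0 : ν (Set.Iic 0) = 0) :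
    Tendsto (fun n => ∫ x, Y n x ∂ν) atTop (𝓝 0) := by
  rw [Metric.tendsto_atTop]
  intro ε hε
  set f : ℝ → ℝ := fun x => (ν.rnDeriv volume x).toReal with hf
  have hfi : Integrable f volume := Measure.integrable_toReal_rnDeriv
  obtain ⟨g, hgc, hgε, hg, hgi⟩ := hfi.exists_hasCompactSupport_integral_sub_le (show 0 < ε / 4 by positivity)
  obtain ⟨N, hN0, hN⟩ : ∃ N : ℝ, 0 < N ∧ ∀ x, N < x → g x = 0 := by
    obtain ⟨R, hR⟩ := hgc.isCompact.isBounded.subset_closedBall 0
    refine ⟨max R 1, lt_max_of_lt_right one_pos, fun x hx => ?_⟩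
    by_contra hne
    have h1 : x ∈ tsupport g := subset_tsupport _ hne
    have h2 := hR h1
    rw [Metric.mem_closedBall, dist_zero_right, Real.norm_eq_abs] at h2
    have h3 := le_abs_self x
    have h4 := le_max_left R 1
    linarith
  obtain ⟨M, hM⟩ := Metric.tendsto_atTop.1 (cont_case hm hY h hg hN0) (ε / 2) (by positivity)
  refine ⟨M, fun n hn => ?_⟩
  have h1 := hM n hn
  rw [dist_zero_right] at h1 ⊢
  have hYi : Integrable (Y n) ν := Integrable.of_bound (hm n).aestronglyMeasurable 2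
    (Eventually.of_forall fun x => hY n x)
  have e1 : ∫ x, Y n x ∂ν = ∫ x in Set.Ioi (0 : ℝ), (f x : ℂ) * Y n x := by
    have h2 := setIntegral_rnDeriv_smul (f := Y n) hν (measurableSet_Ioi (a := (0 : ℝ)))
    have h3 : ∫ x in Set.Ioi (0 : ℝ), Y n x ∂ν = ∫ x, Y n x ∂ν := by
      rw [← integral_add_compl (measurableSet_Ioi (a := (0 : ℝ))) hYi, Set.compl_Ioi,
        Measure.restrict_eq_zero.2 h0, integral_zero_measure, add_zero]
    rw [← h3, ← h2]
    simp only [Complex.real_smul, hf]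
  have hfY : ∀ k : ℝ → ℝ, Integrable k volume → Integrable (fun x => (k x : ℂ) * Y n x) volume := by
    intro k hk
    exact Integrable.mul_bdd (c := 2) hk.ofReal (hm n).aestronglyMeasurable (Eventually.of_forall fun x => hY n x)
  have hfg : Integrable (fun x => f x - g x) volume := hfi.sub hgi
  have hfgY : Integrable (fun x => ((f x - g x : ℝ) : ℂ) * Y n x) volume := hfY _ hfg
  have e2 : ∫ x in Set.Ioi (0 : ℝ), (f x : ℂ) * Y n x = (∫ x in Set.Ioi (0 : ℝ), (g x : ℂ) * Y n x) +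
      ∫ x in Set.Ioi (0 : ℝ), ((f x - g x : ℝ) : ℂ) * Y n x := by
    rw [← integral_add (hfY g hgi).restrict hfgY.restrict]
    refine integral_congr_ae (Eventually.of_forall fun x => ?_)
    show (f x : ℂ) * Y n x = (g x : ℂ) * Y n x + ((f x - g x : ℝ) : ℂ) * Y n x
    push_cast
    ring
  have e3 : ∫ x in Set.Ioi (0 : ℝ), (g x : ℂ) * Y n x = ∫ x in (0 : ℝ)..N, (g x : ℂ) * Y n x := by
    rw [intervalIntegral.integral_of_le hN0.le]
    refine setIntegral_eq_of_subset_of_forall_diff_eq_zero measurableSet_Ioi Set.Ioc_subset_Ioi_self fun x hx => ?_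
    have h2 : N < x := by
      by_contra h3
      exact hx.2 ⟨hx.1, not_lt.1 h3⟩
    rw [hN x h2, Complex.ofReal_zero, zero_mul]
  have e4 : ‖∫ x in Set.Ioi (0 : ℝ), ((f x - g x : ℝ) : ℂ) * Y n x‖ ≤ ε / 2 := by
    have h2 : ∫ x in Set.Ioi (0 : ℝ), ‖((f x - g x : ℝ) : ℂ) * Y n x‖ ≤ ∫ x, ‖((f x - g x : ℝ) : ℂ) * Y n x‖ :=
      setIntegral_le_integral hfgY.norm (Eventually.of_forall fun x => norm_nonneg _)
    have h3 : ∫ x, ‖((f x - g x : ℝ) : ℂ) * Y n x‖ ≤ ∫ x, ‖f x - g x‖ * 2 := by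
      refine integral_mono hfgY.norm (hfg.norm.mul_const 2) fun x => ?_
      show ‖((f x - g x : ℝ) : ℂ) * Y n x‖ ≤ ‖f x - g x‖ * 2
      rw [norm_mul, Complex.norm_real]
      exact mul_le_mul_of_nonneg_left (hY n x) (norm_nonneg _)
    rw [integral_mul_const] at h3
    refine (norm_integral_le_integral_norm _).trans (h2.trans (h3.trans ?_))
    linarith
  rw [e1, e2, e3]
  calc _ ≤ _ := norm_add_le _ _
    _ < ε / 2 + ε / 2 := add_lt_add_of_lt_of_le h1 e4
    _ = ε := by ring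

end Pool.Agent.J6H29.PL
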