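import Mathlib
import Pool.Agent.J6H29.PL.Mix
import Pool.Agent.J6H29.PL.Leb

/-!
# The limit theorem for the characteristic functional
-/

set_option autoImplicit false

namespace Pool.Agent.J6H29.PL

open Finset Filter Topology MeasureTheory
open Pool.Agent.N176.OW (kap S_FM)
open Pool.Agent.N176.SH (sh Ok S_E4 S_RB cc WW WW_eq)
open Pool.Agent.N176.GP (NB)

/-- the characteristic functional of the Poisson process -/
noncomputable def G (a : ℕ) (θ : ℕ → ℂ) (T : Finset ℕ) : ℂ :=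
  Complex.exp (-((kap a : ℝ) * ∑ p ∈ T, (1 - θ p) * (wt p : ℝ)))

lemma G_eq_prod (a : ℕ) (θ : ℕ → ℂ) (T : Finset ℕ) :
    G a θ T = ∏ p ∈ T, Complex.exp (-((kap a * wt p : ℝ) * (1 - θ p))) := by
  unfold G
  rw [← Complex.exp_sum]
  congr 1
  rw [sum_neg_distrib, mul_sum]
  congr 1
  refine sum_congr rfl fun p _ => ?_
  push_cast
  ring

lemma norm_exp_le {x : ℝ} (hx : 0 ≤ x) {z : ℂ} (hz : ‖z‖ ≤ 1) : ‖Complex.exp (-((x : ℂ) * (1 - z)))‖ ≤ 1 := by
  rw [Complex.norm_exp, Real.exp_le_one_iff, Complex.neg_re, Complex.re_ofReal_mul, Complex.sub_re,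
    Complex.one_re, neg_nonpos]
  have h1 : z.re ≤ 1 := (Complex.re_le_norm _).trans hz
  exact mul_nonneg hx (by linarith)

lemma norm_G_le {a : ℕ} (ha : 2 ≤ a) {θ : ℕ → ℂ} (hθ : ∀ p, ‖θ p‖ ≤ 1) (T : Finset ℕ) : ‖G a θ T‖ ≤ 1 := by
  rw [G_eq_prod]
  exact norm_prod_le_one _ _ fun p _ => norm_exp_le (mul_nonneg (kap_pos ha).le (wt_nonneg p)) (hθ p)

lemma D_mono {b K : ℕ} {dg : ℝ} (hdg : 0 ≤ dg) (θ : ℕ → ℂ) {T T' : Finset ℕ} (h : T' ⊆ T) :
    D b K dg θ T' ≤ D b K dg θ T := by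
  unfold D
  refine (sum_le_sum fun q _ => sum_le_sum_of_subset_of_nonneg (filter_subset_filter _ h)
    fun p _ _ => pr_nonneg b hdg θ p q).trans ?_
  exact sum_le_sum_of_subset_of_nonneg h fun q _ _ => sum_nonneg fun p _ => pr_nonneg b hdg θ p q

lemma R_mono (θ : ℕ → ℂ) {T T' : Finset ℕ} (h : T' ⊆ T) : R θ T' ≤ R θ T := by
  unfold R
  exact sum_le_sum_of_subset_of_nonneg h fun q _ _ => by positivity

lemma D_nonneg {b K : ℕ} {dg : ℝ} (hdg : 0 ≤ dg) (θ : ℕ → ℂ) (T : Finset ℕ) : 0 ≤ D b K dg θ T := by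
  unfold D
  exact sum_nonneg fun q _ => sum_nonneg fun p _ => pr_nonneg b hdg θ p q

lemma R_nonneg (θ : ℕ → ℂ) (T : Finset ℕ) : 0 ≤ R θ T := by
  unfold R
  exact sum_nonneg fun q _ => by positivity

/-- **The characteristic functional, in the limit.** -/
theorem func {a : ℕ} {b : ℤ} (hb1 : 1 ≤ |b|) (hba : |b| < a) {dg : ℝ} (hdg : dg = 1 ∨ (dg = 0 ∧ 2 ≤ |b|))
    {T : ℕ → Finset ℕ} (hT : ∀ n, ∀ p ∈ T n, p.Prime) {θ : ℕ → ℕ → ℂ} (hθ : ∀ n p, ‖θ n p‖ ≤ 1)
    (h1 : ∀ p, Tendsto (fun n => if p ∈ T n then ‖1 - θ n p‖ else 0) atTop (𝓝 0))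
    (h2 : ∀ K : ℕ, 2 ≤ K → ∀ ε : ℝ, 0 < ε → ∃ P : ℕ, ∀ᶠ n in atTop,
      D a K dg (θ n) ((T n).filter (fun p => P ≤ p)) + R (θ n) ((T n).filter (fun p => P ≤ p)) ≤ ε)
    (ν : Measure ℝ) [IsProbabilityMeasure ν] (hν : ν ≪ volume) (h0 : ν (Set.Iic 0) = 0) :
    Tendsto (fun n => ∫ x, Z a b (θ n) (T n) x ∂ν - G a (θ n) (T n)) atTop (𝓝 0) := by
  have ha : 2 ≤ a := by
    have h3 : (1 : ℤ) < a := lt_of_le_of_lt hb1 hba
    omega
  obtain ⟨A, hOk⟩ := Pool.Agent.N372.SH.okp a b hb1 hba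
  have hDG : DG a A (cc a b) dg := by
    rcases hdg with h | ⟨h, h'⟩
    · exact Or.inl h
    · rw [h]
      exact DG_of h' hba hOk
  have hdg0 := hDG.nonneg
  have hk := kap_pos ha
  set Y : ℕ → ℝ → ℂ := fun n x => Z a b (θ n) (T n) x - G a (θ n) (T n) with hYd
  have hYm : ∀ n, Measurable (Y n) := fun n => (Z_meas a b (θ n) (T n)).sub_const _
  have hYb : ∀ n x, ‖Y n x‖ ≤ 2 := by
    intro n x
    have h3 := norm_Z_le (a := a) (b := b) (hθ n) (T n) x
    have h4 := norm_G_le ha (hθ n) (T n)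
    refine (norm_sub_le _ _).trans ?_
    linarith
  have hconv : ∀ n, ∫ x, Z a b (θ n) (T n) x ∂ν - G a (θ n) (T n) = ∫ x, Y n x ∂ν := by
    intro n
    have h3 : Integrable (Z a b (θ n) (T n)) ν := Integrable.of_bound (Z_meas a b (θ n) (T n)).aestronglyMeasurable 1
      (Eventually.of_forall fun x => norm_Z_le (hθ n) (T n) x)
    rw [integral_sub h3 (integrable_const _), integral_const]
    simp
  simp only [hconv]
  refine mix hYm hYb (fun u v hu huv => adic_to_real hYm hYb ha ?_ hu huv) ν hν h0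
  intro m i j hi hij
  have hW : Win a m i j := ⟨ha, hi, hij⟩
  have hmu := mu_nonneg hW
  obtain ⟨K, hK, C, hC, P, hgen⟩ := gen Pool.Agent.N176.SH.All.e4 Pool.Agent.N897.SH.rb
    Pool.Agent.N176.OW.All.fm hW hOk hDG
  rw [Metric.tendsto_atTop]
  intro ε hε
  obtain ⟨P0, hP0⟩ := h2 K hK (ε / (2 * C)) (by positivity)
  set P1 := P0 + P + 3 with hP1
  -- the small exponents
  set s : ℕ → ℝ := fun n => ∑ p ∈ range P1, (if p ∈ T n then ‖1 - θ n p‖ else 0) with hs
  have hs0 : Tendsto s atTop (𝓝 0) := by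
    have := tendsto_finsetSum (range P1) (fun p _ => h1 p)
    rwa [sum_const_zero] at this
  set r : ℕ → ℝ := fun n => ∑ p ∈ range P1, (if p ∈ T n then
    ‖1 - Complex.exp (-((kap a * wt p : ℝ) * (1 - θ n p)))‖ else 0) with hr
  have hr0 : Tendsto r atTop (𝓝 0) := by
    have h3 : ∀ p ∈ range P1, Tendsto (fun n => if p ∈ T n then
        ‖1 - Complex.exp (-((kap a * wt p : ℝ) * (1 - θ n p)))‖ else 0) atTop (𝓝 0) := by
      intro p _
      have h4 : Tendsto (fun n => if p ∈ T n then (1 - θ n p) else 0) atTop (𝓝 0) := by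
        rw [tendsto_zero_iff_norm_tendsto_zero]
        refine (h1 p).congr fun n => ?_
        split_ifs
        · rfl
        · rw [norm_zero]
      have h5 : Tendsto (fun n => ‖1 - Complex.exp (-((kap a * wt p : ℝ) *
          (if p ∈ T n then (1 - θ n p) else 0)))‖) atTop (𝓝 ‖1 - Complex.exp (-((kap a * wt p : ℝ) * 0))‖) := by
        refine ((Complex.continuous_exp.tendsto _).comp (h4.const_mul _).neg).const_sub 1 |>.norm
      rw [mul_zero, neg_zero, Complex.exp_zero, sub_self, norm_zero] at h5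
      refine h5.congr fun n => ?_
      split_ifs
      · rfl
      · rw [mul_zero, neg_zero, Complex.exp_zero, sub_self, norm_zero]
    have := tendsto_finsetSum (range P1) h3
    rwa [sum_const_zero] at this
  have hlim : Tendsto (fun n => mu a m i j * s n + mu a m i j * r n) atTop (𝓝 0) := by
    have := (hs0.const_mul (mu a m i j)).add (hr0.const_mul (mu a m i j))
    simpa using this
  obtain ⟨N1, hN1⟩ := eventually_atTop.1 hP0
  obtain ⟨N2, hN2⟩ := Metric.tendsto_atTop.1 hlim (ε / 2) (by positivity)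
  refine ⟨N1 + N2, fun n hn => ?_⟩
  have k1 := hN1 n (by omega)
  have k2 := hN2 n (by omega)
  rw [dist_zero_right, Real.norm_eq_abs] at k2
  have k3 := (le_abs_self _).trans_lt k2
  rw [dist_zero_right]
  set T' := (T n).filter (fun p => P1 ≤ p) with hT'
  have hsub : T' ⊆ T n := filter_subset _ _
  have hsub0 : T' ⊆ (T n).filter (fun p => P0 ≤ p) := by
    intro p hp
    rw [hT', mem_filter] at hp
    rw [mem_filter]
    exact ⟨hp.1, by omega⟩
  have hsd : T n \ T' = (range P1).filter (fun p => p ∈ T n) := by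
    ext p
    rw [Finset.mem_sdiff, hT', mem_filter, mem_filter, mem_range]
    constructor
    · rintro ⟨h3, h4⟩
      exact ⟨by by_contra h5; exact h4 ⟨h3, not_lt.1 h5⟩, h3⟩
    · rintro ⟨h3, h4⟩
      exact ⟨h4, fun h5 => by omega⟩
  -- the level
  set t := m + 2 * (T'.sup id) with ht
  have htm : m ≤ t := by omega
  have htT : ∀ p ∈ T', 2 * p ≤ t := by
    intro p hp
    have : p ≤ T'.sup id := Finset.le_sup (f := id) hp
    omega
  have hg := hgen T' (fun p hp => by rw [hT', mem_filter] at hp; omega) t htm htT (θ n) (hθ n)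
  have hodd : ∀ p ∈ T', Odd p := by
    intro p hp
    rw [hT', mem_filter] at hp
    exact (hT n p hp.1).odd_of_ne_two (by omega)
  -- the integral of the product over the large exponents
  have hle : (i : ℝ) / (a : ℝ) ^ m ≤ (j : ℝ) / (a : ℝ) ^ m := by gcongr
  have hipos : 0 < (i : ℝ) / (a : ℝ) ^ m := by
    have : (0 : ℝ) < i := by exact_mod_cast hi
    positivity
  have e1 : ∫ x in ((i : ℝ) / (a : ℝ) ^ m)..((j : ℝ) / (a : ℝ) ^ m), Z a b (θ n) T' x =
      Ec a m i j t (F (θ n) (cc a b) a t T') := by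
    rw [← integral_NB hW htm]
    refine intervalIntegral.integral_congr fun x hx => ?_
    rw [Set.uIcc_of_le hle] at hx
    exact Z_eq ha hb1 (hipos.trans_le hx.1) hodd (fun p hp => by have := htT p hp; omega) (θ n)
  have hint : ∀ (S : Finset ℕ) (u v : ℝ), IntervalIntegrable (Z a b (θ n) S) volume u v := by
    intro S u v
    rw [intervalIntegrable_iff]
    exact Measure.integrableOn_of_bounded (M := 1) (by simp) (Z_meas a b (θ n) S).aestronglyMeasurable
      (Eventually.of_forall fun x => norm_Z_le (hθ n) S x)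
  have hlen : (j : ℝ) / (a : ℝ) ^ m - (i : ℝ) / (a : ℝ) ^ m = mu a m i j := by
    unfold mu
    ring
  -- small exponents
  have hZZ : ∀ x, ‖Z a b (θ n) (T n) x - Z a b (θ n) T' x‖ ≤ s n := by
    intro x
    classical
    unfold Z
    refine (norm_prod_sub_sub hsub _ fun p _ => ?_).trans ?_
    · split_ifs
      · exact hθ n p
      · simp
    · rw [hsd]
      simp only [hs]
      rw [sum_filter]
      refine sum_le_sum fun p _ => ?_
      split_ifs
      · exact le_rfl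
      · simp
      · exact le_rfl
  have hGG : ‖G a (θ n) (T n) - G a (θ n) T'‖ ≤ r n := by
    rw [G_eq_prod, G_eq_prod]
    refine (norm_prod_sub_sub hsub _ fun p _ => norm_exp_le (mul_nonneg hk.le (wt_nonneg p)) (hθ n p)).trans ?_
    rw [hsd, sum_filter]
  have e2 : ∫ x in ((i : ℝ) / (a : ℝ) ^ m)..((j : ℝ) / (a : ℝ) ^ m), Y n x =
      (∫ x in ((i : ℝ) / (a : ℝ) ^ m)..((j : ℝ) / (a : ℝ) ^ m), (Z a b (θ n) (T n) x - Z a b (θ n) T' x)) +
      (Ec a m i j t (F (θ n) (cc a b) a t T') - (mu a m i j : ℂ) * G a (θ n) T') +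
      -((mu a m i j : ℂ) * (G a (θ n) (T n) - G a (θ n) T')) := by
    rw [intervalIntegral.integral_sub (hint _ _ _) (hint _ _ _), e1]
    have e3 : ∫ x in ((i : ℝ) / (a : ℝ) ^ m)..((j : ℝ) / (a : ℝ) ^ m), Y n x =
        (∫ x in ((i : ℝ) / (a : ℝ) ^ m)..((j : ℝ) / (a : ℝ) ^ m), Z a b (θ n) (T n) x) -
        (mu a m i j : ℂ) * G a (θ n) (T n) := by
      simp only [hYd]
      rw [intervalIntegral.integral_sub (hint _ _ _) intervalIntegrable_const, intervalIntegral.integral_const,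
        hlen, Complex.real_smul]
    rw [e3]
    ring
  have n1 : ‖∫ x in ((i : ℝ) / (a : ℝ) ^ m)..((j : ℝ) / (a : ℝ) ^ m),
      (Z a b (θ n) (T n) x - Z a b (θ n) T' x)‖ ≤ s n * mu a m i j := by
    have := intervalIntegral.norm_integral_le_of_norm_le_const (a := (i : ℝ) / (a : ℝ) ^ m)
      (b := (j : ℝ) / (a : ℝ) ^ m) (C := s n) (f := fun x => Z a b (θ n) (T n) x - Z a b (θ n) T' x)
      fun x _ => hZZ x
    rwa [abs_of_nonneg (by linarith), hlen] at this
  have n2 : ‖Ec a m i j t (F (θ n) (cc a b) a t T') - (mu a m i j : ℂ) * G a (θ n) T'‖ ≤ ε / 2 := by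
    refine hg.trans ?_
    have k4 : D a K dg (θ n) T' + R (θ n) T' ≤ ε / (2 * C) :=
      (add_le_add (D_mono hdg0 _ hsub0) (R_mono _ hsub0)).trans k1
    calc C * (D a K dg (θ n) T' + R (θ n) T') ≤ C * (ε / (2 * C)) := mul_le_mul_of_nonneg_left k4 hC.le
      _ = ε / 2 := by field_simp
  have n3 : ‖-((mu a m i j : ℂ) * (G a (θ n) (T n) - G a (θ n) T'))‖ ≤ mu a m i j * r n := by
    rw [norm_neg, norm_mul, Complex.norm_real, Real.norm_eq_abs, abs_of_nonneg hmu]
    exact mul_le_mul_of_nonneg_left hGG hmu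
  rw [e2]
  refine norm_add₃_le.trans_lt ?_
  linarith

end Pool.Agent.J6H29.PL
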