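import Mathlib
import Pool.Agent.N176.GP.Block
import Pool.Agent.J6H29.PL.Func

/-!
# Dyadic weights and clusters
-/

set_option autoImplicit false

namespace Pool.Agent.J6H29.PL

open Finset Filter Topology MeasureTheory
open Pool.Agent.N176.OW (kap)

/-- the tail of the sum of `1 / (p log p)` -/
theorem tail : ∀ ε : ℝ, 0 < ε → ∃ P : ℕ, ∀ S : Finset ℕ, (∀ p ∈ S, p.Prime ∧ P ≤ p) →
    ∑ p ∈ S, 1 / ((p : ℝ) * Real.log p) ≤ ε := by
  intro ε hε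
  obtain ⟨C, hC, hcard⟩ := Pool.Agent.N176.GP.card_primes
  have hl2 : 0 < Real.log 2 := Real.log_pos one_lt_two
  have hsum : Summable (fun i : ℕ => C / Real.log 2 ^ 2 * (1 / (i : ℝ) ^ 2)) :=
    (Real.summable_one_div_nat_pow.2 one_lt_two).mul_left _
  obtain ⟨s0, hs0⟩ := summable_iff_vanishing_norm.1 hsum ε hε
  set i0 := s0.sup id + 1 with hi0
  refine ⟨2 ^ i0 + 3, fun S hS => ?_⟩
  set t := S.image (fun p => Nat.log 2 p) with ht
  have hti : ∀ i ∈ t, i0 ≤ i := by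
    intro i hi
    rw [ht, mem_image] at hi
    obtain ⟨p, hp, rfl⟩ := hi
    have h1 := (hS p hp).2
    exact Nat.le_log_of_pow_le one_lt_two (le_trans (Nat.le_add_right _ _) h1)
  have hdis : Disjoint t s0 := by
    rw [Finset.disjoint_left]
    intro i hi hi'
    have h1 := hti i hi
    have h2 : i ≤ s0.sup id := Finset.le_sup (f := id) hi'
    omega
  have h1 := hs0 t hdis
  rw [← Finset.sum_fiberwise_of_maps_to (s := S) (t := t) (g := fun p => Nat.log 2 p)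
    (fun p hp => mem_image_of_mem _ hp)]
  refine le_trans ?_ (((Real.le_norm_self _).trans h1.le))
  refine sum_le_sum fun i hi => ?_
  have hi1 := hti i hi
  have hipos : 1 ≤ i := by omega
  have hir : (0 : ℝ) < i := by exact_mod_cast hipos
  have hlog : Real.log ((2 ^ i : ℕ) : ℝ) = i * Real.log 2 := by push_cast; rw [Real.log_pow]
  have hmem : ∀ p ∈ S.filter (fun p => Nat.log 2 p = i), p.Prime ∧ 2 ^ i < p ∧ p ≤ 2 * 2 ^ i := by
    intro p hp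
    rw [mem_filter] at hp
    obtain ⟨h2, h3⟩ := hS p hp.1
    have hpos : 0 < 2 ^ i0 := by positivity
    have hp0 : p ≠ 0 := by omega
    have h4 : 2 ^ i ≤ p := by
      rw [← hp.2]
      exact Nat.pow_log_le_self 2 hp0
    have h5 : p < 2 ^ (i + 1) := by
      rw [← hp.2]
      exact Nat.lt_pow_succ_log_self one_lt_two p
    refine ⟨h2, lt_of_le_of_ne h4 ?_, by rw [pow_succ] at h5; omega⟩
    intro h6
    have h7 : 2 ∣ p := by rw [← h6]; exact dvd_pow_self 2 (by omega)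
    have h8 := (Nat.prime_dvd_prime_iff_eq Nat.prime_two h2).1 h7
    omega
  have h2i : 2 ≤ 2 ^ i := by
    calc 2 = 2 ^ 1 := (pow_one 2).symm
      _ ≤ 2 ^ i := Nat.pow_le_pow_right (by norm_num) hipos
  have hc := hcard (2 ^ i) h2i _ hmem
  have h2ir : (0 : ℝ) < ((2 ^ i : ℕ) : ℝ) := by positivity
  have hlp : 0 < Real.log ((2 ^ i : ℕ) : ℝ) := by rw [hlog]; positivity
  calc ∑ p ∈ S.filter (fun p => Nat.log 2 p = i), 1 / ((p : ℝ) * Real.log p) ≤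
      ∑ p ∈ S.filter (fun p => Nat.log 2 p = i), 1 / (((2 ^ i : ℕ) : ℝ) * Real.log ((2 ^ i : ℕ) : ℝ)) := by
        refine sum_le_sum fun p hp => ?_
        obtain ⟨_, h3, _⟩ := hmem p hp
        have h4 : ((2 ^ i : ℕ) : ℝ) ≤ p := by exact_mod_cast h3.le
        have h5 := Real.log_le_log h2ir h4
        gcongr
    _ = ((S.filter (fun p => Nat.log 2 p = i)).card : ℝ) *
        (1 / (((2 ^ i : ℕ) : ℝ) * Real.log ((2 ^ i : ℕ) : ℝ))) := by rw [sum_const, nsmul_eq_mul]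
    _ ≤ (C * ((2 ^ i : ℕ) : ℝ) / Real.log ((2 ^ i : ℕ) : ℝ)) *
        (1 / (((2 ^ i : ℕ) : ℝ) * Real.log ((2 ^ i : ℕ) : ℝ))) := by gcongr
    _ = C / Real.log 2 ^ 2 * (1 / (i : ℝ) ^ 2) := by
        rw [hlog]
        field_simp

/-- the reciprocals, by the Cauchy–Schwarz inequality -/
lemma R_sq_le {θ : ℕ → ℂ} {S : Finset ℕ} (hS : ∀ p ∈ S, 3 ≤ p) :
    R θ S ^ 2 ≤ (∑ q ∈ S, ‖1 - θ q‖ ^ 2 * wt q) * ∑ q ∈ S, 1 / ((q : ℝ) * Real.log q) := by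
  have h := Finset.sum_mul_sq_le_sq_mul_sq S (fun q => ‖1 - θ q‖ * √(wt q)) (fun q => 1 / ((q : ℝ) * √(wt q)))
  have hw : ∀ q ∈ S, 0 < wt q := by
    intro q hq
    have h1 := hS q hq
    have h2 : (1 : ℝ) < q := by exact_mod_cast (by omega : 1 < q)
    unfold wt
    have := Real.log_pos h2
    positivity
  have e1 : ∑ q ∈ S, ‖1 - θ q‖ * √(wt q) * (1 / ((q : ℝ) * √(wt q))) = R θ S := by
    unfold R
    refine sum_congr rfl fun q hq => ?_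
    have h1 := Real.sqrt_pos.2 (hw q hq)
    have h2 : (0 : ℝ) < q := by exact_mod_cast (by have := hS q hq; omega : 0 < q)
    field_simp
  have e2 : ∑ q ∈ S, (‖1 - θ q‖ * √(wt q)) ^ 2 = ∑ q ∈ S, ‖1 - θ q‖ ^ 2 * wt q := by
    refine sum_congr rfl fun q hq => ?_
    rw [mul_pow, Real.sq_sqrt (hw q hq).le]
  have e3 : ∑ q ∈ S, (1 / ((q : ℝ) * √(wt q))) ^ 2 = ∑ q ∈ S, 1 / ((q : ℝ) * Real.log q) := by
    refine sum_congr rfl fun q hq => ?_
    have h1 := hS q hq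
    have h2 : (1 : ℝ) < q := by exact_mod_cast (by omega : 1 < q)
    have h3 := Real.log_pos h2
    rw [div_pow, one_pow, mul_pow, Real.sq_sqrt (hw q hq).le]
    unfold wt
    field_simp
  rw [e1, e2, e3] at h
  exact h

/-- dyadic intervals -/
lemma dyadic {S : Finset ℕ} {P : ℕ} {δ : ℝ} (h : ∀ x ≥ P, ∑ p ∈ S.filter (fun p => x < p ∧ p ≤ 2 * x), wt p ≤ δ)
    {x : ℕ} (hx : P ≤ x) (L : ℕ) : ∑ p ∈ S.filter (fun p => x < p ∧ p ≤ 2 ^ L * x), wt p ≤ L * δ := by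
  induction L with
  | zero =>
    rw [filter_false_of_mem, sum_empty]
    · simp
    · intro p _ h1
      rw [pow_zero, one_mul] at h1
      omega
  | succ L ih =>
    have hx2 : P ≤ 2 ^ L * x := hx.trans (Nat.le_mul_of_pos_left _ (by positivity))
    have h1 := h _ hx2
    have hsub : S.filter (fun p => x < p ∧ p ≤ 2 ^ (L + 1) * x) ⊆
        S.filter (fun p => x < p ∧ p ≤ 2 ^ L * x) ∪ S.filter (fun p => 2 ^ L * x < p ∧ p ≤ 2 * (2 ^ L * x)) := by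
      intro p hp
      rw [mem_filter] at hp
      rw [mem_union, mem_filter, mem_filter]
      rcases Nat.lt_or_ge (2 ^ L * x) p with h2 | h2
      · refine Or.inr ⟨hp.1, h2, ?_⟩
        have := hp.2.2
        rw [pow_succ] at this
        calc p ≤ 2 ^ L * 2 * x := this
          _ = _ := by ring
      · exact Or.inl ⟨hp.1, hp.2.1, h2⟩
    calc _ ≤ _ := sum_le_sum_of_subset_of_nonneg hsub fun p _ _ => wt_nonneg p
      _ ≤ _ := by
        rw [← sum_union_inter]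
        exact le_add_of_nonneg_right (sum_nonneg fun p _ => wt_nonneg p)
      _ ≤ L * δ + δ := add_le_add ih h1
      _ = _ := by push_cast; ring

/-- the clusters -/
noncomputable def Cl (a : ℕ) (θ : ℕ → ℂ) (S : Finset ℕ) : ℝ :=
  ∑ q ∈ S, ∑ p ∈ S.filter (fun p => p < q), ‖1 - θ p‖ * ‖1 - θ q‖ * (wt p * ((a : ℝ) ^ (q - p))⁻¹)

lemma Cl_term_nonneg (a : ℕ) (θ : ℕ → ℂ) (p q : ℕ) :
    0 ≤ ‖1 - θ p‖ * ‖1 - θ q‖ * (wt p * ((a : ℝ) ^ (q - p))⁻¹) := by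
  have := wt_nonneg p
  positivity

lemma Cl_mono (a : ℕ) (θ : ℕ → ℂ) {S S' : Finset ℕ} (h : S' ⊆ S) : Cl a θ S' ≤ Cl a θ S := by
  unfold Cl
  refine (sum_le_sum fun q _ => sum_le_sum_of_subset_of_nonneg (filter_subset_filter _ h)
    fun p _ _ => Cl_term_nonneg a θ p q).trans ?_
  exact sum_le_sum_of_subset_of_nonneg h fun q _ _ => sum_nonneg fun p _ => Cl_term_nonneg a θ p q

lemma D_le {a K : ℕ} (hK : 1 ≤ K) {dg : ℝ} (hdg : 0 ≤ dg) (θ : ℕ → ℂ) {S : Finset ℕ} {P : ℕ} {δ : ℝ}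
    (h : ∀ x ≥ P, ∑ p ∈ S.filter (fun p => x < p ∧ p ≤ 2 * x), wt p ≤ δ)
    (hS : ∀ p ∈ S, K * (P + 1) ≤ p) :
    D a K dg θ S ≤ (K + 1 : ℕ) * δ * (∑ q ∈ S, ‖1 - θ q‖ ^ 2 * wt q) + dg * Cl a θ S := by
  have h2K : K + 1 ≤ 2 ^ K := Nat.lt_two_pow_self
  -- windows
  have hq : ∀ q ∈ S, ∑ p ∈ S.filter (fun p => q / K < p ∧ p < q), wt p ≤ (K + 1 : ℕ) * δ := by
    intro q hq
    have h1 := hS q hq
    have h2 : P + 1 ≤ q / K := by
      rw [Nat.le_div_iff_mul_le (by omega), mul_comm]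
      exact h1
    refine le_trans (sum_le_sum_of_subset_of_nonneg ?_ fun p _ _ => wt_nonneg p) (dyadic h (x := q / K) (by omega) (K + 1))
    intro p hp
    rw [mem_filter] at hp ⊢
    refine ⟨hp.1, hp.2.1, ?_⟩
    have h3 : q < (q / K + 1) * K := by
      have := Nat.lt_div_mul_add (a := q) (show 0 < K by omega)
      nlinarith
    calc p ≤ (q / K + 1) * K := by omega
      _ ≤ (q / K + q / K) * 2 ^ K := Nat.mul_le_mul (by omega) (by omega)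
      _ = 2 ^ (K + 1) * (q / K) := by ring
  have hp : ∀ p ∈ S, ∑ q ∈ S.filter (fun q => q / K < p ∧ p < q), wt q ≤ (K + 1 : ℕ) * δ := by
    intro p hp
    have h1 := hS p hp
    have h2 : P ≤ p := by nlinarith
    refine le_trans (sum_le_sum_of_subset_of_nonneg ?_ fun p _ _ => wt_nonneg p) (dyadic h (x := p) h2 (K + 1))
    intro q hq
    rw [mem_filter] at hq ⊢
    refine ⟨hq.1, hq.2.2, ?_⟩
    have h3 : q < p * K := (Nat.div_lt_iff_lt_mul (by omega)).1 hq.2.1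
    calc q ≤ p * K := h3.le
      _ ≤ p * 2 ^ (K + 1) := Nat.mul_le_mul_left _ (by rw [pow_succ]; omega)
      _ = _ := mul_comm _ _
  have hη : ∀ q, 0 ≤ ‖1 - θ q‖ ^ 2 * wt q := fun q => mul_nonneg (by positivity) (wt_nonneg q)
  have hsplit : D a K dg θ S ≤ ∑ q ∈ S, ∑ p ∈ S.filter (fun p => q / K < p ∧ p < q),
      ((‖1 - θ q‖ ^ 2 * wt q) * wt p / 2 + (‖1 - θ p‖ ^ 2 * wt p) * wt q / 2 +
        dg * (‖1 - θ p‖ * ‖1 - θ q‖ * (wt p * ((a : ℝ) ^ (q - p))⁻¹))) := by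
    unfold D pr
    refine sum_le_sum fun q _ => sum_le_sum fun p _ => ?_
    have h1 := wt_nonneg p
    have h2 := wt_nonneg q
    have h3 : 0 ≤ wt p * wt q := mul_nonneg h1 h2
    have h4 : ‖1 - θ p‖ * ‖1 - θ q‖ ≤ (‖1 - θ q‖ ^ 2 + ‖1 - θ p‖ ^ 2) / 2 := by
      nlinarith [sq_nonneg (‖1 - θ p‖ - ‖1 - θ q‖)]
    have h5 := mul_le_mul_of_nonneg_right h4 h3
    nlinarith
  refine hsplit.trans ?_
  simp only [sum_add_distrib]
  have p1 : ∑ q ∈ S, ∑ p ∈ S.filter (fun p => q / K < p ∧ p < q), (‖1 - θ q‖ ^ 2 * wt q) * wt p / 2 ≤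
      (K + 1 : ℕ) * δ * (∑ q ∈ S, ‖1 - θ q‖ ^ 2 * wt q) / 2 := by
    rw [mul_sum, sum_div]
    refine sum_le_sum fun q hq' => ?_
    rw [← sum_div, ← mul_sum]
    have := mul_le_mul_of_nonneg_left (hq q hq') (hη q)
    linarith
  have p2 : ∑ q ∈ S, ∑ p ∈ S.filter (fun p => q / K < p ∧ p < q), (‖1 - θ p‖ ^ 2 * wt p) * wt q / 2 ≤
      (K + 1 : ℕ) * δ * (∑ q ∈ S, ‖1 - θ q‖ ^ 2 * wt q) / 2 := by
    have e : ∑ q ∈ S, ∑ p ∈ S.filter (fun p => q / K < p ∧ p < q), (‖1 - θ p‖ ^ 2 * wt p) * wt q / 2 =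
        ∑ p ∈ S, ∑ q ∈ S.filter (fun q => q / K < p ∧ p < q), (‖1 - θ p‖ ^ 2 * wt p) * wt q / 2 := by
      simp only [sum_filter]
      rw [sum_comm]
    rw [e, mul_sum, sum_div]
    refine sum_le_sum fun p hp' => ?_
    rw [← sum_div, ← mul_sum]
    have := mul_le_mul_of_nonneg_left (hp p hp') (hη p)
    linarith
  have p3 : ∑ q ∈ S, ∑ p ∈ S.filter (fun p => q / K < p ∧ p < q),
      dg * (‖1 - θ p‖ * ‖1 - θ q‖ * (wt p * ((a : ℝ) ^ (q - p))⁻¹)) ≤ dg * Cl a θ S := by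
    unfold Cl
    rw [mul_sum]
    refine sum_le_sum fun q _ => ?_
    rw [mul_sum]
    refine sum_le_sum_of_subset_of_nonneg ?_ fun p _ _ => mul_nonneg hdg (Cl_term_nonneg a θ p q)
    intro p hp
    rw [mem_filter] at hp ⊢
    exact ⟨hp.1, hp.2.2⟩
  linarith

/-- the conditions of the limit theorem -/
theorem cond {a : ℕ} {dg : ℝ} (hdg : 0 ≤ dg) {T : ℕ → Finset ℕ} (hT : ∀ n, ∀ p ∈ T n, p.Prime)
    {θ : ℕ → ℕ → ℂ} {B : ℝ} (hB : ∀ᶠ n in atTop, ∑ q ∈ T n, ‖1 - θ n q‖ ^ 2 * wt q ≤ B)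
    (hD : ∀ ε : ℝ, 0 < ε → ∃ P : ℕ, ∀ᶠ n in atTop, ∀ x ≥ P,
      ∑ p ∈ (T n).filter (fun p => x < p ∧ p ≤ 2 * x), wt p ≤ ε)
    (hC : ∀ ε : ℝ, 0 < ε → ∃ P : ℕ, ∀ᶠ n in atTop, dg * Cl a (θ n) ((T n).filter (fun p => P ≤ p)) ≤ ε) :
    ∀ K : ℕ, 2 ≤ K → ∀ ε : ℝ, 0 < ε → ∃ P : ℕ, ∀ᶠ n in atTop,
      D a K dg (θ n) ((T n).filter (fun p => P ≤ p)) + R (θ n) ((T n).filter (fun p => P ≤ p)) ≤ ε := by
  intro K hK ε hε
  have hB0 : 0 < |B| + 1 := by positivity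
  set δ := ε / (3 * ((K + 1 : ℕ) * (|B| + 1))) with hδ
  have hδ0 : 0 < δ := by positivity
  obtain ⟨P1, hP1⟩ := hD δ hδ0
  obtain ⟨P2, hP2⟩ := hC (ε / 3) (by positivity)
  obtain ⟨P3, hP3⟩ := tail ((ε / 3) ^ 2 / (|B| + 1)) (by positivity)
  refine ⟨K * (P1 + 1) + P2 + P3 + 3, ?_⟩
  filter_upwards [hB, hP1, hP2] with n hBn h1 h2
  set S := (T n).filter (fun p => K * (P1 + 1) + P2 + P3 + 3 ≤ p) with hS
  have hST : S ⊆ T n := filter_subset _ _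
  have hSm : ∀ p ∈ S, p.Prime ∧ K * (P1 + 1) + P2 + P3 + 3 ≤ p := by
    intro p hp
    rw [hS, mem_filter] at hp
    exact ⟨hT n p hp.1, hp.2⟩
  have hSB : ∑ q ∈ S, ‖1 - θ n q‖ ^ 2 * wt q ≤ |B| + 1 := by
    refine (sum_le_sum_of_subset_of_nonneg hST fun q _ _ => mul_nonneg (by positivity) (wt_nonneg q)).trans ?_
    have := le_abs_self B
    linarith
  have hSB0 : 0 ≤ ∑ q ∈ S, ‖1 - θ n q‖ ^ 2 * wt q := sum_nonneg fun q _ => mul_nonneg (by positivity) (wt_nonneg q)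
  have hdy : ∀ x ≥ P1, ∑ p ∈ S.filter (fun p => x < p ∧ p ≤ 2 * x), wt p ≤ δ := by
    intro x hx
    exact (sum_le_sum_of_subset_of_nonneg (filter_subset_filter _ hST) fun p _ _ => wt_nonneg p).trans (h1 x hx)
  have hDle := D_le (a := a) (K := K) (by omega) hdg (θ n) hdy fun p hp => by have := (hSm p hp).2; omega
  have hCle : dg * Cl a (θ n) S ≤ ε / 3 := by
    refine (mul_le_mul_of_nonneg_left (Cl_mono a (θ n) ?_) hdg).trans h2
    intro p hp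
    rw [hS, mem_filter] at hp
    rw [mem_filter]
    exact ⟨hp.1, by omega⟩
  have hR : R (θ n) S ≤ ε / 3 := by
    have h3 := R_sq_le (θ := θ n) (S := S) fun p hp => by have := (hSm p hp).2; omega
    have h4 := hP3 S fun p hp => ⟨(hSm p hp).1, by have := (hSm p hp).2; omega⟩
    have h5 : R (θ n) S ^ 2 ≤ (ε / 3) ^ 2 := by
      refine h3.trans ?_
      calc _ ≤ (|B| + 1) * ((ε / 3) ^ 2 / (|B| + 1)) := by
            refine mul_le_mul hSB h4 (sum_nonneg fun q _ => ?_) hB0.le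
            have := Real.log_natCast_nonneg q
            positivity
        _ = _ := by field_simp
    exact le_of_sq_le_sq h5 (by positivity)
  have h6 : ((K + 1 : ℕ) : ℝ) * δ * (∑ q ∈ S, ‖1 - θ n q‖ ^ 2 * wt q) ≤ ε / 3 := by
    calc ((K + 1 : ℕ) : ℝ) * δ * (∑ q ∈ S, ‖1 - θ n q‖ ^ 2 * wt q) ≤ ((K + 1 : ℕ) : ℝ) * δ * (|B| + 1) := by gcongr
      _ = ε / 3 := by rw [hδ]; field_simp
  linarith

end Pool.Agent.J6H29.PL
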