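import Mathlib
import Pool.Agent.J6H29.PL.Cond

/-!
# Disjoint families of exponents
-/

set_option autoImplicit false

namespace Pool.Agent.J6H29.PL

open Finset Filter Topology MeasureTheory
open Pool.Agent.N176.OW (kap)
open Pool.Agent.N176.SH (WW)

/-- the weight of a set -/
noncomputable def V (T : Finset ℕ) : ℝ := ∑ p ∈ T, wt p

/-- the weight of the clusters -/
noncomputable def clus (a : ℕ) (U : Finset ℕ) : ℝ :=
  ∑ q ∈ U, ∑ p ∈ U.filter (fun p => p < q), wt p / (a : ℝ) ^ (q - p)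

lemma V_nonneg (T : Finset ℕ) : 0 ≤ V T := sum_nonneg fun p _ => wt_nonneg p

lemma clus_nonneg (a : ℕ) (U : Finset ℕ) : 0 ≤ clus a U :=
  sum_nonneg fun q _ => sum_nonneg fun p _ => div_nonneg (wt_nonneg p) (by positivity)

open Classical in
/-- the number of the exponents -/
noncomputable def Nn (a : ℕ) (b : ℤ) (T : Finset ℕ) (x : ℝ) : ℕ := (T.filter (fun p => (WW a b x p).Prime)).card

/-- the colouring -/
noncomputable def col {k : ℕ} (T : Fin k → Finset ℕ) (z : Fin k → ℂ) (p : ℕ) : ℂ :=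
  ∏ j, if p ∈ T j then z j else 1

lemma norm_col_le {k : ℕ} (T : Fin k → Finset ℕ) {z : Fin k → ℂ} (hz : ∀ j, ‖z j‖ ≤ 1) (p : ℕ) :
    ‖col T z p‖ ≤ 1 := by
  unfold col
  refine norm_prod_le_one _ _ fun j _ => ?_
  split_ifs
  · exact hz j
  · simp

lemma col_eq {k : ℕ} {T : Fin k → Finset ℕ} (hT : Pairwise fun i j => Disjoint (T i) (T j)) (z : Fin k → ℂ)
    {p : ℕ} {i : Fin k} (hp : p ∈ T i) : col T z p = z i := by
  classical
  unfold col
  rw [prod_eq_single i]
  · rw [if_pos hp]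
  · intro j _ hji
    rw [if_neg]
    intro hj
    exact Finset.disjoint_left.1 (hT hji) hj hp
  · intro h
    exact absurd (mem_univ i) h

lemma Z_col {k : ℕ} {T : Fin k → Finset ℕ} (hT : Pairwise fun i j => Disjoint (T i) (T j)) (z : Fin k → ℂ)
    (a : ℕ) (b : ℤ) (x : ℝ) : Z a b (col T z) (univ.biUnion T) x = ∏ j, z j ^ Nn a b (T j) x := by
  classical
  unfold Z
  rw [prod_biUnion fun i _ j _ hij => hT hij]
  refine prod_congr rfl fun j _ => ?_
  rw [prod_congr rfl fun p hp => by rw [col_eq hT z hp]]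
  unfold Nn
  rw [← prod_filter, prod_const]

lemma G_col {k : ℕ} {T : Fin k → Finset ℕ} (hT : Pairwise fun i j => Disjoint (T i) (T j)) (z : Fin k → ℂ)
    (a : ℕ) : G a (col T z) (univ.biUnion T) = Complex.exp (-((kap a : ℝ) * ∑ j, (1 - z j) * (V (T j) : ℝ))) := by
  classical
  unfold G
  congr 3
  rw [sum_biUnion fun i _ j _ hij => hT hij]
  refine sum_congr rfl fun j _ => ?_
  rw [sum_congr rfl fun p hp => by rw [col_eq hT z hp], ← mul_sum]
  unfold V
  push_cast
  rfl

/-- **Limit theorem for disjoint families.** -/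
theorem fam {a : ℕ} {b : ℤ} (hb1 : 1 ≤ |b|) (hba : |b| < a) {k : ℕ} {T : ℕ → Fin k → Finset ℕ}
    (hT : ∀ n j, ∀ p ∈ T n j, p.Prime) (hdis : ∀ n, Pairwise fun i j => Disjoint (T n i) (T n j))
    {z : ℕ → Fin k → ℂ} (hz : ∀ n j, ‖z n j‖ ≤ 1)
    (h1 : ∀ p j, Tendsto (fun n => if p ∈ T n j then ‖1 - z n j‖ else 0) atTop (𝓝 0))
    (hB : ∃ B : ℝ, ∀ᶠ n in atTop, ∀ j, ‖1 - z n j‖ ^ 2 * V (T n j) ≤ B)
    (hD : ∀ ε : ℝ, 0 < ε → ∃ P : ℕ, ∀ᶠ n in atTop, ∀ j, ∀ x ≥ P,
      ∑ p ∈ (T n j).filter (fun p => x < p ∧ p ≤ 2 * x), wt p ≤ ε)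
    (hC : |b| = 1 → ∀ j, Tendsto (fun n => ‖1 - z n j‖ ^ 2 * clus a (univ.biUnion (T n))) atTop (𝓝 0))
    (ν : Measure ℝ) [IsProbabilityMeasure ν] (hν : ν ≪ volume) (h0 : ν (Set.Iic 0) = 0) :
    Tendsto (fun n => ∫ x, ∏ j, z n j ^ Nn a b (T n j) x ∂ν -
      Complex.exp (-((kap a : ℝ) * ∑ j, (1 - z n j) * (V (T n j) : ℝ)))) atTop (𝓝 0) := by
  classical
  obtain ⟨B, hB⟩ := hB
  set U : ℕ → Finset ℕ := fun n => univ.biUnion (T n) with hU
  set θ : ℕ → ℕ → ℂ := fun n => col (T n) (z n) with hθ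
  set dg : ℝ := if |b| = 1 then 1 else 0 with hdg
  have hdg0 : 0 ≤ dg := by rw [hdg]; split_ifs <;> norm_num
  have hmem : ∀ n p, p ∈ U n → ∃ j, p ∈ T n j := by
    intro n p hp
    simp only [hU, mem_biUnion, mem_univ, true_and] at hp
    exact hp
  have key := func (T := U) (θ := θ) hb1 hba (dg := dg) ?_ ?_ ?_ ?_ ?_ ν hν h0
  · refine key.congr fun n => ?_
    rw [G_col (hdis n)]
    congr 1
    exact integral_congr_ae (Eventually.of_forall fun x => Z_col (hdis n) (z n) a b x)
  · rw [hdg]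
    by_cases h : |b| = 1
    · rw [if_pos h]; exact Or.inl rfl
    · rw [if_neg h]; exact Or.inr ⟨rfl, by omega⟩
  · intro n p hp
    obtain ⟨j, hj⟩ := hmem n p hp
    exact hT n j p hj
  · exact fun n p => norm_col_le _ (hz n) p
  · intro p
    have h2 : Tendsto (fun n => ∑ j, if p ∈ T n j then ‖1 - z n j‖ else 0) atTop (𝓝 0) := by
      have := tendsto_finsetSum (univ : Finset (Fin k)) (fun j _ => h1 p j)
      rwa [sum_const_zero] at this
    refine squeeze_zero (fun n => ?_) (fun n => ?_) h2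
    · split_ifs
      · exact norm_nonneg _
      · exact le_rfl
    · split_ifs with h3
      · obtain ⟨j, hj⟩ := hmem n p h3
        simp only [hθ]
        rw [col_eq (hdis n) (z n) hj]
        have h4 : ‖1 - z n j‖ = if p ∈ T n j then ‖1 - z n j‖ else 0 := by rw [if_pos hj]
        rw [h4]
        exact single_le_sum (f := fun j => if p ∈ T n j then ‖1 - z n j‖ else 0)
          (fun i _ => by split_ifs; exacts [norm_nonneg _, le_rfl]) (mem_univ j)
      · exact sum_nonneg fun i _ => by split_ifs; exacts [norm_nonneg _, le_rfl]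
  · refine cond (B := k * B) hdg0 ?_ ?_ ?_ ?_
    · intro n p hp
      obtain ⟨j, hj⟩ := hmem n p hp
      exact hT n j p hj
    · filter_upwards [hB] with n hn
      simp only [hU]
      rw [sum_biUnion fun i _ j _ hij => hdis n hij]
      calc ∑ j, ∑ q ∈ T n j, ‖1 - θ n q‖ ^ 2 * wt q ≤ ∑ _j : Fin k, B := by
            refine sum_le_sum fun j _ => ?_
            refine le_trans (le_of_eq ?_) (hn j)
            unfold V
            rw [mul_sum]
            refine sum_congr rfl fun q hq => ?_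
            simp only [hθ]
            rw [col_eq (hdis n) (z n) hq]
        _ = k * B := by rw [sum_const, card_univ, Fintype.card_fin, nsmul_eq_mul]
    · intro ε hε
      obtain ⟨P, hP⟩ := hD (ε / (k + 1)) (by positivity)
      refine ⟨P, ?_⟩
      filter_upwards [hP] with n hn x hx
      have h2 : (U n).filter (fun p => x < p ∧ p ≤ 2 * x) =
          univ.biUnion (fun j => (T n j).filter (fun p => x < p ∧ p ≤ 2 * x)) := by
        ext p
        simp only [hU, mem_filter, mem_biUnion, mem_univ, true_and]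
        constructor
        · rintro ⟨⟨j, hj⟩, h3⟩
          exact ⟨j, hj, h3⟩
        · rintro ⟨j, hj, h3⟩
          exact ⟨⟨j, hj⟩, h3⟩
      rw [h2, sum_biUnion fun i _ j _ hij => Finset.disjoint_of_subset_left (filter_subset _ _)
        (Finset.disjoint_of_subset_right (filter_subset _ _) (hdis n hij))]
      calc ∑ j, ∑ p ∈ (T n j).filter (fun p => x < p ∧ p ≤ 2 * x), wt p ≤ ∑ _j : Fin k, ε / (k + 1) :=
            sum_le_sum fun j _ => hn j x hx
        _ = k * (ε / (k + 1)) := by rw [sum_const, card_univ, Fintype.card_fin, nsmul_eq_mul]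
        _ ≤ ε := by
            rw [← mul_div_assoc, div_le_iff₀ (by positivity)]
            nlinarith
    · intro ε hε
      by_cases hb : |b| = 1
      swap
      · refine ⟨0, Eventually.of_forall fun n => ?_⟩
        rw [hdg, if_neg hb, zero_mul]
        exact hε.le
      have h2 : Tendsto (fun n => ∑ j, ‖1 - z n j‖ ^ 2 * clus a (U n)) atTop (𝓝 0) := by
        have := tendsto_finsetSum (univ : Finset (Fin k)) (fun j _ => hC hb j)
        rwa [sum_const_zero] at this
      refine ⟨0, ?_⟩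
      filter_upwards [h2.eventually_lt_const hε] with n hn
      rw [hdg, if_pos hb, one_mul]
      refine (Cl_mono a (θ n) (filter_subset _ _)).trans (le_trans ?_ hn.le)
      rw [← sum_mul]
      unfold Cl clus
      rw [mul_sum]
      refine sum_le_sum fun q hq => ?_
      rw [mul_sum]
      refine sum_le_sum fun p hp => ?_
      have hη : ∀ r ∈ U n, ‖1 - θ n r‖ ^ 2 ≤ ∑ j, ‖1 - z n j‖ ^ 2 := by
        intro r hr
        obtain ⟨j, hj⟩ := hmem n r hr
        simp only [hθ]
        rw [col_eq (hdis n) (z n) hj]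
        exact single_le_sum (f := fun j => ‖1 - z n j‖ ^ 2) (fun i _ => by positivity) (mem_univ j)
      have h3 := hη q hq
      have h4 := hη p (mem_filter.1 hp).1
      have h5 : ‖1 - θ n p‖ * ‖1 - θ n q‖ ≤ ∑ j, ‖1 - z n j‖ ^ 2 := by
        nlinarith [sq_nonneg (‖1 - θ n p‖ - ‖1 - θ n q‖)]
      have h6 : 0 ≤ wt p * ((a : ℝ) ^ (q - p))⁻¹ := mul_nonneg (wt_nonneg p) (by positivity)
      rw [div_eq_mul_inv]
      exact mul_le_mul_of_nonneg_right h5 h6

end Pool.Agent.J6H29.PL
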