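import Mathlib

/-!
# Generating functions of vectors of counts
-/

set_option autoImplicit false

namespace Pool.Agent.J6H29.PL

open Finset Filter Topology MeasureTheory

/-- coefficients of power series which tend to zero -/
theorem coef {γ : ℕ → ℕ → ℝ} (hγ : ∀ n j, |γ n j| ≤ 2)
    (h : ∀ θ : ℝ, 0 < θ → θ ≤ 1 / 2 → Tendsto (fun n => ∑' j, γ n j * θ ^ j) atTop (𝓝 0)) :
    ∀ k, Tendsto (fun n => γ n k) atTop (𝓝 0) := by
  intro k
  induction k using Nat.strong_induction_on with
  | _ k ih =>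
    rw [Metric.tendsto_atTop]
    intro ε hε
    set θ : ℝ := min (1 / 2) (ε / 16) with hθd
    have hθ : 0 < θ := lt_min (by norm_num) (by positivity)
    have hθ2 : θ ≤ 1 / 2 := min_le_left _ _
    have hθε : θ ≤ ε / 16 := min_le_right _ _
    have hθ1 : θ < 1 := by linarith
    have hgeo := hasSum_geometric_of_lt_one hθ.le hθ1
    have hsm : ∀ n, Summable (fun j => γ n j * θ ^ j) := by
      intro n
      refine Summable.of_norm_bounded (g := fun j => 2 * θ ^ j) (hgeo.summable.mul_left 2) fun j => ?_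
      rw [Real.norm_eq_abs, abs_mul, abs_of_pos (pow_pos hθ j)]
      exact mul_le_mul_of_nonneg_right (hγ n j) (pow_pos hθ j).le
    have htail : ∀ n, |∑' j, γ n (j + (k + 1)) * θ ^ (j + (k + 1))| ≤ 4 * θ ^ (k + 1) := by
      intro n
      have h1 : HasSum (fun j => 2 * θ ^ (k + 1) * θ ^ j) (2 * θ ^ (k + 1) * (1 - θ)⁻¹) := hgeo.mul_left _
      have h2 := tsum_of_norm_bounded (f := fun j => γ n (j + (k + 1)) * θ ^ (j + (k + 1))) h1 fun j => by
        rw [Real.norm_eq_abs, abs_mul, abs_of_pos (pow_pos hθ _), pow_add]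
        have h3 := hγ n (j + (k + 1))
        have h4 : 0 < θ ^ j * θ ^ (k + 1) := by positivity
        nlinarith
      rw [Real.norm_eq_abs] at h2
      refine h2.trans ?_
      have h5 : (1 - θ)⁻¹ ≤ 2 := by
        rw [inv_le_comm₀ (by linarith) (by norm_num)]
        linarith
      have h6 : 0 < θ ^ (k + 1) := by positivity
      nlinarith
    have hlim : Tendsto (fun n => (|∑' j, γ n j * θ ^ j| + ∑ j ∈ range k, |γ n j|) / θ ^ k) atTop (𝓝 0) := by
      have h1 : Tendsto (fun n => |∑' j, γ n j * θ ^ j|) atTop (𝓝 0) := by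
        have := (h θ hθ hθ2).abs
        rwa [abs_zero] at this
      have h2 : Tendsto (fun n => ∑ j ∈ range k, |γ n j|) atTop (𝓝 0) := by
        have := tendsto_finsetSum (range k) (fun j hj => (ih j (mem_range.1 hj)).abs)
        simpa using this
      have := (h1.add h2).div_const (θ ^ k)
      rwa [add_zero, zero_div] at this
    obtain ⟨M, hM⟩ := Metric.tendsto_atTop.1 hlim (ε / 2) (by positivity)
    refine ⟨M, fun n hn => ?_⟩
    have k1 := hM n hn
    rw [dist_zero_right, Real.norm_eq_abs] at k1 ⊢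
    have k2 := (le_abs_self _).trans_lt k1
    have hk0 : 0 < θ ^ k := by positivity
    rw [div_lt_iff₀ hk0] at k2
    have k3 := (hsm n).sum_add_tsum_nat_add (k + 1)
    rw [sum_range_succ] at k3
    have k4 : γ n k * θ ^ k = ∑' j, γ n j * θ ^ j - ∑ j ∈ range k, γ n j * θ ^ j -
        ∑' j, γ n (j + (k + 1)) * θ ^ (j + (k + 1)) := by linarith
    have k5 : |∑ j ∈ range k, γ n j * θ ^ j| ≤ ∑ j ∈ range k, |γ n j| := by
      refine (abs_sum_le_sum_abs _ _).trans (sum_le_sum fun j _ => ?_)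
      rw [abs_mul, abs_of_pos (pow_pos hθ j)]
      have := pow_le_one₀ hθ.le hθ1.le (n := j)
      nlinarith [abs_nonneg (γ n j)]
    have k6 : |γ n k| * θ ^ k ≤ |∑' j, γ n j * θ ^ j| + ∑ j ∈ range k, |γ n j| + 4 * θ ^ (k + 1) := by
      have : |γ n k| * θ ^ k = |γ n k * θ ^ k| := by rw [abs_mul, abs_of_pos hk0]
      rw [this, k4]
      have e1 := abs_sub (∑' j, γ n j * θ ^ j - ∑ j ∈ range k, γ n j * θ ^ j)
        (∑' j, γ n (j + (k + 1)) * θ ^ (j + (k + 1)))
      have e2 := abs_sub (∑' j, γ n j * θ ^ j) (∑ j ∈ range k, γ n j * θ ^ j)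
      have e3 := htail n
      linarith
    have k7 : |γ n k| * θ ^ k < (ε / 2 + 4 * θ) * θ ^ k := by
      rw [pow_succ] at k6
      nlinarith
    have k8 := lt_of_mul_lt_mul_right k7 hk0.le
    linarith

variable {Ω : Type*} [MeasurableSpace Ω]

/-- the weights of the Poisson law -/
noncomputable def pois (l : ℝ) (r : ℕ) : ℝ := Real.exp (-l) * l ^ r / (r.factorial : ℝ)

lemma pois_nonneg {l : ℝ} (hl : 0 ≤ l) (r : ℕ) : 0 ≤ pois l r := by unfold pois; positivity

lemma hasSum_pois (l θ : ℝ) : HasSum (fun r => pois l r * θ ^ r) (Real.exp (-(l * (1 - θ)))) := by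
  have h1 : HasSum (fun r : ℕ => (l * θ) ^ r / (r.factorial : ℝ)) (Real.exp (l * θ)) := by
    rw [Real.exp_eq_exp_ℝ]
    exact NormedSpace.expSeries_div_hasSum_exp (l * θ)
  have h2 := h1.mul_left (Real.exp (-l))
  rw [← Real.exp_add] at h2
  have e : -l + l * θ = -(l * (1 - θ)) := by ring
  rw [e] at h2
  have e2 : (fun r => pois l r * θ ^ r) = fun r : ℕ => Real.exp (-l) * ((l * θ) ^ r / (r.factorial : ℝ)) := by
    funext r
    unfold pois
    rw [mul_pow]
    ring
  rw [e2]
  exact h2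

lemma pois_le_one {l : ℝ} (hl : 0 ≤ l) (r : ℕ) : pois l r ≤ 1 := by
  have h := hasSum_pois l 1
  simp only [one_pow, mul_one, sub_self, mul_zero, neg_zero, Real.exp_zero] at h
  exact le_hasSum h r fun s _ => pois_nonneg hl s

/-- the test functions -/
noncomputable def tf {k : ℕ} (A : Finset (Fin k)) (θ : Fin k → ℝ) (r : Fin k → ℕ) (j : Fin k) (m : ℕ) : ℝ :=
  if j ∈ A then (if m = r j then 1 else 0) else θ j ^ m

/-- their means -/
noncomputable def tc {k : ℕ} (A : Finset (Fin k)) (θ : Fin k → ℝ) (r : Fin k → ℕ) (l : Fin k → ℝ)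
    (j : Fin k) : ℝ := if j ∈ A then pois (l j) (r j) else Real.exp (-(l j * (1 - θ j)))

lemma tf_nonneg {k : ℕ} (A : Finset (Fin k)) {θ : Fin k → ℝ} (hθ : ∀ j, 0 ≤ θ j ∧ θ j ≤ 1) (r : Fin k → ℕ)
    (j : Fin k) (m : ℕ) : 0 ≤ tf A θ r j m := by
  unfold tf
  have := (hθ j).1
  split_ifs
  · norm_num
  · norm_num
  · positivity

lemma tf_le_one {k : ℕ} (A : Finset (Fin k)) {θ : Fin k → ℝ} (hθ : ∀ j, 0 ≤ θ j ∧ θ j ≤ 1) (r : Fin k → ℕ)
    (j : Fin k) (m : ℕ) : tf A θ r j m ≤ 1 := by
  unfold tf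
  split_ifs
  · norm_num
  · norm_num
  · exact pow_le_one₀ (hθ j).1 (hθ j).2

lemma tc_nonneg {k : ℕ} (A : Finset (Fin k)) (θ : Fin k → ℝ) (r : Fin k → ℕ) {l : Fin k → ℝ}
    (hl : ∀ j, 0 ≤ l j) (j : Fin k) : 0 ≤ tc A θ r l j := by
  unfold tc
  split_ifs
  · exact pois_nonneg (hl j) _
  · exact (Real.exp_pos _).le

lemma tc_le_one {k : ℕ} (A : Finset (Fin k)) {θ : Fin k → ℝ} (hθ : ∀ j, 0 ≤ θ j ∧ θ j ≤ 1) (r : Fin k → ℕ)
    {l : Fin k → ℝ} (hl : ∀ j, 0 ≤ l j) (j : Fin k) : tc A θ r l j ≤ 1 := by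
  unfold tc
  split_ifs
  · exact pois_le_one (hl j) _
  · rw [Real.exp_le_one_iff, neg_nonpos]
    exact mul_nonneg (hl j) (by have := (hθ j).2; linarith)

theorem pgf_aux {k : ℕ} (ν : Measure Ω) [IsProbabilityMeasure ν] {N : ℕ → Fin k → Ω → ℕ}
    (hN : ∀ n j, Measurable (N n j)) {M : ℕ → ℕ} (hM : ∀ n j ω, N n j ω ≤ M n) {l : Fin k → ℝ}
    (hl : ∀ j, 0 ≤ l j)
    (h : ∀ θ : Fin k → ℝ, (∀ j, 0 ≤ θ j ∧ θ j ≤ 1) →
      Tendsto (fun n => ∫ ω, ∏ j, θ j ^ N n j ω ∂ν) atTop (𝓝 (∏ j, Real.exp (-(l j * (1 - θ j)))))) :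
    ∀ A : Finset (Fin k), ∀ θ : Fin k → ℝ, (∀ j, 0 ≤ θ j ∧ θ j ≤ 1) → ∀ r : Fin k → ℕ,
      Tendsto (fun n => ∫ ω, ∏ j, tf A θ r j (N n j ω) ∂ν) atTop (𝓝 (∏ j, tc A θ r l j)) := by
  classical
  intro A
  induction A using Finset.induction_on with
  | empty =>
    intro θ hθ r
    have := h θ hθ
    simpa [tf, tc] using this
  | insert i A hi ih =>
    intro θ hθ r
    set Q : ℕ → Ω → ℝ := fun n ω => ∏ j ∈ univ.erase i, tf A θ r j (N n j ω) with hQ
    set C : ℝ := ∏ j ∈ univ.erase i, tc A θ r l j with hC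
    have hQ0 : ∀ n ω, 0 ≤ Q n ω := fun n ω => prod_nonneg fun j _ => tf_nonneg A hθ r j _
    have hQ1 : ∀ n ω, Q n ω ≤ 1 := fun n ω => prod_le_one (fun j _ => tf_nonneg A hθ r j _)
      fun j _ => tf_le_one A hθ r j _
    have hC0 : 0 ≤ C := prod_nonneg fun j _ => tc_nonneg A θ r hl j
    have hC1 : C ≤ 1 := prod_le_one (fun j _ => tc_nonneg A θ r hl j) fun j _ => tc_le_one A hθ r hl j
    have hQm : ∀ n, Measurable (Q n) := by
      intro n
      refine Finset.measurable_prod _ fun j _ => ?_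
      exact (measurable_from_nat (f := fun m => tf A θ r j m)).comp (hN n j)
    have hIm : ∀ n s, Measurable (fun ω => if N n i ω = s then (1 : ℝ) else 0) := fun n s =>
      (measurable_from_nat (f := fun m => if m = s then (1 : ℝ) else 0)).comp (hN n i)
    have hint : ∀ n s, Integrable (fun ω => (if N n i ω = s then (1 : ℝ) else 0) * Q n ω) ν := by
      intro n s
      refine Integrable.of_bound ((hIm n s).mul (hQm n)).aestronglyMeasurable 1 (Eventually.of_forall fun ω => ?_)
      rw [Real.norm_eq_abs, abs_mul, abs_of_nonneg (hQ0 n ω)]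
      have h1 := hQ0 n ω
      have h2 := hQ1 n ω
      split_ifs
      · rw [abs_one, one_mul]; exact h2
      · rw [abs_zero, zero_mul]; norm_num
    set γ : ℕ → ℕ → ℝ := fun n s => ∫ ω, (if N n i ω = s then (1 : ℝ) else 0) * Q n ω ∂ν -
      pois (l i) s * C with hγ
    have hb : ∀ n s, |∫ ω, (if N n i ω = s then (1 : ℝ) else 0) * Q n ω ∂ν| ≤ 1 := by
      intro n s
      have h1 := norm_integral_le_of_norm_le_const (μ := ν) (C := 1)
        (f := fun ω => (if N n i ω = s then (1 : ℝ) else 0) * Q n ω) (Eventually.of_forall fun ω => by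
          rw [Real.norm_eq_abs, abs_mul, abs_of_nonneg (hQ0 n ω)]
          have h2 := hQ1 n ω
          split_ifs
          · rw [abs_one, one_mul]; exact h2
          · rw [abs_zero, zero_mul]; norm_num)
      rw [probReal_univ, mul_one] at h1
      exact h1
    have hγ2 : ∀ n s, |γ n s| ≤ 2 := by
      intro n s
      have h1 := pois_nonneg (hl i) s
      have h2 := pois_le_one (hl i) s
      have h3 : |pois (l i) s * C| ≤ 1 := by
        rw [abs_of_nonneg (mul_nonneg h1 hC0)]
        nlinarith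
      refine (abs_sub _ _).trans ?_
      linarith [hb n s]
    have hlim : ∀ ϑ : ℝ, 0 < ϑ → ϑ ≤ 1 / 2 → Tendsto (fun n => ∑' s, γ n s * ϑ ^ s) atTop (𝓝 0) := by
      intro ϑ h1 h2
      set θ' := Function.update θ i ϑ with hθ'
      have hθ'0 : ∀ j, 0 ≤ θ' j ∧ θ' j ≤ 1 := by
        intro j
        rcases eq_or_ne j i with rfl | hji
        · rw [hθ', Function.update_self]
          constructor <;> linarith
        · rw [hθ', Function.update_of_ne hji]
          exact hθ j
      have h3 := ih θ' hθ'0 r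
      have e1 : ∀ n ω, ∏ j, tf A θ' r j (N n j ω) = ϑ ^ N n i ω * Q n ω := by
        intro n ω
        rw [← mul_prod_erase univ _ (mem_univ i)]
        congr 1
        · unfold tf
          rw [if_neg hi, hθ', Function.update_self]
        · refine prod_congr rfl fun j hj => ?_
          unfold tf
          rw [hθ', Function.update_of_ne (ne_of_mem_erase hj)]
      have e2 : ∏ j, tc A θ' r l j = Real.exp (-(l i * (1 - ϑ))) * C := by
        rw [← mul_prod_erase univ _ (mem_univ i)]
        congr 1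
        · unfold tc
          rw [if_neg hi, hθ', Function.update_self]
        · refine prod_congr rfl fun j hj => ?_
          unfold tc
          rw [hθ', Function.update_of_ne (ne_of_mem_erase hj)]
      rw [e2] at h3
      have e3 : ∀ n, HasSum (fun s => (∫ ω, (if N n i ω = s then (1 : ℝ) else 0) * Q n ω ∂ν) * ϑ ^ s)
          (∫ ω, ∏ j, tf A θ' r j (N n j ω) ∂ν) := by
        intro n
        have h4 : ∫ ω, ∏ j, tf A θ' r j (N n j ω) ∂ν =
            ∑ s ∈ range (M n + 1), (∫ ω, (if N n i ω = s then (1 : ℝ) else 0) * Q n ω ∂ν) * ϑ ^ s := by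
          rw [integral_congr_ae (Eventually.of_forall (e1 n))]
          have h5 : ∀ ω, ϑ ^ N n i ω * Q n ω =
              ∑ s ∈ range (M n + 1), ((if N n i ω = s then (1 : ℝ) else 0) * Q n ω) * ϑ ^ s := by
            intro ω
            rw [sum_eq_single_of_mem (N n i ω) (mem_range.2 (by have := hM n i ω; omega))]
            · rw [if_pos rfl]; ring
            · intro s _ hs
              rw [if_neg (Ne.symm hs)]; ring
          simp only [h5]
          rw [integral_finset_sum _ fun s _ => (hint n s).mul_const _]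
          refine sum_congr rfl fun s _ => ?_
          rw [integral_mul_const]
        rw [h4]
        refine hasSum_sum_of_ne_finset_zero fun s hs => ?_
        have h5 : ∀ ω, (if N n i ω = s then (1 : ℝ) else 0) * Q n ω = 0 := by
          intro ω
          rw [if_neg, zero_mul]
          intro h6
          apply hs
          rw [mem_range, ← h6]
          have := hM n i ω
          omega
        simp [h5]
      have e4 : ∀ n, ∑' s, γ n s * ϑ ^ s = ∫ ω, ∏ j, tf A θ' r j (N n j ω) ∂ν -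
          Real.exp (-(l i * (1 - ϑ))) * C := by
        intro n
        have h5 := ((e3 n).sub ((hasSum_pois (l i) ϑ).mul_right C)).tsum_eq
        rw [← h5]
        refine tsum_congr fun s => ?_
        simp only [hγ]
        ring
      simp only [e4]
      have := h3.sub_const (Real.exp (-(l i * (1 - ϑ))) * C)
      rwa [sub_self] at this
    have hfin := coef hγ2 hlim (r i)
    have hfin2 := hfin.add_const (pois (l i) (r i) * C)
    rw [zero_add] at hfin2
    have e5 : ∏ j, tc (insert i A) θ r l j = pois (l i) (r i) * C := by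
      rw [← mul_prod_erase univ _ (mem_univ i)]
      congr 1
      · unfold tc
        rw [if_pos (mem_insert_self _ _)]
      · refine prod_congr rfl fun j hj => ?_
        unfold tc
        have hji := ne_of_mem_erase hj
        simp only [mem_insert, hji, false_or]
    rw [e5]
    refine hfin2.congr fun n => ?_
    simp only [hγ, sub_add_cancel]
    refine integral_congr_ae (Eventually.of_forall fun ω => ?_)
    show (if N n i ω = r i then (1 : ℝ) else 0) * Q n ω = ∏ j, tf (insert i A) θ r j (N n j ω)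
    rw [← mul_prod_erase univ _ (mem_univ i)]
    congr 1
    · unfold tf
      rw [if_pos (mem_insert_self _ _)]
    · refine prod_congr rfl fun j hj => ?_
      unfold tf
      have hji := ne_of_mem_erase hj
      simp only [mem_insert, hji, false_or]

/-- **Convergence to independent Poisson laws.** -/
theorem pgf {k : ℕ} (ν : Measure Ω) [IsProbabilityMeasure ν] {N : ℕ → Fin k → Ω → ℕ}
    (hN : ∀ n j, Measurable (N n j)) {M : ℕ → ℕ} (hM : ∀ n j ω, N n j ω ≤ M n) {l : Fin k → ℝ}
    (hl : ∀ j, 0 ≤ l j)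
    (h : ∀ θ : Fin k → ℝ, (∀ j, 0 ≤ θ j ∧ θ j ≤ 1) →
      Tendsto (fun n => ∫ ω, ∏ j, θ j ^ N n j ω ∂ν) atTop (𝓝 (∏ j, Real.exp (-(l j * (1 - θ j))))))
    (r : Fin k → ℕ) :
    Tendsto (fun n => ν.real {ω | ∀ j, N n j ω = r j}) atTop (𝓝 (∏ j, pois (l j) (r j))) := by
  classical
  have h1 := pgf_aux ν hN hM hl h univ (fun _ => 0) (fun _ => ⟨le_rfl, zero_le_one⟩) r
  have e1 : ∏ j, tc univ (fun _ => 0) r l j = ∏ j, pois (l j) (r j) := by simp [tc]
  rw [e1] at h1
  refine h1.congr fun n => ?_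
  have hms : MeasurableSet {ω | ∀ j, N n j ω = r j} := by
    rw [Set.setOf_forall]
    exact MeasurableSet.iInter fun j => hN n j (measurableSet_singleton (r j))
  rw [← integral_indicator_one hms]
  refine integral_congr_ae (Eventually.of_forall fun ω => ?_)
  show ∏ j, tf univ (fun _ => 0) r j (N n j ω) = Set.indicator {ω | ∀ j, N n j ω = r j} 1 ω
  by_cases h2 : ∀ j, N n j ω = r j
  · rw [Set.indicator_of_mem (show ω ∈ {ω | ∀ j, N n j ω = r j} from h2)]
    simp [tf, h2]
  · rw [Set.indicator_of_notMem (show ω ∉ {ω | ∀ j, N n j ω = r j} from h2)]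
    push Not at h2
    obtain ⟨j, hj⟩ := h2
    refine prod_eq_zero (mem_univ j) ?_
    simp [tf, hj]

end Pool.Agent.J6H29.PL
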