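import Mathlib
import Pool.Agent.J6H29.PL.Fam
import Pool.Agent.J6H29.PL.PGF

/-!
# The Poisson law
-/

set_option autoImplicit false

namespace Pool.Agent.J6H29.PL

open Finset Filter Topology MeasureTheory
open Pool.Agent.N176.OW (kap)
open Pool.Agent.N176.SH (WW)

lemma Nn_meas (a : ℕ) (b : ℤ) (T : Finset ℕ) : Measurable (Nn a b T) := by
  classical
  have h : Nn a b T = fun x => ∑ p ∈ T, if (WW a b x p).Prime then 1 else 0 := by
    funext x
    unfold Nn
    rw [card_filter]
  rw [h]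
  refine Finset.measurable_sum _ fun p _ => ?_
  exact (measurable_from_nat (f := fun n : ℕ => if n.Prime then 1 else 0)).comp (WW_meas a b p)

lemma Nn_le (a : ℕ) (b : ℤ) (T : Finset ℕ) (x : ℝ) : Nn a b T x ≤ T.card := by
  classical
  unfold Nn
  exact card_filter_le _ _

/-- **The Poisson law for disjoint families.** -/
theorem poisson {a : ℕ} {b : ℤ} (hb1 : 1 ≤ |b|) (hba : |b| < a) {k : ℕ} {T : ℕ → Fin k → Finset ℕ}
    (hT : ∀ n j, ∀ p ∈ T n j, p.Prime) (hdis : ∀ n, Pairwise fun i j => Disjoint (T n i) (T n j))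
    (hmin : ∀ P : ℕ, ∀ᶠ n in atTop, ∀ j, ∀ p ∈ T n j, P ≤ p)
    (hD : ∀ ε : ℝ, 0 < ε → ∀ᶠ n in atTop, ∀ j, ∀ x : ℕ,
      ∑ p ∈ (T n j).filter (fun p => x < p ∧ p ≤ 2 * x), wt p ≤ ε)
    (hC : |b| = 1 → Tendsto (fun n => clus a (univ.biUnion (T n))) atTop (𝓝 0))
    {l : Fin k → ℝ} (hl : ∀ j, Tendsto (fun n => kap a * V (T n j)) atTop (𝓝 (l j)))
    (ν : Measure ℝ) [IsProbabilityMeasure ν] (hν : ν ≪ volume) (h0 : ν (Set.Iic 0) = 0) (r : Fin k → ℕ) :
    Tendsto (fun n => ν.real {x | ∀ j, Nn a b (T n j) x = r j}) atTop (𝓝 (∏ j, pois (l j) (r j))) := by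
  classical
  have ha : 2 ≤ a := by
    have h3 : (1 : ℤ) < a := lt_of_le_of_lt hb1 hba
    omega
  have hk := kap_pos ha
  have hl0 : ∀ j, 0 ≤ l j := fun j => ge_of_tendsto' (hl j) fun n => mul_nonneg hk.le (V_nonneg _)
  refine pgf ν (N := fun n j x => Nn a b (T n j) x) (fun n j => Nn_meas a b (T n j))
    (M := fun n => ∑ j, (T n j).card) (fun n j x => ?_) hl0 (fun θ hθ => ?_) r
  · exact (Nn_le a b (T n j) x).trans (single_le_sum (f := fun j => (T n j).card) (fun i _ => Nat.zero_le _)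
      (mem_univ j))
  · have hz1 : ∀ j, ‖((θ j : ℝ) : ℂ)‖ ≤ 1 := by
      intro j
      rw [Complex.norm_real, Real.norm_eq_abs, abs_of_nonneg (hθ j).1]
      exact (hθ j).2
    have hz2 : ∀ j, ‖1 - ((θ j : ℝ) : ℂ)‖ ≤ 1 := by
      intro j
      rw [← Complex.ofReal_one, ← Complex.ofReal_sub, Complex.norm_real, Real.norm_eq_abs,
        abs_of_nonneg (by linarith [(hθ j).2])]
      linarith [(hθ j).1]
    have hz3 : ∀ j, ‖1 - ((θ j : ℝ) : ℂ)‖ ^ 2 ≤ 1 := fun j => pow_le_one₀ (norm_nonneg _) (hz2 j)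
    have key := fam hb1 hba hT hdis (z := fun _ j => ((θ j : ℝ) : ℂ)) (fun _ j => hz1 j) ?_ ?_ ?_ ?_ ν hν h0
    · have h2 : Tendsto (fun n => Complex.exp (-((kap a : ℝ) * ∑ j, (1 - ((θ j : ℝ) : ℂ)) *
          (V (T n j) : ℝ)))) atTop (𝓝 (((∏ j, Real.exp (-(l j * (1 - θ j))) : ℝ)) : ℂ)) := by
        have h3 : Tendsto (fun n => ∑ j, (1 - θ j) * (kap a * V (T n j))) atTop
            (𝓝 (∑ j, (1 - θ j) * l j)) := tendsto_finsetSum _ fun j _ => (hl j).const_mul _
        have h4 := ((Real.continuous_exp.tendsto _).comp h3.neg)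
        have h5 := (Complex.continuous_ofReal.tendsto _).comp h4
        have e1 : Real.exp (-∑ j, (1 - θ j) * l j) = ∏ j, Real.exp (-(l j * (1 - θ j))) := by
          rw [← Real.exp_sum, sum_neg_distrib]
          congr 2
          exact sum_congr rfl fun j _ => mul_comm _ _
        rw [e1] at h5
        refine h5.congr fun n => ?_
        simp only [Function.comp]
        push_cast
        congr 2
        rw [mul_sum]
        refine sum_congr rfl fun j _ => ?_
        ring
      have h3 := key.add h2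
      rw [zero_add] at h3
      have h4 : Tendsto (fun n => (((∫ x, ∏ j, θ j ^ Nn a b (T n j) x ∂ν : ℝ)) : ℂ)) atTop
          (𝓝 (((∏ j, Real.exp (-(l j * (1 - θ j))) : ℝ)) : ℂ)) := by
        refine h3.congr fun n => ?_
        rw [sub_add_cancel, ← integral_complex_ofReal]
        refine integral_congr_ae (Eventually.of_forall fun x => ?_)
        push_cast
        rfl
      have h5 := (Complex.continuous_re.tendsto _).comp h4
      exact h5
    · intro p j
      refine tendsto_const_nhds.congr' ?_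
      filter_upwards [hmin (p + 1)] with n hn
      rw [if_neg]
      intro hp
      have := hn j p hp
      omega
    · refine ⟨∑ j, (|l j| + 1) / kap a, ?_⟩
      have h3 : ∀ j, ∀ᶠ n in atTop, V (T n j) ≤ (|l j| + 1) / kap a := by
        intro j
        filter_upwards [(hl j).eventually_lt_const (show l j < |l j| + 1 by
          have := le_abs_self (l j); linarith)] with n hn
        rw [le_div_iff₀ hk]
        linarith
      filter_upwards [eventually_all.2 h3] with n hn j
      calc ‖1 - ((θ j : ℝ) : ℂ)‖ ^ 2 * V (T n j) ≤ 1 * V (T n j) :=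
            mul_le_mul_of_nonneg_right (hz3 j) (V_nonneg _)
        _ = V (T n j) := one_mul _
        _ ≤ (|l j| + 1) / kap a := hn j
        _ ≤ _ := single_le_sum (f := fun j => (|l j| + 1) / kap a) (fun i _ => by positivity) (mem_univ j)
    · intro ε hε
      refine ⟨0, ?_⟩
      filter_upwards [hD ε hε] with n hn j x _
      exact hn j x
    · intro hb j
      refine squeeze_zero (fun n => mul_nonneg (by positivity) (clus_nonneg _ _)) (fun n => ?_) (hC hb)
      calc ‖1 - ((θ j : ℝ) : ℂ)‖ ^ 2 * clus a (univ.biUnion (T n)) ≤ 1 * clus a (univ.biUnion (T n)) :=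
            mul_le_mul_of_nonneg_right (hz3 j) (clus_nonneg _ _)
        _ = _ := one_mul _

end Pool.Agent.J6H29.PL
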