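import Mathlib
import Pool.Agent.J6H29.PL.Pois

/-!
# The central limit theorem
-/

set_option autoImplicit false

namespace Pool.Agent.J6H29.PL

open Finset Filter Topology MeasureTheory ProbabilityTheory
open Pool.Agent.N176.OW (kap)
open Pool.Agent.N176.SH (WW)
open scoped RealInnerProductSpace

/-- the expansion of the logarithm of the characteristic function -/
lemma expo_lim (s : ℝ) : Tendsto (fun y : ℝ => (y : ℂ) ^ 2 * (Complex.exp (Complex.I * (s / y : ℝ)) - 1) -
    Complex.I * (s * y : ℝ)) atTop (𝓝 (((-(s ^ 2 / 2) : ℝ)) : ℂ)) := by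
  rw [tendsto_iff_norm_sub_tendsto_zero]
  have h1 : Tendsto (fun y : ℝ => |s| ^ 3 / y) atTop (𝓝 0) := tendsto_const_nhds.div_atTop tendsto_id
  refine squeeze_zero' (Eventually.of_forall fun y => norm_nonneg _) ?_ h1
  filter_upwards [eventually_ge_atTop (|s| + 1)] with y hy
  have hs := abs_nonneg s
  have hy0 : 0 < y := by linarith
  have hyc : (y : ℂ) ≠ 0 := by exact_mod_cast hy0.ne'
  set x : ℂ := Complex.I * (s / y : ℝ) with hx
  have hxn : ‖x‖ = |s| / y := by
    rw [hx, norm_mul, Complex.norm_I, one_mul, Complex.norm_real, Real.norm_eq_abs, abs_div, abs_of_pos hy0]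
  have hx1 : ‖x‖ ≤ 1 := by
    rw [hxn, div_le_one hy0]
    linarith
  have h2 := Complex.exp_bound hx1 (n := 3) (by norm_num)
  have e1 : ∑ m ∈ range 3, x ^ m / (m.factorial : ℂ) = 1 + x + x ^ 2 / 2 := by
    simp [Finset.sum_range_succ, Nat.factorial]
  rw [e1] at h2
  have e2 : (y : ℂ) ^ 2 * (Complex.exp x - 1) - Complex.I * (s * y : ℝ) - ((-(s ^ 2 / 2) : ℝ) : ℂ) =
      (y : ℂ) ^ 2 * (Complex.exp x - (1 + x + x ^ 2 / 2)) := by
    have e3 : (y : ℂ) ^ 2 * x = Complex.I * (s * y : ℝ) := by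
      rw [hx]
      push_cast
      field_simp
    have e4 : (y : ℂ) ^ 2 * (x ^ 2 / 2) = ((-(s ^ 2 / 2) : ℝ) : ℂ) := by
      rw [hx, mul_pow, Complex.I_sq]
      push_cast
      field_simp
    rw [← e3, ← e4]
    ring
  rw [e2, norm_mul, norm_pow, Complex.norm_real, Real.norm_eq_abs, abs_of_pos hy0]
  calc y ^ 2 * ‖Complex.exp x - (1 + x + x ^ 2 / 2)‖ ≤
      y ^ 2 * (‖x‖ ^ 3 * ((Nat.succ 3 : ℕ) * ((Nat.factorial 3 : ℕ) * (3 : ℕ) : ℝ)⁻¹)) := by gcongr
    _ ≤ y ^ 2 * (‖x‖ ^ 3 * 1) := by
        gcongr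
        norm_num [Nat.factorial]
    _ = |s| ^ 3 / y := by
        rw [hxn]
        field_simp

/-- the normalised counts -/
noncomputable def nc (a : ℕ) (b : ℤ) (T : Finset ℕ) (x : ℝ) : ℝ :=
  ((Nn a b T x : ℝ) - kap a * V T) / √(kap a * V T)

lemma nc_meas (a : ℕ) (b : ℤ) (T : Finset ℕ) : Measurable (nc a b T) := by
  unfold nc
  have h1 : Measurable (fun x => (Nn a b T x : ℝ)) := (measurable_from_nat (f := fun n : ℕ => (n : ℝ))).comp
    (Nn_meas a b T)
  exact (h1.sub_const _).div_const _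

/-- the vector of the normalised counts -/
noncomputable def vec (a : ℕ) (b : ℤ) {k : ℕ} (T : Fin k → Finset ℕ) (x : ℝ) : EuclideanSpace ℝ (Fin k) :=
  WithLp.toLp 2 fun j => nc a b (T j) x

lemma vec_meas (a : ℕ) (b : ℤ) {k : ℕ} (T : Fin k → Finset ℕ) : Measurable (vec a b T) := by
  unfold vec
  exact (WithLp.measurable_toLp 2 _).comp (measurable_pi_lambda _ fun j => nc_meas a b (T j))

/-- the limit law -/
noncomputable def gauss (k : ℕ) : Measure (EuclideanSpace ℝ (Fin k)) :=
  (Measure.pi fun _ : Fin k => gaussianReal 0 1).map (WithLp.toLp 2)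

instance (k : ℕ) : IsProbabilityMeasure (gauss k) := by
  unfold gauss
  exact Measure.isProbabilityMeasure_map (WithLp.measurable_toLp 2 _).aemeasurable

/-- the limit law, as a probability measure -/
noncomputable def gaussP (k : ℕ) : ProbabilityMeasure (EuclideanSpace ℝ (Fin k)) := ⟨gauss k, inferInstance⟩

/-- the law of the vector -/
noncomputable def law (a : ℕ) (b : ℤ) {k : ℕ} (T : Fin k → Finset ℕ) (ν : Measure ℝ)
    [IsProbabilityMeasure ν] : ProbabilityMeasure (EuclideanSpace ℝ (Fin k)) :=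
  ⟨ν.map (vec a b T), Measure.isProbabilityMeasure_map (vec_meas a b T).aemeasurable⟩

/-- **The central limit theorem for disjoint families**, as weak convergence. -/
theorem clt_weak {a : ℕ} {b : ℤ} (hb1 : 1 ≤ |b|) (hba : |b| < a) {k : ℕ} {T : ℕ → Fin k → Finset ℕ}
    (hT : ∀ n j, ∀ p ∈ T n j, p.Prime) (hdis : ∀ n, Pairwise fun i j => Disjoint (T n i) (T n j))
    (hV : ∀ j, Tendsto (fun n => V (T n j)) atTop atTop)
    (hD : ∀ ε : ℝ, 0 < ε → ∃ P : ℕ, ∀ᶠ n in atTop, ∀ j, ∀ x ≥ P,
      ∑ p ∈ (T n j).filter (fun p => x < p ∧ p ≤ 2 * x), wt p ≤ ε)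
    (hC : |b| = 1 → ∀ j, Tendsto (fun n => clus a (univ.biUnion (T n)) / V (T n j)) atTop (𝓝 0))
    (ν : Measure ℝ) [IsProbabilityMeasure ν] (hν : ν ≪ volume) (h0 : ν (Set.Iic 0) = 0) :
    Tendsto (fun n => law a b (T n) ν) atTop (𝓝 (gaussP k)) := by
  classical
  have ha : 2 ≤ a := by
    have h3 : (1 : ℤ) < a := lt_of_le_of_lt hb1 hba
    omega
  have hk := kap_pos ha
  refine ProbabilityMeasure.tendsto_of_tendsto_charFun fun s => ?_
  set y : ℕ → Fin k → ℝ := fun n j => √(kap a * V (T n j)) with hy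
  have hylim : ∀ j, Tendsto (fun n => y n j) atTop atTop := fun j =>
    Real.tendsto_sqrt_atTop.comp ((hV j).const_mul_atTop hk)
  have hysq : ∀ n j, y n j ^ 2 = kap a * V (T n j) := fun n j => Real.sq_sqrt (mul_nonneg hk.le (V_nonneg _))
  set z : ℕ → Fin k → ℂ := fun n j => Complex.exp (Complex.I * (s j / y n j : ℝ)) with hz
  have hz1 : ∀ n j, ‖z n j‖ ≤ 1 := by
    intro n j
    simp only [hz]
    rw [mul_comm, Complex.norm_exp_ofReal_mul_I]
  have hz2 : ∀ n j, ‖1 - z n j‖ ≤ |s j| / y n j := by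
    intro n j
    rw [norm_sub_rev]
    refine (Real.norm_exp_I_mul_ofReal_sub_one_le).trans (le_of_eq ?_)
    rw [Real.norm_eq_abs, abs_div, abs_of_nonneg (Real.sqrt_nonneg _)]
  have hz3 : ∀ n j, ‖1 - z n j‖ ^ 2 ≤ |s j| ^ 2 / (kap a * V (T n j)) := by
    intro n j
    rw [← hysq, ← div_pow]
    exact pow_le_pow_left₀ (norm_nonneg _) (hz2 n j) 2
  have key := fam hb1 hba hT hdis hz1 ?_ ?_ hD ?_ ν hν h0
  · -- the characteristic function
    have hphase : ∀ n, ‖Complex.exp (-(Complex.I * ((∑ j, s j * y n j : ℝ) : ℂ)))‖ = 1 := by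
      intro n
      have e : -(Complex.I * ((∑ j, s j * y n j : ℝ) : ℂ)) = ((-(∑ j, s j * y n j) : ℝ) : ℂ) * Complex.I := by
        push_cast; ring
      rw [e, Complex.norm_exp_ofReal_mul_I]
    have hchar : ∀ᶠ n in atTop, charFun (ν.map (vec a b (T n))) s =
        Complex.exp (-(Complex.I * ((∑ j, s j * y n j : ℝ) : ℂ))) * ∫ x, ∏ j, z n j ^ Nn a b (T n j) x ∂ν := by
      filter_upwards [eventually_all.2 fun j => (hylim j).eventually_gt_atTop 0] with n hn
      rw [charFun_apply, integral_map (vec_meas a b (T n)).aemeasurable (by fun_prop), ← integral_const_mul]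
      refine integral_congr_ae (Eventually.of_forall fun x => ?_)
      show Complex.exp ((⟪vec a b (T n) x, s⟫ : ℝ) * Complex.I) =
        Complex.exp (-(Complex.I * ((∑ j, s j * y n j : ℝ) : ℂ))) * ∏ j, z n j ^ Nn a b (T n j) x
      have e1 : (⟪vec a b (T n) x, s⟫ : ℝ) = ∑ j, s j * nc a b (T n j) x := by
        rw [PiLp.inner_apply]
        refine sum_congr rfl fun j _ => ?_
        simp [vec]
      have e2 : ∀ j, s j * nc a b (T n j) x = (Nn a b (T n j) x : ℝ) * (s j / y n j) - s j * y n j := by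
        intro j
        have h1 := (hn j).ne'
        have h2 : nc a b (T n j) x = ((Nn a b (T n j) x : ℝ) - y n j ^ 2) / y n j := by
          rw [hysq]
          rfl
        rw [h2]
        field_simp
      rw [e1, sum_congr rfl fun j _ => e2 j, sum_sub_distrib]
      have e3 : ∏ j, z n j ^ Nn a b (T n j) x =
          Complex.exp (Complex.I * ((∑ j, (Nn a b (T n j) x : ℝ) * (s j / y n j) : ℝ) : ℂ)) := by
        rw [Complex.ofReal_sum, mul_sum, Complex.exp_sum]
        refine prod_congr rfl fun j _ => ?_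
        simp only [hz]
        rw [← Complex.exp_nat_mul]
        congr 1
        push_cast
        ring
      rw [e3, ← Complex.exp_add]
      congr 1
      push_cast
      ring
    have hlim1 : Tendsto (fun n => Complex.exp (-(Complex.I * ((∑ j, s j * y n j : ℝ) : ℂ))) *
        (∫ x, ∏ j, z n j ^ Nn a b (T n j) x ∂ν -
          Complex.exp (-((kap a : ℝ) * ∑ j, (1 - z n j) * (V (T n j) : ℝ))))) atTop (𝓝 0) := by
      rw [tendsto_zero_iff_norm_tendsto_zero] at key ⊢
      refine key.congr fun n => ?_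
      rw [norm_mul, hphase, one_mul]
    have hlim2 : Tendsto (fun n => Complex.exp (-(Complex.I * ((∑ j, s j * y n j : ℝ) : ℂ))) *
        Complex.exp (-((kap a : ℝ) * ∑ j, (1 - z n j) * (V (T n j) : ℝ)))) atTop
        (𝓝 (Complex.exp (∑ j, (((-(s j ^ 2 / 2) : ℝ)) : ℂ)))) := by
      have h1 : Tendsto (fun n => ∑ j, ((y n j : ℂ) ^ 2 * (Complex.exp (Complex.I * (s j / y n j : ℝ)) - 1) -
          Complex.I * (s j * y n j : ℝ))) atTop (𝓝 (∑ j, (((-(s j ^ 2 / 2) : ℝ)) : ℂ))) :=
        tendsto_finsetSum _ fun j _ => (expo_lim (s j)).comp (hylim j)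
      refine ((Complex.continuous_exp.tendsto _).comp h1).congr fun n => ?_
      simp only [Function.comp]
      rw [← Complex.exp_add]
      congr 1
      rw [sum_sub_distrib, Complex.ofReal_sum, mul_sum, mul_sum]
      have e1 : ∀ j, (y n j : ℂ) ^ 2 = (kap a : ℂ) * (V (T n j) : ℂ) := by
        intro j
        have := hysq n j
        exact_mod_cast this
      rw [sum_congr rfl fun j _ => by rw [e1 j]]
      have e2 : ∑ j, (kap a : ℂ) * (V (T n j) : ℂ) * (Complex.exp (Complex.I * (s j / y n j : ℝ)) - 1) =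
          -∑ j, (kap a : ℂ) * ((1 - z n j) * (V (T n j) : ℂ)) := by
        rw [← sum_neg_distrib]
        refine sum_congr rfl fun j _ => ?_
        simp only [hz]
        ring
      rw [e2]
      ring
    have hlim := hlim1.add hlim2
    rw [zero_add] at hlim
    have hg : charFun (gauss k) s = Complex.exp (∑ j, (((-(s j ^ 2 / 2) : ℝ)) : ℂ)) := by
      unfold gauss
      rw [charFun_pi, Complex.exp_sum]
      refine prod_congr rfl fun j _ => ?_
      rw [charFun_gaussianReal]
      congr 1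
      push_cast
      simp
    show Tendsto (fun n => charFun (ν.map (vec a b (T n))) s) atTop (𝓝 (charFun (gauss k) s))
    rw [hg]
    refine hlim.congr' ?_
    filter_upwards [hchar] with n hn
    rw [hn]
    ring
  · -- small exponents
    intro p j
    have h1 : Tendsto (fun n => |s j| / y n j) atTop (𝓝 0) := tendsto_const_nhds.div_atTop (hylim j)
    refine squeeze_zero (fun n => ?_) (fun n => ?_) h1
    · split_ifs
      · exact norm_nonneg _
      · exact le_rfl
    · split_ifs
      · exact hz2 n j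
      · exact div_nonneg (abs_nonneg _) (Real.sqrt_nonneg _)
  · -- the variance
    refine ⟨∑ j, |s j| ^ 2 / kap a, ?_⟩
    filter_upwards [eventually_all.2 fun j => (hV j).eventually_gt_atTop 0] with n hn j
    refine le_trans ?_ (single_le_sum (f := fun j => |s j| ^ 2 / kap a) (fun i _ => by positivity) (mem_univ j))
    calc ‖1 - z n j‖ ^ 2 * V (T n j) ≤ |s j| ^ 2 / (kap a * V (T n j)) * V (T n j) :=
          mul_le_mul_of_nonneg_right (hz3 n j) (V_nonneg _)
      _ = |s j| ^ 2 / kap a := by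
          have := hn j
          field_simp
  · -- the clusters
    intro hb j
    have h1 : Tendsto (fun n => |s j| ^ 2 / kap a * (clus a (univ.biUnion (T n)) / V (T n j))) atTop (𝓝 0) := by
      have := (hC hb j).const_mul (|s j| ^ 2 / kap a)
      rwa [mul_zero] at this
    refine squeeze_zero (fun n => mul_nonneg (by positivity) (clus_nonneg _ _)) (fun n => ?_) h1
    refine (mul_le_mul_of_nonneg_right (hz3 n j) (clus_nonneg _ _)).trans (le_of_eq ?_)
    rw [div_mul_div_comm, div_mul_eq_mul_div]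

/-- **The central limit theorem for disjoint families**, for the distribution functions. -/
theorem clt {a : ℕ} {b : ℤ} (hb1 : 1 ≤ |b|) (hba : |b| < a) {k : ℕ} {T : ℕ → Fin k → Finset ℕ}
    (hT : ∀ n j, ∀ p ∈ T n j, p.Prime) (hdis : ∀ n, Pairwise fun i j => Disjoint (T n i) (T n j))
    (hV : ∀ j, Tendsto (fun n => V (T n j)) atTop atTop)
    (hD : ∀ ε : ℝ, 0 < ε → ∃ P : ℕ, ∀ᶠ n in atTop, ∀ j, ∀ x ≥ P,
      ∑ p ∈ (T n j).filter (fun p => x < p ∧ p ≤ 2 * x), wt p ≤ ε)
    (hC : |b| = 1 → ∀ j, Tendsto (fun n => clus a (univ.biUnion (T n)) / V (T n j)) atTop (𝓝 0))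
    (ν : Measure ℝ) [IsProbabilityMeasure ν] (hν : ν ≪ volume) (h0 : ν (Set.Iic 0) = 0) (t : Fin k → ℝ) :
    Tendsto (fun n => ν.real {x | ∀ j, nc a b (T n j) x ≤ t j}) atTop
      (𝓝 (∏ j, (gaussianReal 0 1).real (Set.Iic (t j)))) := by
  classical
  have hw := clt_weak hb1 hba hT hdis hV hD hC ν hν h0
  set E : Set (EuclideanSpace ℝ (Fin k)) := {y | ∀ j, y j ≤ t j} with hE
  have hcont : ∀ j : Fin k, Continuous (fun y : EuclideanSpace ℝ (Fin k) => y j) := fun j => by fun_prop
  have hEc : IsClosed E := by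
    rw [hE, Set.setOf_forall]
    exact isClosed_iInter fun j => isClosed_le (hcont j) continuous_const
  have hO : IsOpen {y : EuclideanSpace ℝ (Fin k) | ∀ j, y j < t j} := by
    rw [Set.setOf_forall]
    exact isOpen_iInter_of_finite fun j => isOpen_lt (hcont j) continuous_const
  have hmeas : Measurable (WithLp.toLp 2 : (Fin k → ℝ) → EuclideanSpace ℝ (Fin k)) := WithLp.measurable_toLp 2 _
  haveI hna : NullSingletonClass (gaussianReal 0 1) := nullSingletonClass_gaussianReal one_ne_zero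
  have hfr : (gaussP k : Measure (EuclideanSpace ℝ (Fin k))) (frontier E) = 0 := by
    show gauss k (frontier E) = 0
    have hsub : frontier E ⊆ ⋃ j, {y : EuclideanSpace ℝ (Fin k) | y j = t j} := by
      intro y hy
      rw [hEc.frontier_eq] at hy
      by_contra h1
      apply hy.2
      refine interior_maximal (fun z hz => ?_) hO ?_
      · exact fun j => (hz j).le
      · intro j
        refine lt_of_le_of_ne (hy.1 j) fun h2 => h1 ?_
        exact Set.mem_iUnion.2 ⟨j, h2⟩
    refine measure_mono_null hsub (measure_iUnion_null fun j => ?_)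
    unfold gauss
    rw [Measure.map_apply hmeas (isClosed_eq (hcont j) continuous_const).measurableSet]
    exact Measure.pi_hyperplane (μ := fun _ : Fin k => gaussianReal 0 1) j (t j)
  have h1 := ProbabilityMeasure.tendsto_measure_of_null_frontier_of_tendsto' hw hfr
  have h2 : (gaussP k : Measure (EuclideanSpace ℝ (Fin k))) E = ∏ j, gaussianReal 0 1 (Set.Iic (t j)) := by
    show gauss k E = _
    unfold gauss
    rw [Measure.map_apply hmeas hEc.measurableSet, ← Measure.pi_pi]
    congr 1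
    ext f
    exact ⟨fun h j _ => h j, fun h j => h j (Set.mem_univ j)⟩
  have h3 : ∀ n, (law a b (T n) ν : Measure (EuclideanSpace ℝ (Fin k))) E =
      ν {x | ∀ j, nc a b (T n j) x ≤ t j} := by
    intro n
    show ν.map (vec a b (T n)) E = _
    rw [Measure.map_apply (vec_meas a b (T n)) hEc.measurableSet]
    rfl
  rw [h2] at h1
  simp only [h3] at h1
  have h4 := (ENNReal.tendsto_toReal (ENNReal.prod_ne_top fun j _ => measure_ne_top _ _)).comp h1
  rw [ENNReal.toReal_prod] at h4
  exact h4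

end Pool.Agent.J6H29.PL
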